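import Mathlib

/-!
The independence polynomial of a dependency graph, Shearer's region, and a version of the
local lemma adapted to games: if a move only changes the weights on a clique of the
dependency graph, the region is cut out by one linear inequality.
-/

namespace Pool.Agent.P.MP_d36d9e_co

open Finset

variable {ι : Type*} [DecidableEq ι]

/-- independent sets -/
def Indep (adj : ι → ι → Prop) (I : Finset ι) : Prop :=
  ∀ a ∈ I, ∀ b ∈ I, a ≠ b → ¬ adj a b

open Classical in
/-- alternating independence polynomial -/
noncomputable def Q (adj : ι → ι → Prop) (x : ι → ℝ) (S : Finset ι) : ℝ :=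
  ∑ I ∈ S.powerset, if Indep adj I then ∏ a ∈ I, (-x a) else 0

/-- Shearer region -/
def Good (adj : ι → ι → Prop) (x : ι → ℝ) (U : Finset ι) : Prop :=
  ∀ S ⊆ U, 0 < Q adj x S

variable {adj : ι → ι → Prop}

lemma Q_empty (x : ι → ℝ) : Q adj x ∅ = 1 := by
  simp [Q, Indep]

lemma Q_congr {x y : ι → ℝ} {S : Finset ι} (h : ∀ a ∈ S, x a = y a) :
    Q adj x S = Q adj y S := by
  unfold Q
  refine Finset.sum_congr rfl fun I hI => ?_
  have hI' := Finset.mem_powerset.1 hI
  split_ifs
  · exact Finset.prod_congr rfl fun a ha => by rw [h a (hI' ha)]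
  · rfl

open Classical in
lemma Q_insert (hs : ∀ a b, adj a b → adj b a) (x : ι → ℝ) {a : ι} {S : Finset ι}
    (ha : a ∉ S) :
    Q adj x (insert a S) = Q adj x S - x a * Q adj x (S.filter fun b => ¬ adj a b) := by
  unfold Q
  rw [Finset.sum_powerset_insert ha]
  have key : ∑ I ∈ S.powerset, (if Indep adj (insert a I) then ∏ c ∈ insert a I, (-x c) else 0)
      = - x a * ∑ I ∈ (S.filter fun b => ¬ adj a b).powerset,
          if Indep adj I then ∏ c ∈ I, (-x c) else 0 := by
    rw [Finset.mul_sum]
    symm
    apply Finset.sum_subset_zero_on_sdiff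
    · exact Finset.powerset_mono.2 (Finset.filter_subset _ _)
    · intro I hI
      rw [Finset.mem_sdiff, Finset.mem_powerset, Finset.mem_powerset] at hI
      obtain ⟨h1, h2⟩ := hI
      rw [if_neg]
      intro hind
      apply h2
      intro b hb
      rw [Finset.mem_filter]
      refine ⟨h1 hb, ?_⟩
      apply hind a (Finset.mem_insert_self _ _) b (Finset.mem_insert_of_mem hb)
      rintro rfl
      exact ha (h1 hb)
    · intro I hI
      rw [Finset.mem_powerset] at hI
      have haI : a ∉ I := fun h => ha (Finset.mem_filter.1 (hI h)).1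
      by_cases hind : Indep adj I
      · have : Indep adj (insert a I) := by
          intro b hb c hc hbc
          rw [Finset.mem_insert] at hb hc
          rcases hb with rfl | hb
          · rcases hc with rfl | hc
            · exact absurd rfl hbc
            · exact (Finset.mem_filter.1 (hI hc)).2
          · rcases hc with rfl | hc
            · exact fun h => (Finset.mem_filter.1 (hI hb)).2 (hs _ _ h)
            · exact hind b hb c hc hbc
        rw [if_pos hind, if_pos this, Finset.prod_insert haI]
      · have : ¬ Indep adj (insert a I) := fun h => hind fun b hb c hc hbc =>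
          h b (Finset.mem_insert_of_mem hb) c (Finset.mem_insert_of_mem hc) hbc
        rw [if_neg hind, if_neg this, mul_zero]
  rw [key]; ring

lemma Good.mono {x : ι → ℝ} {U S : Finset ι} (h : Good adj x U) (hS : S ⊆ U) :
    Good adj x S := fun T hT => h T (hT.trans hS)

open Classical in
lemma Q_insert_le (hs : ∀ a b, adj a b → adj b a) {x : ι → ℝ} {U : Finset ι}
    (hx : ∀ a, 0 ≤ x a) (h : Good adj x U) {a : ι} {S : Finset ι} (ha : a ∉ S) (hS : S ⊆ U) :
    Q adj x (insert a S) ≤ Q adj x S := by
  rw [Q_insert hs x ha]
  have := h (S.filter fun b => ¬ adj a b) ((Finset.filter_subset _ _).trans hS)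
  have := mul_nonneg (hx a) this.le
  linarith

lemma Good.lt_one (hs : ∀ a b, adj a b → adj b a) {x : ι → ℝ} {U : Finset ι}
    (h : Good adj x U) {a : ι} (ha : a ∈ U) : x a < 1 := by
  classical
  have h1 := h {a} (by simpa using ha)
  have h2 := Q_insert hs x (a := a) (S := ∅) (by simp)
  simp only [Finset.filter_empty, Q_empty, insert_empty_eq] at h2
  linarith

open Classical in
/-- log-submodularity on the Shearer region -/
lemma Q_ratio (hs : ∀ a b, adj a b → adj b a) {x : ι → ℝ} {U : Finset ι}
    (hx : ∀ a, 0 ≤ x a) (h : Good adj x U) (k : ℕ) :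
    ∀ T T' R : Finset ι, T ⊆ T' → T' ⊆ U → T'.card ≤ k →
      Q adj x (T \ R) * Q adj x T' ≤ Q adj x (T' \ R) * Q adj x T := by
  induction k with
  | zero =>
    intro T T' R hT hT' hk
    have : T' = ∅ := Finset.card_eq_zero.1 (by omega)
    subst this
    have : T = ∅ := Finset.subset_empty.1 hT
    subst this
    simp
  | succ k ih =>
    -- single step
    have single : ∀ (a : ι) (T T' : Finset ι), T ⊆ T' → T' ⊆ U → T'.card ≤ k → a ∉ T' →
        Q adj x T * Q adj x (insert a T') ≤ Q adj x T' * Q adj x (insert a T) := by
      intro a T T' hT hT' hk ha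
      have haT : a ∉ T := fun h => ha (hT h)
      rw [Q_insert hs x ha, Q_insert hs x haT]
      have e1 : (T.filter fun b => ¬ adj a b) = T \ (T'.filter fun b => adj a b) := by
        ext b; simp only [Finset.mem_filter, Finset.mem_sdiff]
        constructor
        · rintro ⟨h1, h2⟩; exact ⟨h1, fun h3 => h2 h3.2⟩
        · rintro ⟨h1, h2⟩; exact ⟨h1, fun h3 => h2 ⟨hT h1, h3⟩⟩
      have e2 : (T'.filter fun b => ¬ adj a b) = T' \ (T'.filter fun b => adj a b) := by
        ext b; simp only [Finset.mem_filter, Finset.mem_sdiff]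
        constructor
        · rintro ⟨h1, h2⟩; exact ⟨h1, fun h3 => h2 h3.2⟩
        · rintro ⟨h1, h2⟩; exact ⟨h1, fun h3 => h2 ⟨h1, h3⟩⟩
      rw [e1, e2]
      have := ih T T' (T'.filter fun b => adj a b) hT hT' hk
      have := mul_le_mul_of_nonneg_left this (hx a)
      nlinarith
    intro T T' R hT hT' hk
    induction R using Finset.induction_on with
    | empty => simp [mul_comm]
    | insert a R haR ihR =>
      by_cases haT' : a ∈ T'
      · -- remove a from T' \ R
        have hmem : a ∈ T' \ R := Finset.mem_sdiff.2 ⟨haT', haR⟩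
        have e2 : T' \ R = insert a (T' \ insert a R) := by
          ext b; simp only [Finset.mem_sdiff, Finset.mem_insert]
          constructor
          · rintro ⟨h1, h2⟩
            by_cases hb : b = a
            · exact Or.inl hb
            · exact Or.inr ⟨h1, fun h3 => h3.elim hb h2⟩
          · rintro (rfl | ⟨h1, h2⟩)
            · exact ⟨haT', haR⟩
            · exact ⟨h1, fun h3 => h2 (Or.inr h3)⟩
        have hna : a ∉ T' \ insert a R := by simp
        have hsub : T' \ insert a R ⊆ U := Finset.sdiff_subset.trans hT'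
        have hcard : (T' \ insert a R).card ≤ k := by
          have h1 : (T' \ R).card ≤ T'.card := Finset.card_le_card Finset.sdiff_subset
          rw [e2, Finset.card_insert_of_notMem hna] at h1
          omega
        have hsub2 : T \ insert a R ⊆ T' \ insert a R := Finset.sdiff_subset_sdiff hT le_rfl
        have pT := h T (hT.trans hT')
        have pT' := h T' hT'
        have pTR := h (T \ R) (Finset.sdiff_subset.trans (hT.trans hT'))
        have pT'R := h (T' \ R) (Finset.sdiff_subset.trans hT')
        have pTa := h (T \ insert a R) (Finset.sdiff_subset.trans (hT.trans hT'))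
        have pT'a := h (T' \ insert a R) hsub
        have step : Q adj x (T \ insert a R) * Q adj x (T' \ R) ≤
            Q adj x (T' \ insert a R) * Q adj x (T \ R) := by
          by_cases haT : a ∈ T
          · have e1 : T \ R = insert a (T \ insert a R) := by
              ext b; simp only [Finset.mem_sdiff, Finset.mem_insert]
              constructor
              · rintro ⟨h1, h2⟩
                by_cases hb : b = a
                · exact Or.inl hb
                · exact Or.inr ⟨h1, fun h3 => h3.elim hb h2⟩
              · rintro (rfl | ⟨h1, h2⟩)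
                · exact ⟨haT, haR⟩
                · exact ⟨h1, fun h3 => h2 (Or.inr h3)⟩
            have := single a _ _ hsub2 hsub hcard hna
            rw [← e1, ← e2] at this
            exact this
          · have e1 : T \ insert a R = T \ R := by
              ext b; simp only [Finset.mem_sdiff, Finset.mem_insert]
              constructor
              · rintro ⟨h1, h2⟩; exact ⟨h1, fun h3 => h2 (Or.inr h3)⟩
              · rintro ⟨h1, h2⟩
                exact ⟨h1, fun h3 => h3.elim (fun h4 => haT (h4 ▸ h1)) h2⟩
            have := Q_insert_le hs hx h hna hsub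
            rw [← e2] at this
            rw [e1]
            nlinarith
        -- combine
        have : Q adj x (T \ insert a R) * Q adj x T' * Q adj x (T' \ R) ≤
            Q adj x (T' \ insert a R) * Q adj x T * Q adj x (T' \ R) := by
          calc Q adj x (T \ insert a R) * Q adj x T' * Q adj x (T' \ R)
              = (Q adj x (T \ insert a R) * Q adj x (T' \ R)) * Q adj x T' := by ring
            _ ≤ (Q adj x (T' \ insert a R) * Q adj x (T \ R)) * Q adj x T' :=
                mul_le_mul_of_nonneg_right step pT'.le
            _ = Q adj x (T' \ insert a R) * (Q adj x (T \ R) * Q adj x T') := by ring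
            _ ≤ Q adj x (T' \ insert a R) * (Q adj x (T' \ R) * Q adj x T) :=
                mul_le_mul_of_nonneg_left ihR pT'a.le
            _ = _ := by ring
        exact le_of_mul_le_mul_right this pT'R
      · have haT : a ∉ T := fun h => haT' (hT h)
        have e1 : T \ insert a R = T \ R := by
          ext b; simp only [Finset.mem_sdiff, Finset.mem_insert]
          constructor
          · rintro ⟨h1, h2⟩; exact ⟨h1, fun h3 => h2 (Or.inr h3)⟩
          · rintro ⟨h1, h2⟩
            exact ⟨h1, fun h3 => h3.elim (fun h4 => haT (h4 ▸ h1)) h2⟩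
        have e2 : T' \ insert a R = T' \ R := by
          ext b; simp only [Finset.mem_sdiff, Finset.mem_insert]
          constructor
          · rintro ⟨h1, h2⟩; exact ⟨h1, fun h3 => h2 (Or.inr h3)⟩
          · rintro ⟨h1, h2⟩
            exact ⟨h1, fun h3 => h3.elim (fun h4 => haT' (h4 ▸ h1)) h2⟩
        rw [e1, e2]; exact ihR

open Classical in
lemma Q_clique (hs : ∀ a b, adj a b → adj b a) {x x' : ι → ℝ} {C : Finset ι}
    (hC : ∀ a ∈ C, ∀ b ∈ C, a ≠ b → adj a b) (hxx : ∀ a, a ∉ C → x' a = x a)
    (T : Finset ι) (hT : Disjoint T C) (D : Finset ι) (hD : D ⊆ C) :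
    Q adj x' (T ∪ D) = Q adj x T - ∑ a ∈ D, x' a * Q adj x (T.filter fun b => ¬ adj a b) := by
  induction D using Finset.induction_on with
  | empty =>
    simp only [Finset.union_empty, Finset.sum_empty, sub_zero]
    exact Q_congr fun a ha => hxx a (Finset.disjoint_left.1 hT ha)
  | insert a D haD ih =>
    have haC : a ∈ C := hD (Finset.mem_insert_self _ _)
    have hD' : D ⊆ C := (Finset.subset_insert _ _).trans hD
    have haT : a ∉ T := fun h => Finset.disjoint_left.1 hT h haC
    have hn : a ∉ T ∪ D := by simp [haT, haD]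
    rw [Finset.union_insert, Q_insert hs x' hn, ih hD', Finset.sum_insert haD]
    have e : ((T ∪ D).filter fun b => ¬ adj a b) = T.filter fun b => ¬ adj a b := by
      ext b; simp only [Finset.mem_filter, Finset.mem_union]
      constructor
      · rintro ⟨h1 | h1, h2⟩
        · exact ⟨h1, h2⟩
        · exact absurd (hC a haC b (hD' h1) (fun h => haD (h ▸ h1))) h2
      · rintro ⟨h1, h2⟩; exact ⟨Or.inl h1, h2⟩
    rw [e]
    have : Q adj x' (T.filter fun b => ¬ adj a b) = Q adj x (T.filter fun b => ¬ adj a b) :=
      Q_congr fun b hb => hxx b (Finset.disjoint_left.1 hT (Finset.mem_filter.1 hb).1)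
    rw [this]; ring

/-- On a clique the Shearer region is a half space. -/
theorem clique_halfspace (hs : ∀ a b, adj a b → adj b a) {x : ι → ℝ} {U C : Finset ι}
    (hx : ∀ a, 0 ≤ x a) (h : Good adj x U) (hCU : C ⊆ U)
    (hC : ∀ a ∈ C, ∀ b ∈ C, a ≠ b → adj a b) :
    ∃ β : ι → ℝ, (∀ a, 0 ≤ β a) ∧ ∑ a ∈ C, x a * β a < 1 ∧
      ∀ x' : ι → ℝ, (∀ a, 0 ≤ x' a) → (∀ a, a ∉ C → x' a = x a) →
        ∑ a ∈ C, x' a * β a < 1 → Good adj x' U := by
  classical
  have p0 := h (U \ C) Finset.sdiff_subset
  refine ⟨fun a => Q adj x ((U \ C).filter fun b => ¬ adj a b) / Q adj x (U \ C), ?_, ?_, ?_⟩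
  · intro a
    exact div_nonneg (h _ ((Finset.filter_subset _ _).trans Finset.sdiff_subset)).le p0.le
  · have e := Q_clique hs (x := x) (x' := x) hC (fun _ _ => rfl) (U \ C) Finset.sdiff_disjoint
      C le_rfl
    rw [Finset.sdiff_union_of_subset hCU] at e
    have pU := h U le_rfl
    have : ∑ a ∈ C, x a * (Q adj x ((U \ C).filter fun b => ¬ adj a b) / Q adj x (U \ C))
        = (∑ a ∈ C, x a * Q adj x ((U \ C).filter fun b => ¬ adj a b)) / Q adj x (U \ C) := by
      rw [Finset.sum_div]; exact Finset.sum_congr rfl fun a _ => by ring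
    rw [this, div_lt_one p0]; linarith
  · intro x' hx' hxx hlt S hS
    have e := Q_clique hs (x := x) (x' := x') hC hxx (S \ C) Finset.sdiff_disjoint
      (S ∩ C) Finset.inter_subset_right
    rw [Finset.sdiff_union_inter] at e
    have pS := h (S \ C) (Finset.sdiff_subset.trans hS)
    have hsub : S \ C ⊆ U \ C := Finset.sdiff_subset_sdiff hS le_rfl
    have hb : ∀ a ∈ S ∩ C, x' a * Q adj x ((S \ C).filter fun b => ¬ adj a b) ≤
        x' a * (Q adj x ((U \ C).filter fun b => ¬ adj a b) / Q adj x (U \ C)) *
          Q adj x (S \ C) := by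
      intro a _
      have r := Q_ratio hs hx h (U \ C).card (S \ C) (U \ C) ((U \ C).filter fun b => adj a b)
        hsub Finset.sdiff_subset le_rfl
      have e1 : ((S \ C).filter fun b => ¬ adj a b) =
          (S \ C) \ ((U \ C).filter fun b => adj a b) := by
        ext b; simp only [Finset.mem_filter, Finset.mem_sdiff]
        constructor
        · rintro ⟨h1, h2⟩; exact ⟨h1, fun h3 => h2 h3.2⟩
        · rintro ⟨h1, h2⟩; exact ⟨h1, fun h3 => h2 ⟨⟨hS h1.1, h1.2⟩, h3⟩⟩
      have e2 : ((U \ C).filter fun b => ¬ adj a b) =
          (U \ C) \ ((U \ C).filter fun b => adj a b) := by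
        ext b; simp only [Finset.mem_filter, Finset.mem_sdiff]
        constructor
        · rintro ⟨h1, h2⟩; exact ⟨h1, fun h3 => h2 h3.2⟩
        · rintro ⟨h1, h2⟩; exact ⟨h1, fun h3 => h2 ⟨h1, h3⟩⟩
      rw [← e1, ← e2] at r
      rw [mul_assoc]
      apply mul_le_mul_of_nonneg_left _ (hx' a)
      rw [div_mul_eq_mul_div, le_div_iff₀ p0]
      exact r
    have h1 := Finset.sum_le_sum hb
    rw [← Finset.sum_mul] at h1
    have h2 : ∑ a ∈ S ∩ C, x' a * (Q adj x ((U \ C).filter fun b => ¬ adj a b) / Q adj x (U \ C))
        ≤ ∑ a ∈ C, x' a * (Q adj x ((U \ C).filter fun b => ¬ adj a b) / Q adj x (U \ C)) := by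
      apply Finset.sum_le_sum_of_subset_of_nonneg Finset.inter_subset_right
      intro a _ _
      exact mul_nonneg (hx' a) (div_nonneg
        (h _ ((Finset.filter_subset _ _).trans Finset.sdiff_subset)).le p0.le)
    have h3 := mul_lt_mul_of_pos_right (lt_of_le_of_lt h2 hlt) pS
    rw [e]; linarith

open Classical in
/-- The symmetric local lemma: small constant weights lie in the region. -/
theorem good_const (hs : ∀ a b, adj a b → adj b a) (U : Finset ι) (Δ : ℝ) (hΔ : 1 ≤ Δ)
    (hdeg : ∀ a ∈ U, ((U.filter fun b => adj a b).card : ℝ) ≤ Δ) :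
    Good adj (fun _ => 1 / (4 * Δ)) U := by
  set x : ι → ℝ := fun _ => 1 / (4 * Δ) with hxdef
  set y : ℝ := 1 / (2 * Δ) with hy
  have hy0 : 0 < y := by positivity
  have hy1 : y ≤ 1 / 2 := by
    rw [hy]; apply one_div_le_one_div_of_le <;> linarith
  have main : ∀ k : ℕ, ∀ S ⊆ U, S.card ≤ k → 0 < Q adj x S ∧
      ∀ R ⊆ S, (1 - y * R.card) * Q adj x (S \ R) ≤ Q adj x S := by
    intro k
    induction k with
    | zero =>
      intro S _ hk
      have : S = ∅ := Finset.card_eq_zero.1 (by omega)
      subst this
      refine ⟨by simp [Q_empty], ?_⟩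
      intro R hR
      have : R = ∅ := Finset.subset_empty.1 hR
      subst this; simp
    | succ k ih =>
      have single : ∀ a ∈ U, ∀ T ⊆ U, T.card ≤ k → a ∉ T →
          (1 - y) * Q adj x T ≤ Q adj x (insert a T) := by
        intro a haU T hT hk haT
        rw [Q_insert hs x haT]
        obtain ⟨p, hR⟩ := ih T hT hk
        have h1 := hR (T.filter fun b => adj a b) (Finset.filter_subset _ _)
        have e1 : T \ (T.filter fun b => adj a b) = T.filter fun b => ¬ adj a b := by
          ext b; simp only [Finset.mem_filter, Finset.mem_sdiff]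
          constructor
          · rintro ⟨h1, h2⟩; exact ⟨h1, fun h3 => h2 ⟨h1, h3⟩⟩
          · rintro ⟨h1, h2⟩; exact ⟨h1, fun h3 => h2 h3.2⟩
        rw [e1] at h1
        have hc : ((T.filter fun b => adj a b).card : ℝ) ≤ Δ := by
          refine le_trans ?_ (hdeg a haU)
          exact_mod_cast Finset.card_le_card (Finset.filter_subset_filter _ hT)
        have p2 := (ih (T.filter fun b => ¬ adj a b) ((Finset.filter_subset _ _).trans hT)
          (le_trans (Finset.card_le_card (Finset.filter_subset _ _)) hk)).1
        have h2 : y * ((T.filter fun b => adj a b).card : ℝ) ≤ 1 / 2 := by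
          calc y * ((T.filter fun b => adj a b).card : ℝ) ≤ y * Δ :=
                mul_le_mul_of_nonneg_left hc hy0.le
            _ = 1 / 2 := by rw [hy]; field_simp
        have h3 : (1 / 2) * Q adj x (T.filter fun b => ¬ adj a b) ≤ Q adj x T := by
          nlinarith
        have h4 : x a = y / 2 := by
          simp only [hxdef, hy]; field_simp; norm_num
        rw [h4]; nlinarith
      intro S hS hk
      have pos : 0 < Q adj x S := by
        rcases S.eq_empty_or_nonempty with rfl | ⟨a, ha⟩
        · simp [Q_empty]
        · have e : S = insert a (S.erase a) := (Finset.insert_erase ha).symm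
          have hc : (S.erase a).card ≤ k := by rw [Finset.card_erase_of_mem ha]; omega
          have hsub : S.erase a ⊆ U := (Finset.erase_subset _ _).trans hS
          have := single a (hS ha) _ hsub hc (Finset.notMem_erase _ _)
          rw [← e] at this
          have p := (ih _ hsub hc).1
          nlinarith
      refine ⟨pos, ?_⟩
      intro R hR
      rcases R.eq_empty_or_nonempty with rfl | ⟨a, ha⟩
      · simp
      · have haS : a ∈ S := hR ha
        have e : S = insert a (S.erase a) := (Finset.insert_erase haS).symm
        have hc : (S.erase a).card ≤ k := by rw [Finset.card_erase_of_mem haS]; omega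
        have hsub : S.erase a ⊆ U := (Finset.erase_subset _ _).trans hS
        have h1 := single a (hS haS) _ hsub hc (Finset.notMem_erase _ _)
        rw [← e] at h1
        obtain ⟨p, hR'⟩ := ih _ hsub hc
        have h2 := hR' (R.erase a) (Finset.erase_subset_erase _ hR)
        have e2 : S.erase a \ R.erase a = S \ R := by
          ext b; simp only [Finset.mem_sdiff, Finset.mem_erase]
          constructor
          · rintro ⟨⟨h1, h2⟩, h3⟩; exact ⟨h2, fun h4 => h3 ⟨h1, h4⟩⟩
          · rintro ⟨h1, h2⟩
            exact ⟨⟨fun h3 => h2 (h3 ▸ ha), h1⟩, fun h3 => h2 h3.2⟩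
        rw [e2] at h2
        have hcard : ((R.erase a).card : ℝ) = R.card - 1 := by
          rw [Finset.card_erase_of_mem ha]
          have := Finset.card_pos.2 ⟨a, ha⟩
          push_cast [Nat.cast_sub this]; ring
        rw [hcard] at h2
        have p3 : 0 < Q adj x (S \ R) := by
          rw [← e2]
          exact (ih _ (Finset.sdiff_subset.trans hsub)
            (le_trans (Finset.card_le_card Finset.sdiff_subset) hc)).1
        have hR1 : (1 : ℝ) ≤ R.card := by exact_mod_cast Finset.card_pos.2 ⟨a, ha⟩
        have h5 : (1 - y) * ((1 - y * (R.card - 1)) * Q adj x (S \ R)) ≤ Q adj x S :=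
          le_trans (mul_le_mul_of_nonneg_left h2 (by linarith)) h1
        have h6 : (1 - y * R.card) ≤ (1 - y) * (1 - y * (R.card - 1)) := by
          have : 0 ≤ y * y * (R.card - 1) := mul_nonneg (mul_nonneg hy0.le hy0.le) (by linarith)
          nlinarith
        calc (1 - y * R.card) * Q adj x (S \ R)
            ≤ (1 - y) * (1 - y * (R.card - 1)) * Q adj x (S \ R) :=
              mul_le_mul_of_nonneg_right h6 p3.le
          _ ≤ Q adj x S := by rw [mul_assoc]; exact h5
  intro S hS
  exact (main S.card S hS le_rfl).1

end Pool.Agent.P.MP_d36d9e_co
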