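import Mathlib

/-!
From a position invariant to a history based strategy of the second player.
-/

namespace Pool.Agent.P.MP_d36d9e_co

open Finset

variable {V : Type*} [DecidableEq V]

/-- points taken at even times before time `k` -/
def evens (m : ℕ → V) (k : ℕ) : Finset V := ((range k).filter fun i => Even i).image m

/-- points taken at odd times before time `k` -/
def odds (m : ℕ → V) (k : ℕ) : Finset V := ((range k).filter fun i => Odd i).image m

lemma mem_evens {m : ℕ → V} {k : ℕ} {x : V} :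
    x ∈ evens m k ↔ ∃ i, i < k ∧ Even i ∧ m i = x := by
  simp [evens, and_assoc]

lemma mem_odds {m : ℕ → V} {k : ℕ} {x : V} :
    x ∈ odds m k ↔ ∃ i, i < k ∧ Odd i ∧ m i = x := by
  simp [odds, and_assoc]

lemma evens_congr {m m' : ℕ → V} {k : ℕ} (h : ∀ i < k, m i = m' i) :
    evens m k = evens m' k := by
  ext x; simp only [mem_evens]
  constructor
  · rintro ⟨i, h1, h2, h3⟩; exact ⟨i, h1, h2, (h i h1) ▸ h3⟩
  · rintro ⟨i, h1, h2, h3⟩; exact ⟨i, h1, h2, (h i h1).symm ▸ h3⟩

lemma odds_congr {m m' : ℕ → V} {k : ℕ} (h : ∀ i < k, m i = m' i) :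
    odds m k = odds m' k := by
  ext x; simp only [mem_odds]
  constructor
  · rintro ⟨i, h1, h2, h3⟩; exact ⟨i, h1, h2, (h i h1) ▸ h3⟩
  · rintro ⟨i, h1, h2, h3⟩; exact ⟨i, h1, h2, (h i h1).symm ▸ h3⟩

lemma evens_succ_even (m : ℕ → V) {k : ℕ} (hk : Even k) :
    evens m (k + 1) = insert (m k) (evens m k) := by
  ext x; simp only [mem_evens, mem_insert]
  constructor
  · rintro ⟨i, h1, h2, h3⟩
    rcases Nat.lt_succ_iff_lt_or_eq.1 h1 with h | rfl
    · exact Or.inr ⟨i, h, h2, h3⟩
    · exact Or.inl h3.symm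
  · rintro (rfl | ⟨i, h1, h2, h3⟩)
    · exact ⟨k, by omega, hk, rfl⟩
    · exact ⟨i, by omega, h2, h3⟩

lemma evens_succ_odd (m : ℕ → V) {k : ℕ} (hk : Odd k) :
    evens m (k + 1) = evens m k := by
  ext x; simp only [mem_evens]
  constructor
  · rintro ⟨i, h1, h2, h3⟩
    rcases Nat.lt_succ_iff_lt_or_eq.1 h1 with h | rfl
    · exact ⟨i, h, h2, h3⟩
    · exact absurd h2 (Nat.not_even_iff_odd.2 hk)
  · rintro ⟨i, h1, h2, h3⟩
    exact ⟨i, by omega, h2, h3⟩

lemma odds_succ_odd (m : ℕ → V) {k : ℕ} (hk : Odd k) :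
    odds m (k + 1) = insert (m k) (odds m k) := by
  ext x; simp only [mem_odds, mem_insert]
  constructor
  · rintro ⟨i, h1, h2, h3⟩
    rcases Nat.lt_succ_iff_lt_or_eq.1 h1 with h | rfl
    · exact Or.inr ⟨i, h, h2, h3⟩
    · exact Or.inl h3.symm
  · rintro (rfl | ⟨i, h1, h2, h3⟩)
    · exact ⟨k, by omega, hk, rfl⟩
    · exact ⟨i, by omega, h2, h3⟩

lemma odds_succ_even (m : ℕ → V) {k : ℕ} (hk : Even k) :
    odds m (k + 1) = odds m k := by
  ext x; simp only [mem_odds]
  constructor
  · rintro ⟨i, h1, h2, h3⟩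
    rcases Nat.lt_succ_iff_lt_or_eq.1 h1 with h | rfl
    · exact ⟨i, h, h2, h3⟩
    · exact absurd hk (Nat.not_even_iff_odd.2 h2)
  · rintro ⟨i, h1, h2, h3⟩
    exact ⟨i, by omega, h2, h3⟩

lemma exists_free (W : Finset V) (m : ℕ → V) {k : ℕ} (hk : k < W.card) :
    ∃ y ∈ W, y ∉ evens m k ∧ y ∉ odds m k := by
  have h1 : ((range k).image m).card < W.card :=
    lt_of_le_of_lt (card_image_le.trans (by simp)) hk
  obtain ⟨y, hy, hy'⟩ := exists_mem_notMem_of_card_lt_card h1
  refine ⟨y, hy, ?_, ?_⟩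
  · rw [mem_evens]; rintro ⟨i, h1, -, h3⟩
    exact hy' (mem_image.2 ⟨i, mem_range.2 h1, h3⟩)
  · rw [mem_odds]; rintro ⟨i, h1, -, h3⟩
    exact hy' (mem_image.2 ⟨i, mem_range.2 h1, h3⟩)

theorem strategy_of_invariant [Nonempty V] (F : Finset (Finset V)) (hne : ∀ A ∈ F, A.Nonempty)
    (P : Finset V → Finset V → Prop) (h0 : P ∅ ∅)
    (step : ∀ M B x, P M B → x ∈ F.biUnion id → x ∉ M → x ∉ B →
      (∀ A ∈ F, ¬ A ⊆ insert x M) ∧
      ((∃ y ∈ F.biUnion id, y ∉ insert x M ∧ y ∉ B) →
        ∃ y ∈ F.biUnion id, y ∉ insert x M ∧ y ∉ B ∧ P (insert x M) (insert y B))) :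
    ∃ σ : List V → V, ∀ m : ℕ → V,
      (∀ k < (F.biUnion id).card, Odd k → m k = σ (List.ofFn fun i : Fin k => m i.val)) →
      (∀ k < (F.biUnion id).card, Even k → m k ∈ F.biUnion id ∧ ∀ i < k, m i ≠ m k) →
      (∀ k < (F.biUnion id).card, Odd k → m k ∈ F.biUnion id ∧ ∀ i < k, m i ≠ m k) ∧
      ∀ A ∈ F, ∃ k < (F.biUnion id).card, Odd k ∧ m k ∈ A := by
  classical
  set W := F.biUnion id with hW
  let z : V := Classical.arbitrary V
  let ok : List V → V → Prop := fun h y =>
    y ∈ W ∧ y ∉ evens (fun i => h.getD i z) h.length ∧ y ∉ odds (fun i => h.getD i z) h.length ∧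
      P (evens (fun i => h.getD i z) h.length) (insert y (odds (fun i => h.getD i z) h.length))
  refine ⟨fun h => if hex : ∃ y, ok h y then hex.choose else z, ?_⟩
  intro m hσ hM
  have hget : ∀ k : ℕ, ∀ i < k, (List.ofFn fun i : Fin k => m i.val).getD i z = m i := by
    intro k i hi
    simp [List.getD, hi]
  have hok : ∀ k < W.card, Odd k →
      (∃ y ∈ W, y ∉ evens m k ∧ y ∉ odds m k ∧ P (evens m k) (insert y (odds m k))) →
      m k ∈ W ∧ m k ∉ evens m k ∧ m k ∉ odds m k ∧ P (evens m k) (insert (m k) (odds m k)) := by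
    intro k hk hodd hex
    have e : ∀ y, ok (List.ofFn fun i : Fin k => m i.val) y ↔
        (y ∈ W ∧ y ∉ evens m k ∧ y ∉ odds m k ∧ P (evens m k) (insert y (odds m k))) := by
      intro y
      simp only [ok, List.length_ofFn]
      rw [evens_congr (hget k), odds_congr (hget k)]
    have hex' : ∃ y, ok (List.ofFn fun i : Fin k => m i.val) y := by
      obtain ⟨y, hy⟩ := hex
      exact ⟨y, (e y).2 hy⟩
    have := hσ k hk hodd
    simp only [dif_pos hex'] at this
    rw [this]
    exact (e _).1 hex'.choose_spec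
  -- fresh moves of the first player
  have hfresh : ∀ k < W.card, Even k → m k ∉ evens m k ∧ m k ∉ odds m k := by
    intro k hk hev
    obtain ⟨-, h2⟩ := hM k hk hev
    constructor
    · rw [mem_evens]; rintro ⟨i, h1, -, h3⟩; exact h2 i h1 h3
    · rw [mem_odds]; rintro ⟨i, h1, -, h3⟩; exact h2 i h1 h3
  have main : ∀ j : ℕ, 2 * j ≤ W.card → P (evens m (2 * j)) (odds m (2 * j)) := by
    intro j
    induction j with
    | zero => intro _; simpa [evens, odds] using h0
    | succ j ih =>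
      intro hj
      have hP := ih (by omega)
      have hev : Even (2 * j) := even_two_mul j
      have hodd : Odd (2 * j + 1) := odd_two_mul_add_one j
      obtain ⟨f1, f2⟩ := hfresh (2 * j) (by omega) hev
      have hs := (step _ _ _ hP (hM (2 * j) (by omega) hev).1 f1 f2).2
      rw [← evens_succ_even m hev, ← odds_succ_even m hev] at hs
      have := hok (2 * j + 1) (by omega) hodd (hs (exists_free W m (by omega)))
      rw [show 2 * (j + 1) = 2 * j + 1 + 1 by ring, evens_succ_odd m hodd, odds_succ_odd m hodd]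
      exact this.2.2.2
  have legal : ∀ k < W.card, Odd k → m k ∈ W ∧ ∀ i < k, m i ≠ m k := by
    intro k hk hodd
    obtain ⟨j, rfl⟩ := hodd
    have hP := main j (by omega)
    have hev : Even (2 * j) := even_two_mul j
    have hodd : Odd (2 * j + 1) := odd_two_mul_add_one j
    obtain ⟨f1, f2⟩ := hfresh (2 * j) (by omega) hev
    have hs := (step _ _ _ hP (hM (2 * j) (by omega) hev).1 f1 f2).2
    rw [← evens_succ_even m hev, ← odds_succ_even m hev] at hs
    have := hok (2 * j + 1) (by omega) hodd (hs (exists_free W m (by omega)))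
    refine ⟨this.1, fun i hi heq => ?_⟩
    rcases Nat.even_or_odd i with h | h
    · exact this.2.1 (mem_evens.2 ⟨i, hi, h, heq⟩)
    · exact this.2.2.1 (mem_odds.2 ⟨i, hi, h, heq⟩)
  refine ⟨legal, ?_⟩
  intro A hA
  by_contra hcon
  push Not at hcon
  have hall : ∀ k < W.card, m k ∈ W ∧ ∀ i < k, m i ≠ m k := by
    intro k hk
    rcases Nat.even_or_odd k with h | h
    · exact hM k hk h
    · exact legal k hk h
  have hinj : Set.InjOn m (range W.card : Set ℕ) := by
    intro a ha b hb hab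
    have ha' : a < W.card := by simpa using ha
    have hb' : b < W.card := by simpa using hb
    rcases lt_trichotomy a b with h | h | h
    · exact absurd hab ((hall b hb').2 a h)
    · exact h
    · exact absurd hab.symm ((hall a ha').2 b h)
  have himg : (range W.card).image m = W := by
    apply eq_of_subset_of_card_le
    · intro x hx
      obtain ⟨i, hi, rfl⟩ := mem_image.1 hx
      exact (hall i (mem_range.1 hi)).1
    · rw [card_image_of_injOn hinj, card_range]
  have hAW : A ⊆ W := fun x hx => mem_biUnion.2 ⟨A, hA, hx⟩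
  have hAE : A ⊆ evens m W.card := by
    intro x hx
    have := hAW hx
    rw [← himg] at this
    obtain ⟨i, hi, rfl⟩ := mem_image.1 this
    have hi' := mem_range.1 hi
    rcases Nat.even_or_odd i with h | h
    · exact mem_evens.2 ⟨i, hi', h, rfl⟩
    · exact absurd hx (hcon i hi' h)
  have hpos : 0 < W.card := card_pos.2 ((hne A hA).mono hAW)
  obtain ⟨j, hj⟩ : ∃ j, W.card = 2 * j + 1 ∨ W.card = 2 * j + 1 + 1 :=
    ⟨(W.card - 1) / 2, by omega⟩
  have hP := main j (by omega)
  have hev : Even (2 * j) := even_two_mul j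
  have hodd : Odd (2 * j + 1) := odd_two_mul_add_one j
  obtain ⟨f1, f2⟩ := hfresh (2 * j) (by omega) hev
  have hs := (step _ _ _ hP (hM (2 * j) (by omega) hev).1 f1 f2).1 A hA
  rw [← evens_succ_even m hev] at hs
  apply hs
  rcases hj with hj | hj
  · rw [← hj]; exact hAE
  · rw [← evens_succ_odd m hodd, ← hj]; exact hAE

end Pool.Agent.P.MP_d36d9e_co
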