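import Mathlib
import Pool.Agent.P.MP_d36d9e_co.Shearer
import Pool.Agent.P.MP_d36d9e_co.Strategy

/-!
The invariant kept by the second player.
-/

namespace Pool.Agent.P.MP_d36d9e_co

open Finset

variable {V : Type*} [DecidableEq V]

/-- two edges are dependent when both meet an edge through a common point -/
def adjF (F : Finset (Finset V)) (f f' : Finset V) : Prop :=
  ∃ v, ∃ e ∈ F, ∃ e' ∈ F, v ∈ e ∧ v ∈ e' ∧ (∃ a ∈ e, a ∈ f) ∧ (∃ a ∈ e', a ∈ f')

lemma adjF_symm (F : Finset (Finset V)) (f f' : Finset V) (h : adjF F f f') : adjF F f' f := by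
  obtain ⟨v, e, he, e', he', h1, h2, h3, h4⟩ := h
  exact ⟨v, e', he', e, he, h2, h1, h4, h3⟩

/-- edges meeting a set of points -/
def meet (F : Finset (Finset V)) (S : Finset V) : Finset (Finset V) :=
  F.filter fun e => ∃ a ∈ e, a ∈ S

lemma card_meet (F : Finset (Finset V)) (d : ℝ)
    (hd : ∀ x, ((F.filter fun e => x ∈ e).card : ℝ) ≤ d) (S : Finset V) :
    ((meet F S).card : ℝ) ≤ S.card * d := by
  have h1 : meet F S ⊆ S.biUnion fun x => F.filter fun e => x ∈ e := by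
    intro e he
    obtain ⟨h1, a, h2, h3⟩ := mem_filter.1 he
    exact mem_biUnion.2 ⟨a, h3, mem_filter.2 ⟨h1, h2⟩⟩
  have h2 := (card_le_card h1).trans card_biUnion_le
  have h3 : ((meet F S).card : ℝ) ≤ ∑ x ∈ S, ((F.filter fun e => x ∈ e).card : ℝ) := by
    exact_mod_cast h2
  refine h3.trans ?_
  have := sum_le_card_nsmul S _ d fun x _ => hd x
  simpa using this

lemma card_pts (F : Finset (Finset V)) (n : ℕ) (hn : ∀ A ∈ F, A.card = n) (S : Finset V) :
    (((meet F S).biUnion id).card : ℝ) ≤ (meet F S).card * n := by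
  have h2 : ((meet F S).biUnion id).card ≤ ∑ e ∈ meet F S, (id e).card := card_biUnion_le
  have h3 : ∑ e ∈ meet F S, (id e).card = (meet F S).card * n := by
    exact sum_const_nat fun e he => hn e (mem_filter.1 he).1
  rw [h3] at h2
  exact_mod_cast h2

open Classical in
lemma card_adjF (F : Finset (Finset V)) (n : ℕ) (d : ℝ) (hd0 : 0 ≤ d)
    (hn : ∀ A ∈ F, A.card = n)
    (hd : ∀ x, ((F.filter fun e => x ∈ e).card : ℝ) ≤ d) (f : Finset V) (hf : f ∈ F) :
    ((F.filter fun b => adjF F f b).card : ℝ) ≤ (n * d) ^ 3 := by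
  have h1 : (F.filter fun b => adjF F f b) ⊆
      meet F ((meet F ((meet F f).biUnion id)).biUnion id) := by
    intro b hb
    obtain ⟨hbF, v, e, he, e', he', h1, h2, h3, a, h4, h5⟩ := mem_filter.1 hb
    refine mem_filter.2 ⟨hbF, a, h5, mem_biUnion.2 ⟨e', ?_, h4⟩⟩
    refine mem_filter.2 ⟨he', v, h2, mem_biUnion.2 ⟨e, ?_, h1⟩⟩
    exact mem_filter.2 ⟨he, h3⟩
  have h2 : ((F.filter fun b => adjF F f b).card : ℝ) ≤
      (meet F ((meet F ((meet F f).biUnion id)).biUnion id)).card := by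
    exact_mod_cast card_le_card h1
  have a1 := card_meet F d hd f
  rw [hn f hf] at a1
  have a2 := card_pts F n hn f
  have a3 := card_meet F d hd ((meet F f).biUnion id)
  have a4 := card_pts F n hn ((meet F f).biUnion id)
  have a5 := card_meet F d hd ((meet F ((meet F f).biUnion id)).biUnion id)
  have hn0 : (0 : ℝ) ≤ n := Nat.cast_nonneg n
  have b2 := a2.trans (mul_le_mul_of_nonneg_right a1 hn0)
  have b3 := a3.trans (mul_le_mul_of_nonneg_right b2 hd0)
  have b4 := a4.trans (mul_le_mul_of_nonneg_right b3 hn0)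
  have b5 := a5.trans (mul_le_mul_of_nonneg_right b4 hd0)
  refine h2.trans (b5.trans (le_of_eq ?_))
  ring

/-- the weight of an edge -/
noncomputable def om (d ε : ℝ) (H : V → ℝ) (M f : Finset V) : ℝ :=
  (1 / d) * ∏ v ∈ f ∩ M, (1 + ε / H v)

lemma om_nonneg {d ε : ℝ} (hd : 0 < d) (hε : 0 < ε) {H : V → ℝ} (hH : ∀ v, 1 ≤ H v)
    (M f : Finset V) : 0 ≤ om d ε H M f := by
  unfold om
  refine mul_nonneg (by positivity) (prod_nonneg fun v _ => ?_)
  have := hH v
  positivity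

lemma om_insert {d ε : ℝ} {H H' : V → ℝ} {M : Finset V} {v : V} (hv : v ∉ M)
    (hH : ∀ u ∈ insert v M, H' u = H u) (f : Finset V) :
    om d ε H' (insert v M) f =
      om d ε H M f + if v ∈ f then ε * (om d ε H M f / H v) else 0 := by
  unfold om
  split_ifs with h
  · have e : f ∩ insert v M = insert v (f ∩ M) := by
      rw [inter_comm, insert_inter_of_mem h, inter_comm]
    have hn : v ∉ f ∩ M := fun h => hv (mem_inter.1 h).2
    rw [e, prod_insert hn, hH v (mem_insert_self _ _)]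
    rw [prod_congr rfl (g := fun u => 1 + ε / H u) fun u hu => by
      rw [hH u (mem_insert_of_mem (mem_inter.1 hu).2)]]
    ring
  · have e : f ∩ insert v M = f ∩ M := by
      rw [inter_comm, insert_inter_of_notMem h, inter_comm]
    rw [e, prod_congr rfl (g := fun u => 1 + ε / H u) fun u hu => by
      rw [hH u (mem_insert_of_mem (mem_inter.1 hu).2)]]
    ring

lemma factor_ge {ε t : ℝ} (hε : 0 < ε) (hε1 : ε ≤ 1) (ht : 1 ≤ t) :
    Real.exp (ε * (5 - t) / 9) ≤ 1 + ε / t := by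
  have ht0 : 0 < t := by linarith
  have h1 : ε * (5 - t) / 9 ≤ ε / (t + ε) := by
    rw [div_le_div_iff₀ (by norm_num) (by linarith)]
    have h2 : (5 - t) * (t + ε) ≤ 9 := by
      by_cases h5 : t ≤ 5
      · nlinarith [sq_nonneg (t - 2), mul_nonneg (sub_nonneg.2 h5) (sub_nonneg.2 hε1)]
      · nlinarith
    nlinarith
  refine (Real.exp_le_exp.2 h1).trans ?_
  have h3 := Real.add_one_le_exp (-(ε / (t + ε)))
  have h4 : -(ε / (t + ε)) + 1 = t / (t + ε) := by field_simp; ring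
  rw [h4, Real.exp_neg] at h3
  have h5 : 0 < Real.exp (ε / (t + ε)) := Real.exp_pos _
  have h6 : 1 + ε / t = (t / (t + ε))⁻¹ := by field_simp
  rw [h6]
  exact (le_inv_comm₀ h5 (by positivity)).2 h3

/-- the invariant -/
def Inv (F : Finset (Finset V)) (n : ℕ) (d ε : ℝ) (M B : Finset V) : Prop :=
  Disjoint M B ∧ (∀ A ∈ F, ¬ A ⊆ M) ∧ ∃ H : V → ℝ, (∀ v, 1 ≤ H v) ∧
    (∀ w, w ∉ M → ∑ f ∈ F.filter (fun f => w ∈ f ∧ Disjoint f B), om d ε H M f ≤ H w) ∧
    ∃ x : Finset V → ℝ, (∀ f, 0 ≤ x f) ∧ Good (adjF F) x F ∧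
      ∀ f ∈ F, Disjoint f B → Real.exp ((∑ v ∈ f, H v - 2 * n) / (ε * n)) ≤ x f

lemma inv_init (F : Finset (Finset V)) (n : ℕ) (d ε : ℝ) (hn1 : 1 ≤ n) (hd1 : 1 ≤ d)
    (hε : 0 < ε) (hn : ∀ A ∈ F, A.card = n)
    (hd : ∀ x, ((F.filter fun e => x ∈ e).card : ℝ) ≤ d)
    (h1 : 4 * (n * d) ^ 3 ≤ Real.exp (1 / ε)) : Inv F n d ε ∅ ∅ := by
  have hn1' : (1 : ℝ) ≤ n := by exact_mod_cast hn1
  have hΔ : (1 : ℝ) ≤ (n * d) ^ 3 := one_le_pow₀ (by nlinarith)
  refine ⟨by simp, ?_, fun _ => 1, fun _ => le_rfl, ?_, fun _ => 1 / (4 * (n * d) ^ 3), ?_, ?_, ?_⟩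
  · intro A hA h
    have := hn A hA
    rw [subset_empty.1 h] at this
    simp at this; omega
  · intro w _
    simp only [om, inter_empty, prod_empty, mul_one, disjoint_empty_right, and_true, sum_const,
      nsmul_eq_mul]
    have := hd w
    rw [mul_one_div, div_le_one (by linarith)]
    exact this
  · intro f; positivity
  · exact good_const (adjF_symm F) F _ hΔ fun a ha => card_adjF F n d (by linarith) hn hd a ha
  · intro f hf _
    simp only [sum_const, nsmul_eq_mul, mul_one, hn f hf]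
    have e : ((n : ℝ) - 2 * n) / (ε * n) = -(1 / ε) := by field_simp; ring
    rw [e, Real.exp_neg, ← one_div]
    exact one_div_le_one_div_of_le (by positivity) h1

lemma inv_safe (F : Finset (Finset V)) (n : ℕ) (d ε : ℝ) (hn1 : 1 ≤ n) (hd1 : 1 ≤ d)
    (hε : 0 < ε) (hε1 : ε ≤ 1) (hn : ∀ A ∈ F, A.card = n)
    (h2 : 2 * n * d ≤ Real.exp (ε * (3 * n - 4) / 9)) {M B : Finset V} {v : V}
    (h : Inv F n d ε M B) (hvM : v ∉ M) (hvB : v ∉ B) : ∀ A ∈ F, ¬ A ⊆ insert v M := by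
  intro A hA hsub
  obtain ⟨hdis, hno, H, hH, h3, x, hx, hgood, hxf⟩ := h
  have hn1' : (1 : ℝ) ≤ n := by exact_mod_cast hn1
  have hvA : v ∈ A := by
    by_contra hc
    exact hno A hA fun a ha => (mem_insert.1 (hsub ha)).resolve_left fun h => hc (h ▸ ha)
  have hAB : Disjoint A B := by
    rw [disjoint_left]
    intro a ha haB
    rcases mem_insert.1 (hsub ha) with rfl | h
    · exact hvB haB
    · exact disjoint_left.1 hdis h haB
  have hE : ∑ u ∈ A, H u < 2 * n := by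
    have a1 := lt_of_le_of_lt (hxf A hA hAB) (hgood.lt_one (adjF_symm F) hA)
    rw [Real.exp_lt_one_iff, div_neg_iff] at a1
    have : 0 < ε * n := by positivity
    rcases a1 with a1 | a1
    · linarith [a1.2]
    · linarith [a1.1]
  have hom : om d ε H M A ≤ H v := by
    refine le_trans ?_ (h3 v hvM)
    exact single_le_sum (f := fun f => om d ε H M f)
      (fun f _ => om_nonneg (by linarith) hε hH M f) (mem_filter.2 ⟨hA, hvA, hAB⟩)
  have e : A ∩ M = A.erase v := by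
    ext a; simp only [mem_inter, mem_erase]
    constructor
    · rintro ⟨h1, h2⟩; exact ⟨fun h => hvM (h ▸ h2), h1⟩
    · rintro ⟨h1, h2⟩; exact ⟨h2, (mem_insert.1 (hsub h2)).resolve_left h1⟩
  have hsum : ∑ u ∈ A.erase v, H u + H v = ∑ u ∈ A, H u := sum_erase_add _ _ hvA
  have hpos : 0 ≤ ∑ u ∈ A.erase v, H u := sum_nonneg fun u _ => by linarith [hH u]
  have hcard : ((A.erase v).card : ℝ) = n - 1 := by
    rw [card_erase_of_mem hvA, hn A hA, Nat.cast_sub hn1]; simp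
  have hprod : Real.exp (ε * (3 * n - 4) / 9) ≤ ∏ u ∈ A.erase v, (1 + ε / H u) := by
    have b1 : ∏ u ∈ A.erase v, Real.exp (ε * (5 - H u) / 9) ≤ ∏ u ∈ A.erase v, (1 + ε / H u) :=
      prod_le_prod (fun u _ => (Real.exp_pos _).le) fun u _ => factor_ge hε hε1 (hH u)
    refine le_trans ?_ b1
    rw [← Real.exp_sum, Real.exp_le_exp, ← sum_div, ← mul_sum, sum_sub_distrib, sum_const,
      nsmul_eq_mul, hcard]
    have := hH v
    have b2 : 3 * (n : ℝ) - 4 ≤ (n - 1) * 5 - ∑ u ∈ A.erase v, H u := by linarith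
    have := mul_le_mul_of_nonneg_left b2 hε.le
    linarith
  have hlow : 2 * (n : ℝ) ≤ om d ε H M A := by
    unfold om
    rw [e, one_div_mul_eq_div, le_div_iff₀ (by linarith)]
    exact h2.trans hprod
  linarith

/-- averaging over the reply -/
lemma average {W : Finset V} {C : Finset (Finset V)} (hC : ∀ f ∈ C, f ⊆ W) (p : V → ℝ)
    (hp : ∀ z, 0 ≤ p z) (hp1 : ∑ z ∈ W, p z ≤ 1) (a : Finset V → ℝ) (ha : ∀ f, 0 ≤ a f)
    (hlt : ∑ f ∈ C, a f < 1) :
    (∃ z ∈ W, 0 < p z ∧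
      ∑ f ∈ C, (if z ∈ f then 0 else a f * Real.exp (∑ u ∈ f, p u)) < 1) ∨
    ∑ f ∈ C, a f * Real.exp (∑ u ∈ f, p u) < 1 := by
  by_contra hcon
  rw [not_or] at hcon
  obtain ⟨h1, h2⟩ := hcon
  push Not at h1 h2
  have k1 : ∑ z ∈ W, p z ≤
      ∑ z ∈ W, p z * ∑ f ∈ C, (if z ∈ f then 0 else a f * Real.exp (∑ u ∈ f, p u)) := by
    refine sum_le_sum fun z hz => ?_
    rcases (hp z).eq_or_lt with h | h
    · rw [← h]; simp
    · have := h1 z hz h
      nlinarith
  have k2 : 1 - ∑ z ∈ W, p z ≤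
      (1 - ∑ z ∈ W, p z) * ∑ f ∈ C, a f * Real.exp (∑ u ∈ f, p u) := by
    nlinarith
  have k3 : ∑ z ∈ W, p z * ∑ f ∈ C, (if z ∈ f then 0 else a f * Real.exp (∑ u ∈ f, p u)) =
      ∑ f ∈ C, (∑ z ∈ W, p z - ∑ u ∈ f, p u) * (a f * Real.exp (∑ u ∈ f, p u)) := by
    simp only [mul_sum]
    rw [sum_comm]
    refine sum_congr rfl fun f hf => ?_
    rw [← sum_sdiff (hC f hf), ← sum_sdiff (hC f hf), add_sub_cancel_right, sum_mul]
    have z1 : ∑ z ∈ f, p z * (if z ∈ f then 0 else a f * Real.exp (∑ u ∈ f, p u)) = 0 :=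
      sum_eq_zero fun z hz => by simp [hz]
    rw [z1, add_zero]
    exact sum_congr rfl fun z hz => by simp [(mem_sdiff.1 hz).2]
  have k4 : ∑ f ∈ C, (∑ z ∈ W, p z - ∑ u ∈ f, p u) * (a f * Real.exp (∑ u ∈ f, p u)) +
      (1 - ∑ z ∈ W, p z) * ∑ f ∈ C, a f * Real.exp (∑ u ∈ f, p u) ≤ ∑ f ∈ C, a f := by
    rw [mul_sum, ← sum_add_distrib]
    refine sum_le_sum fun f _ => ?_
    set h := ∑ u ∈ f, p u
    have e1 := Real.add_one_le_exp (-h)
    have e2 : Real.exp (-h) * Real.exp h = 1 := by rw [← Real.exp_add]; simp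
    have e3 : (1 - h) * Real.exp h ≤ 1 := by
      have := mul_le_mul_of_nonneg_right e1 (Real.exp_pos h).le
      linarith
    have := mul_le_mul_of_nonneg_left e3 (ha f)
    nlinarith
  linarith

theorem inv_step (F : Finset (Finset V)) (n : ℕ) (d ε : ℝ) (hn1 : 1 ≤ n) (hd1 : 1 ≤ d)
    (hε : 0 < ε) (hn : ∀ A ∈ F, A.card = n) {M B : Finset V} {v : V}
    (h : Inv F n d ε M B) (hvM : v ∉ M) (hvB : v ∉ B) (hsafe : ∀ A ∈ F, ¬ A ⊆ insert v M)
    (hfree : ∃ y ∈ F.biUnion id, y ∉ insert v M ∧ y ∉ B) :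
    ∃ y ∈ F.biUnion id, y ∉ insert v M ∧ y ∉ B ∧ Inv F n d ε (insert v M) (insert y B) := by
  classical
  obtain ⟨hdis, -, H, hH, h3, x, hx, hgood, hxf⟩ := h
  have hn0 : (0 : ℝ) < n := by exact_mod_cast hn1
  have hd0 : 0 < d := by linarith
  have hHv : 0 < H v := by linarith [hH v]
  set W := F.biUnion id with hW
  have hFW : ∀ f ∈ F, f ⊆ W := fun f hf a ha => mem_biUnion.2 ⟨f, hf, ha⟩
  -- the increments
  set q : V → ℝ := fun z => if z ∈ insert v M then 0 else
    ∑ e ∈ F.filter (fun e => v ∈ e ∧ Disjoint e B), if z ∈ e then om d ε H M e / H v else 0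
    with hq
  have hom : ∀ e, 0 ≤ om d ε H M e / H v := fun e => div_nonneg (om_nonneg hd0 hε hH M e) hHv.le
  have hin : ∀ z, 0 ≤ ∑ e ∈ F.filter (fun e => v ∈ e ∧ Disjoint e B),
      if z ∈ e then om d ε H M e / H v else 0 :=
    fun z => sum_nonneg fun e _ => by split_ifs; exacts [hom e, le_rfl]
  have hq0 : ∀ z, 0 ≤ q z := by
    intro z; simp only [hq]; split_ifs; exacts [le_rfl, hin z]
  have hqne : ∀ z, q z ≠ 0 → z ∉ insert v M ∧ ∃ e ∈ F, v ∈ e ∧ Disjoint e B ∧ z ∈ e := by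
    intro z hz
    simp only [hq] at hz
    split_ifs at hz with h
    · exact absurd rfl hz
    · refine ⟨h, ?_⟩
      obtain ⟨e, he, hne⟩ := exists_ne_zero_of_sum_ne_zero hz
      obtain ⟨h1, h2, h3⟩ := mem_filter.1 he
      refine ⟨e, h1, h2, h3, ?_⟩
      by_contra hc
      simp [hc] at hne
  have hqsum : ∑ z ∈ W, q z ≤ n := by
    have s1 : ∑ z ∈ W, q z ≤ ∑ z ∈ W, ∑ e ∈ F.filter (fun e => v ∈ e ∧ Disjoint e B),
        if z ∈ e then om d ε H M e / H v else 0 := by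
      refine sum_le_sum fun z _ => ?_
      simp only [hq]; split_ifs; exacts [hin z, le_rfl]
    rw [sum_comm] at s1
    have s2 : ∑ e ∈ F.filter (fun e => v ∈ e ∧ Disjoint e B), ∑ z ∈ W,
        (if z ∈ e then om d ε H M e / H v else 0) =
        ∑ e ∈ F.filter (fun e => v ∈ e ∧ Disjoint e B), (n : ℝ) * (om d ε H M e / H v) := by
      refine sum_congr rfl fun e he => ?_
      have heF := (mem_filter.1 he).1
      rw [sum_ite_mem, inter_eq_right.2 (hFW e heF), sum_const, hn e heF, nsmul_eq_mul]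
    rw [s2, ← mul_sum, ← sum_div] at s1
    have s3 : (∑ e ∈ F.filter (fun e => v ∈ e ∧ Disjoint e B), om d ε H M e) / H v ≤ 1 := by
      rw [div_le_one hHv]; exact h3 v hvM
    nlinarith
  set p : V → ℝ := fun z => q z / n with hp
  have hp0 : ∀ z, 0 ≤ p z := fun z => div_nonneg (hq0 z) hn0.le
  have hp1 : ∑ z ∈ W, p z ≤ 1 := by
    simp only [hp]; rw [← sum_div, div_le_one hn0]; exact hqsum
  set C := F.filter (fun f => ∃ e ∈ F, v ∈ e ∧ ∃ a ∈ e, a ∈ f) with hC
  have hCF : C ⊆ F := filter_subset _ _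
  have hclique : ∀ a ∈ C, ∀ b ∈ C, a ≠ b → adjF F a b := by
    intro a ha b hb _
    obtain ⟨-, e, he, h1, h2⟩ := mem_filter.1 ha
    obtain ⟨-, e', he', h1', h2'⟩ := mem_filter.1 hb
    exact ⟨v, e, he, e', he', h1, h1', h2, h2'⟩
  obtain ⟨β, hβ0, hβ1, hβ⟩ := clique_halfspace (adjF_symm F) hx hgood hCF hclique
  have hav := average (fun f hf => hFW f (hCF hf)) p hp0 hp1 (fun f => x f * β f)
    (fun f => mul_nonneg (hx f) (hβ0 f)) hβ1
  -- the reply
  obtain ⟨y, hyW, hyM, hyB, hy⟩ : ∃ y ∈ W, y ∉ insert v M ∧ y ∉ B ∧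
      ∑ f ∈ C, (if y ∈ f then 0 else x f * β f * Real.exp (∑ u ∈ f, p u)) < 1 := by
    rcases hav with ⟨z, hz, hpz, hlt⟩ | hlt
    · have : q z ≠ 0 := by
        intro h0; simp only [hp, h0, zero_div, lt_self_iff_false] at hpz
      obtain ⟨h1, e, -, -, h2, h3⟩ := hqne z this
      exact ⟨z, hz, h1, disjoint_left.1 h2 h3, hlt⟩
    · obtain ⟨y, h1, h2, h3⟩ := hfree
      refine ⟨y, h1, h2, h3, lt_of_le_of_lt (sum_le_sum fun f _ => ?_) hlt⟩
      split_ifs
      · exact mul_nonneg (mul_nonneg (hx f) (hβ0 f)) (Real.exp_pos _).le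
      · exact le_rfl
  refine ⟨y, hyW, hyM, hyB, ?_, hsafe, fun z => H z + ε * q z, ?_, ?_,
    fun f => if f ∈ C then (if y ∈ f then 0 else x f * Real.exp (∑ u ∈ f, p u)) else x f,
    ?_, ?_, ?_⟩
  · rw [disjoint_insert_right, disjoint_insert_left]
    exact ⟨hyM, hvB, hdis⟩
  · intro z
    have := mul_nonneg hε.le (hq0 z)
    have := hH z
    linarith
  · intro w hw
    have hwM : w ∉ M := fun h => hw (mem_insert_of_mem h)
    have hfix : ∀ u ∈ insert v M, H u + ε * q u = H u := by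
      intro u hu; simp only [hq, if_pos hu]; ring
    have hH' : ∀ z, 1 ≤ H z + ε * q z := by
      intro z
      have := mul_nonneg hε.le (hq0 z)
      have := hH z
      linarith
    have t1 : ∑ f ∈ F.filter (fun f => w ∈ f ∧ Disjoint f (insert y B)),
          om d ε (fun z => H z + ε * q z) (insert v M) f ≤
        ∑ f ∈ F.filter (fun f => w ∈ f ∧ Disjoint f B),
          om d ε (fun z => H z + ε * q z) (insert v M) f := by
      refine sum_le_sum_of_subset_of_nonneg ?_ fun f _ _ => om_nonneg hd0 hε hH' _ _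
      intro f hf
      obtain ⟨h1, h2, h3⟩ := mem_filter.1 hf
      exact mem_filter.2 ⟨h1, h2, (disjoint_insert_right.1 h3).2⟩
    refine t1.trans ?_
    rw [sum_congr rfl fun f _ => om_insert hvM hfix f, sum_add_distrib]
    have t2 : ∑ f ∈ F.filter (fun f => w ∈ f ∧ Disjoint f B),
        (if v ∈ f then ε * (om d ε H M f / H v) else 0) = ε * q w := by
      simp only [hq, if_neg hw]
      rw [mul_sum, sum_filter, sum_filter]
      refine sum_congr rfl fun f _ => ?_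
      by_cases a1 : v ∈ f <;> by_cases a2 : w ∈ f <;> by_cases a3 : Disjoint f B <;>
        simp [a1, a2, a3]
    rw [t2]
    have := h3 w hwM
    linarith
  · intro f
    dsimp only
    split_ifs
    · exact le_rfl
    · exact mul_nonneg (hx f) (Real.exp_pos _).le
    · exact hx f
  · apply hβ
    · intro f
      split_ifs
      · exact le_rfl
      · exact mul_nonneg (hx f) (Real.exp_pos _).le
      · exact hx f
    · intro f hf; simp only [if_neg hf]
    · refine lt_of_le_of_lt (le_of_eq (sum_congr rfl fun f hf => ?_)) hy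
      simp only [if_pos hf]
      split_ifs
      · simp
      · ring
  · intro f hf hfB
    obtain ⟨hyf, hfB'⟩ := disjoint_insert_right.1 hfB
    have hold := hxf f hf hfB'
    have esum : (∑ u ∈ f, (H u + ε * q u) - 2 * n) / (ε * n) =
        (∑ u ∈ f, H u - 2 * n) / (ε * n) + ∑ u ∈ f, p u := by
      simp only [hp]
      rw [sum_add_distrib, ← mul_sum, ← sum_div]
      field_simp
      ring
    dsimp only
    rw [esum, Real.exp_add]
    by_cases hfC : f ∈ C
    · rw [if_pos hfC, if_neg hyf]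
      exact mul_le_mul_of_nonneg_right hold (Real.exp_pos _).le
    · rw [if_neg hfC]
      have : ∑ u ∈ f, p u = 0 := by
        refine sum_eq_zero fun u hu => ?_
        by_contra hc
        have : q u ≠ 0 := by
          intro h0; simp only [hp, h0, zero_div, not_true_eq_false] at hc
        obtain ⟨-, e, he, h1, -, h2⟩ := hqne u this
        exact hfC (mem_filter.2 ⟨hf, e, he, h1, u, h2, hu⟩)
      rw [this, Real.exp_zero, mul_one]
      exact hold

theorem second_player [Nonempty V] (F : Finset (Finset V)) (n : ℕ) (d ε : ℝ) (hn1 : 1 ≤ n)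
    (hd1 : 1 ≤ d) (hε : 0 < ε) (hε1 : ε ≤ 1) (hn : ∀ A ∈ F, A.card = n)
    (hd : ∀ x, ((F.filter fun e => x ∈ e).card : ℝ) ≤ d)
    (h1 : 4 * (n * d) ^ 3 ≤ Real.exp (1 / ε))
    (h2 : 2 * n * d ≤ Real.exp (ε * (3 * n - 4) / 9)) :
    ∃ σ : List V → V, ∀ m : ℕ → V,
      (∀ k < (F.biUnion id).card, Odd k → m k = σ (List.ofFn fun i : Fin k => m i.val)) →
      (∀ k < (F.biUnion id).card, Even k → m k ∈ F.biUnion id ∧ ∀ i < k, m i ≠ m k) →
      (∀ k < (F.biUnion id).card, Odd k → m k ∈ F.biUnion id ∧ ∀ i < k, m i ≠ m k) ∧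
      ∀ A ∈ F, ∃ k < (F.biUnion id).card, Odd k ∧ m k ∈ A := by
  refine strategy_of_invariant F (fun A hA => card_pos.1 (by rw [hn A hA]; omega))
    (Inv F n d ε) (inv_init F n d ε hn1 hd1 hε hn hd h1) ?_
  intro M B x hP _ hxM hxB
  have hs := inv_safe F n d ε hn1 hd1 hε hε1 hn h2 hP hxM hxB
  exact ⟨hs, inv_step F n d ε hn1 hd1 hε hn hP hxM hxB hs⟩

end Pool.Agent.P.MP_d36d9e_co
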