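import Mathlib
import Pool.Agent.P.MP_d36d9e_co.Core

namespace Pool.Agent.P.MP_d36d9e_co.OldSqrt

open Finset

/-- There is `c > 0` such that in every `n`-uniform hypergraph of maximum degree less than
`2 ^ (sqrt n / 3 - c)` the second player has a Strong Draw.  A play is a sequence `m` of points,
the first player making the moves of even index and the second player those of odd index, until
all points of the board are claimed; the strategy maps the list of earlier moves to a move. -/
theorem result :
    ∃ c : ℝ, 0 < c ∧ ∀ n : ℕ, 1 ≤ n →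
      ∀ (V : Type) [DecidableEq V] [Nonempty V] (F : Finset (Finset V)),
        (∀ A ∈ F, A.card = n) →
        (∀ x : V, ((F.filter fun A => x ∈ A).card : ℝ) < (2 : ℝ) ^ (Real.sqrt n / 3 - c)) →
        ∃ σ : List V → V, ∀ m : ℕ → V,
          (∀ k < (F.biUnion id).card, Odd k → m k = σ (List.ofFn fun i : Fin k => m i.val)) →
          (∀ k < (F.biUnion id).card, Even k → m k ∈ F.biUnion id ∧ ∀ i < k, m i ≠ m k) →
          (∀ k < (F.biUnion id).card, Odd k → m k ∈ F.biUnion id ∧ ∀ i < k, m i ≠ m k) ∧
          ∀ A ∈ F, ∃ k < (F.biUnion id).card, Odd k ∧ m k ∈ A := by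
  refine ⟨600, by norm_num, ?_⟩
  intro n hn1 V _ _ F hn hd
  have hn1' : (1 : ℝ) ≤ n := by exact_mod_cast hn1
  set s := Real.sqrt n with hs
  have hss : s * s = n := Real.mul_self_sqrt (by linarith)
  have hs0 : 0 < s := Real.sqrt_pos.2 (by linarith)
  by_cases hbig : s ≤ 1800
  · have hF : F = ∅ := by
      by_contra hne
      obtain ⟨A, hA⟩ := nonempty_iff_ne_empty.2 hne
      obtain ⟨x, hx⟩ : A.Nonempty := card_pos.1 (by rw [hn A hA]; omega)
      have h1 : (1 : ℝ) ≤ (F.filter fun A => x ∈ A).card := by
        exact_mod_cast card_pos.2 ⟨A, mem_filter.2 ⟨hA, hx⟩⟩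
      have h2 : (2 : ℝ) ^ (s / 3 - 600) ≤ 1 :=
        Real.rpow_le_one_of_one_le_of_nonpos (by norm_num) (by linarith)
      linarith [hd x]
    subst hF
    exact ⟨fun _ => Classical.arbitrary V, fun m _ _ => by simp⟩
  · push Not at hbig
    have key : 6 * (n : ℝ) ≤ Real.exp (s / 12) := by
      have h1 := Real.pow_div_factorial_le_exp (s / 12) (by positivity) 4
      have h2 : ((Nat.factorial 4 : ℕ) : ℝ) = 24 := by norm_num [Nat.factorial]
      rw [h2] at h1
      refine le_trans ?_ h1
      rw [← hss]
      have h3 : 1800 * 1800 ≤ s * s := by nlinarith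
      have h4 : (s / 12) ^ 4 / 24 = (s * s) * ((s * s) / 497664) := by ring
      rw [h4]
      have h5 : 6 ≤ (s * s) / 497664 := by rw [le_div_iff₀ (by norm_num)]; linarith
      nlinarith
    have hdeg : ∀ x : V, ((F.filter fun A => x ∈ A).card : ℝ) ≤ Real.exp (s / 4) := by
      intro x
      refine (hd x).le.trans ?_
      rw [Real.rpow_def_of_pos (by norm_num), Real.exp_le_exp]
      have := Real.log_two_lt_d9
      have := Real.log_pos (show (1 : ℝ) < 2 by norm_num)
      nlinarith
    refine Pool.Agent.P.MP_d36d9e_co.second_player F n (Real.exp (s / 4)) (1 / s) hn1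
      (Real.one_le_exp (by positivity)) (by positivity) ?_ hn hdeg ?_ ?_
    · rw [div_le_one hs0]; linarith
    · rw [one_div_one_div]
      have e1 : Real.exp s = (Real.exp (s / 12) * Real.exp (s / 4)) ^ 3 := by
        rw [← Real.exp_add, ← Real.exp_nat_mul]; congr 1; push_cast; ring
      have h1 : (6 * n * Real.exp (s / 4)) ^ 3 ≤ (Real.exp (s / 12) * Real.exp (s / 4)) ^ 3 :=
        pow_le_pow_left₀ (by positivity)
          (mul_le_mul_of_nonneg_right key (Real.exp_pos _).le) 3
      rw [e1]
      refine le_trans ?_ h1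
      have : 0 ≤ ((n : ℝ) * Real.exp (s / 4)) ^ 3 := by positivity
      nlinarith
    · have e1 : 1 / s * (3 * n - 4) / 9 = s / 12 + s / 4 + -(4 / (9 * s)) := by
        rw [← hss]; field_simp; ring
      rw [e1, Real.exp_add, Real.exp_add]
      have h1 := Real.add_one_le_exp (-(4 / (9 * s)))
      have h2 : 4 / (9 * s) ≤ 1 / 2 := by
        rw [div_le_div_iff₀ (by positivity) (by norm_num)]; linarith
      have h3 : 1 / 2 ≤ Real.exp (-(4 / (9 * s))) := by linarith
      have h4 := Real.exp_pos (s / 4)
      have h5 := Real.exp_pos (s / 12)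
      have h6 : 6 * n * Real.exp (s / 4) ≤ Real.exp (s / 12) * Real.exp (s / 4) :=
        mul_le_mul_of_nonneg_right key h4.le
      have h7 := mul_le_mul_of_nonneg_left h3 (mul_pos h5 h4).le
      have : 0 ≤ (n : ℝ) * Real.exp (s / 4) := by positivity
      nlinarith

end Pool.Agent.P.MP_d36d9e_co.OldSqrt
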