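import Mathlib

/-!
Multi-scale boards: parameters and ownership maps.
-/

namespace Pool.Agent.P.MP_d36d9e_co.X

open Finset

/-- geometric and numerical data of the multi-scale strategy -/
structure Par (V : Type) [Fintype V] [DecidableEq V] where
  d : V → V → ℕ
  lam : ℕ → ℕ
  h : ℕ
  v0 : V
  m : ℕ
  T : ℕ → V → Finset (Finset V)
  N : ℕ → ℝ
  S : ℕ → ℝ
  th : ℕ → ℝ
  d_self : ∀ x, d x x = 0
  d_eq : ∀ x y, d x y = 0 → x = y
  d_comm : ∀ x y, d x y = d y x
  d_tri : ∀ x y z, d x z ≤ d x y + d y z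
  diam : ∀ x y, d x y ≤ lam h
  lam0 : lam 0 = 0
  lam_succ : ∀ j, 6 * lam j ≤ lam (j + 1)
  T_near : ∀ j u, ∀ ω ∈ T j u, ∀ v ∈ ω, d u v + 6 * lam j ≤ lam (j + 1)
  T_sep : ∀ j u, ∀ ω ∈ T j u, ∀ v ∈ ω, ∀ w ∈ ω, v ≠ w → 2 * lam j < d v w
  T_card : ∀ j u, ((T j u).card : ℝ) ≤ N j
  T_full : ∀ j, 1 ≤ j → ∀ u (ω : Finset V), ω.card = m + 1 → (∀ v ∈ ω, d u v ≤ 6 * lam j) →
    (∀ v ∈ ω, ∀ w ∈ ω, v ≠ w → 2 * lam j < d v w) → ω ∈ T j u
  S_ball : ∀ j c, ((univ.filter fun u => d c u ≤ 4 * lam j).card : ℝ) ≤ S j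
  th_one : ∀ j, 1 ≤ th j
  m_pos : 1 ≤ m
  h_pos : 1 ≤ h
  cond : ∀ j, 1 ≤ j →
    N j ^ (2 * m) * 2 ^ (2 * m * m) * (2 * S (j + 1)) ^ m * (2 * th (j + 1)) < th j ^ (m + 1)

variable {V : Type} [Fintype V] [DecidableEq V]

namespace Par

variable (P : Par V)

/-- the oldest centre of the list within distance `r` -/
def fnd (l : List V) (r : ℕ) (x : V) : Option V := l.find? (fun c => decide (P.d x c ≤ r))

lemma fnd_some {l : List V} {r : ℕ} {x c : V} (h : P.fnd l r x = some c) :
    c ∈ l ∧ P.d x c ≤ r := by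
  unfold fnd at h
  exact ⟨List.mem_of_find?_eq_some h, by simpa using List.find?_some h⟩

lemma fnd_none {l : List V} {r : ℕ} {x : V} :
    P.fnd l r x = none ↔ ∀ c ∈ l, r < P.d x c := by
  unfold fnd
  simp [List.find?_eq_none]

lemma fnd_append_some {l : List V} {r : ℕ} {x c c' : V} (h : P.fnd l r x = some c) :
    P.fnd (l ++ [c']) r x = some c := by
  unfold fnd at h ⊢
  rw [List.find?_append, h]; rfl

lemma fnd_append_far {l : List V} {r : ℕ} {x c' : V} (h : r < P.d x c') :
    P.fnd (l ++ [c']) r x = P.fnd l r x := by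
  unfold fnd
  rw [List.find?_append]
  have : List.find? (fun c => decide (P.d x c ≤ r)) [c'] = none := by
    simp [List.find?_eq_none, h]
  rw [this]; simp

lemma fnd_append_ne {l : List V} {r : ℕ} {x c c' : V} (h : P.fnd (l ++ [c']) r x = some c)
    (hne : c ≠ c') : P.fnd l r x = some c := by
  unfold fnd at h ⊢
  rw [List.find?_append] at h
  cases h1 : List.find? (fun c => decide (P.d x c ≤ r)) l with
  | some a => rw [h1] at h; simpa using h
  | none =>
    rw [h1] at h
    have := List.mem_of_find?_eq_some (by simpa using h :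
      List.find? (fun c => decide (P.d x c ≤ r)) [c'] = some c)
    simp at this; exact absurd this hne

/-- the point to which `x` is pushed -/
def psh (l : List V) (j : ℕ) (x : V) : V := (P.fnd l (5 * P.lam j) x).getD x

lemma d_psh (l : List V) (j : ℕ) (x : V) : P.d x (P.psh l j x) ≤ 5 * P.lam j := by
  unfold psh
  cases h : P.fnd l (5 * P.lam j) x with
  | some c => exact (P.fnd_some h).2
  | none => simp [P.d_self]

lemma psh_mem {l : List V} {j : ℕ} {x c : V} (hc : c ∈ l) (hd : P.d x c ≤ 5 * P.lam j) :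
    P.psh l j x ∈ l := by
  unfold psh
  cases h : P.fnd l (5 * P.lam j) x with
  | some c' => exact (P.fnd_some h).1
  | none => have := P.fnd_none.1 h c hc; omega

/-- ownership map of level `j` -/
def A (cs : ℕ → List V) (j : ℕ) (x : V) : ℕ × V :=
  if j < P.h then
    match P.fnd (cs j) (3 * P.lam j) x with
    | some c => (j, c)
    | none => A cs (j + 1) (P.psh (cs j) j x)
  else (P.h, P.v0)
termination_by P.h - j

lemma A_top (cs : ℕ → List V) {j : ℕ} (hj : P.h ≤ j) (x : V) : P.A cs j x = (P.h, P.v0) := by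
  rw [A, if_neg (by omega)]

lemma A_some {cs : ℕ → List V} {j : ℕ} (hj : j < P.h) {x c : V}
    (h : P.fnd (cs j) (3 * P.lam j) x = some c) : P.A cs j x = (j, c) := by
  rw [A, if_pos hj, h]

lemma A_none {cs : ℕ → List V} {j : ℕ} (hj : j < P.h) {x : V}
    (h : P.fnd (cs j) (3 * P.lam j) x = none) :
    P.A cs j x = P.A cs (j + 1) (P.psh (cs j) j x) := by
  rw [A, if_pos hj, h]

/-- downward induction over the levels -/
lemma down (Q : ℕ → Prop) (h1 : ∀ j, P.h ≤ j → Q j) (h2 : ∀ j, j < P.h → Q (j + 1) → Q j) :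
    ∀ j, Q j := by
  have : ∀ k j, P.h - j = k → Q j := by
    intro k
    induction k with
    | zero => intro j hj; exact h1 j (by omega)
    | succ k ih => intro j hj; exact h2 j (by omega) (ih _ (by omega))
  exact fun j => this _ j rfl

lemma A_le (cs : ℕ → List V) : ∀ j x, (P.A cs j x).1 ≤ P.h := by
  refine P.down (fun j => ∀ x, (P.A cs j x).1 ≤ P.h) ?_ ?_
  · intro j hj x; rw [P.A_top cs hj]
  · intro j hj ih x
    cases h : P.fnd (cs j) (3 * P.lam j) x with
    | some c => rw [P.A_some hj h]; exact hj.le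
    | none => rw [P.A_none hj h]; exact ih _

lemma A_ge (cs : ℕ → List V) : ∀ j, j ≤ P.h → ∀ x, j ≤ (P.A cs j x).1 := by
  refine P.down (fun j => j ≤ P.h → ∀ x, j ≤ (P.A cs j x).1) ?_ ?_
  · intro j hj hj' x; rw [P.A_top cs hj]; exact hj'
  · intro j hj ih _ x
    cases h : P.fnd (cs j) (3 * P.lam j) x with
    | some c => rw [P.A_some hj h]
    | none => rw [P.A_none hj h]; exact le_trans (Nat.le_succ j) (ih hj _)

lemma A_own {cs : ℕ → List V} (htop : cs P.h = [P.v0]) {j : ℕ} {x : V}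
    (h : (P.A cs j x).1 = j) :
    (P.A cs j x).2 ∈ cs j ∧ P.d x (P.A cs j x).2 ≤ 3 * P.lam j := by
  by_cases hj : j < P.h
  · cases h1 : P.fnd (cs j) (3 * P.lam j) x with
    | some c => rw [P.A_some hj h1]; exact P.fnd_some h1
    | none =>
      rw [P.A_none hj h1] at h
      have := P.A_ge cs (j + 1) hj (P.psh (cs j) j x)
      omega
  · rw [P.A_top cs (by omega)] at h ⊢
    simp only at h
    subst h
    refine ⟨by simp [htop], ?_⟩
    have := P.diam x P.v0
    simp only; omega

lemma A_up {cs : ℕ → List V} {j : ℕ} {x : V} (h : j < (P.A cs j x).1) :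
    P.A cs j x = P.A cs (j + 1) (P.psh (cs j) j x) := by
  by_cases hj : j < P.h
  · cases h1 : P.fnd (cs j) (3 * P.lam j) x with
    | some c => rw [P.A_some hj h1] at h; simp at h
    | none => exact P.A_none hj h1
  · rw [P.A_top cs (by omega)] at h
    simp only at h; omega

lemma A_cov {cs : ℕ → List V} {j : ℕ} (hj : j ≤ P.h) {x c : V} (hc : c ∈ cs j)
    (hd : P.d x c ≤ 3 * P.lam j) : (P.A cs j x).1 = j := by
  by_cases hj' : j < P.h
  · cases h1 : P.fnd (cs j) (3 * P.lam j) x with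
    | some c => rw [P.A_some hj' h1]
    | none => have := P.fnd_none.1 h1 c hc; omega
  · rw [P.A_top cs (by omega)]; simp only; omega

/-- boards active at the location `(j, u)` -/
def O (cs : ℕ → List V) (j : ℕ) (u : V) : Finset (ℕ × V) :=
  (univ.filter fun x => P.d u x ≤ P.lam j).image (P.A cs j)

lemma mem_O {cs : ℕ → List V} {j : ℕ} {u : V} {β : ℕ × V} :
    β ∈ P.O cs j u ↔ ∃ x, P.d u x ≤ P.lam j ∧ P.A cs j x = β := by
  simp [O]

lemma mem_O_zero {cs : ℕ → List V} {u : V} {β : ℕ × V} :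
    β ∈ P.O cs 0 u ↔ P.A cs 0 u = β := by
  rw [mem_O]
  constructor
  · rintro ⟨x, h1, h2⟩
    rw [P.lam0] at h1
    rw [P.d_eq u x (by omega)]; exact h2
  · intro h; exact ⟨u, by simp [P.d_self], h⟩

lemma O_le {cs : ℕ → List V} {j : ℕ} {u : V} {β : ℕ × V} (h : β ∈ P.O cs j u) : β.1 ≤ P.h := by
  obtain ⟨x, -, rfl⟩ := P.mem_O.1 h
  exact P.A_le cs j x

lemma O_ge {cs : ℕ → List V} {j : ℕ} (hj : j ≤ P.h) {u : V} {β : ℕ × V} (h : β ∈ P.O cs j u) :
    j ≤ β.1 := by
  obtain ⟨x, -, rfl⟩ := P.mem_O.1 h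
  exact P.A_ge cs j hj x

lemma O_own {cs : ℕ → List V} (htop : cs P.h = [P.v0]) {j : ℕ} {u c : V}
    (h : (j, c) ∈ P.O cs j u) : c ∈ cs j ∧ P.d u c ≤ 4 * P.lam j := by
  obtain ⟨x, h1, h2⟩ := P.mem_O.1 h
  have h3 := P.A_own htop (x := x) (j := j) (by rw [h2])
  rw [h2] at h3
  have := P.d_tri u x c
  exact ⟨h3.1, by have := h3.2; simp only at this; omega⟩

lemma O_nest {cs : ℕ → List V} {j : ℕ} {u v : V} {β : ℕ × V} (h : β ∈ P.O cs j v) (hβ : j < β.1)
    (hd : P.d u v + 6 * P.lam j ≤ P.lam (j + 1)) : β ∈ P.O cs (j + 1) u := by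
  obtain ⟨x, h1, rfl⟩ := P.mem_O.1 h
  refine P.mem_O.2 ⟨_, ?_, (P.A_up hβ).symm⟩
  have := P.d_psh (cs j) j x
  have := P.d_tri u v x
  have := P.d_tri u x (P.psh (cs j) j x)
  omega

lemma O_cov {cs : ℕ → List V} {j : ℕ} (hj : j ≤ P.h) {u c : V} (hc : c ∈ cs j)
    (hd : P.d u c ≤ 2 * P.lam j) {β : ℕ × V} (h : β ∈ P.O cs j u) : β.1 = j := by
  obtain ⟨x, h1, rfl⟩ := P.mem_O.1 h
  refine P.A_cov hj hc ?_
  have := P.d_tri x u c
  have := P.d_comm x u
  omega

/-- centres of level `j` near `u` -/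
def nr (cs : ℕ → List V) (j : ℕ) (u : V) : Finset V :=
  univ.filter fun c => c ∈ cs j ∧ P.d u c ≤ 6 * P.lam j

lemma mem_nr {cs : ℕ → List V} {j : ℕ} {u c : V} :
    c ∈ P.nr cs j u ↔ c ∈ cs j ∧ P.d u c ≤ 6 * P.lam j := by simp [nr]

lemma O_card {cs : ℕ → List V} (hinv : ∀ j u, (P.nr cs j u).card ≤ P.m) :
    ∀ j u, (P.O cs j u).card ≤ 2 * P.m := by
  refine P.down (fun j => ∀ u, (P.O cs j u).card ≤ 2 * P.m) ?_ ?_
  · intro j hj u
    have : P.O cs j u ⊆ {(P.h, P.v0)} := by
      intro β hβ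
      obtain ⟨x, -, rfl⟩ := P.mem_O.1 hβ
      rw [P.A_top cs hj]; simp
    have h1 := card_le_card this
    have := P.m_pos
    simp at h1; omega
  · intro j hj ih u
    by_cases hc : ∃ c ∈ cs j, P.d u c ≤ 4 * P.lam j
    · obtain ⟨c, hc1, hc2⟩ := hc
      have : P.O cs j u ⊆ (P.nr cs j u).image (fun c => (j, c)) ∪
          (P.nr cs j u).image (P.A cs (j + 1)) := by
        intro β hβ
        obtain ⟨x, hx, rfl⟩ := P.mem_O.1 hβ
        cases h1 : P.fnd (cs j) (3 * P.lam j) x with
        | some c' =>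
          rw [P.A_some hj h1]
          have h2 := P.fnd_some h1
          have := P.d_tri u x c'
          exact mem_union_left _ (mem_image.2 ⟨c', P.mem_nr.2 ⟨h2.1, by omega⟩, rfl⟩)
        | none =>
          rw [P.A_none hj h1]
          have := P.d_tri x u c
          have := P.d_comm x u
          have := P.d_psh (cs j) j x
          have := P.d_tri u x (P.psh (cs j) j x)
          exact mem_union_right _ (mem_image.2
            ⟨_, P.mem_nr.2 ⟨P.psh_mem hc1 (by omega), by omega⟩, rfl⟩)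
      have h1 := card_le_card this
      have h2 := card_union_le ((P.nr cs j u).image (fun c => (j, c)))
        ((P.nr cs j u).image (P.A cs (j + 1)))
      have h3 := card_image_le (s := P.nr cs j u) (f := fun c => (j, c))
      have h4 := card_image_le (s := P.nr cs j u) (f := P.A cs (j + 1))
      have := hinv j u
      omega
    · push Not at hc
      refine le_trans (card_le_card ?_) (ih u)
      intro β hβ
      obtain ⟨x, hx, rfl⟩ := P.mem_O.1 hβ
      have h1 : P.fnd (cs j) (3 * P.lam j) x = none := by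
        rw [P.fnd_none]
        intro c hc'
        have := hc c hc'
        have := P.d_tri u x c
        omega
      rw [P.A_none hj h1]
      refine P.mem_O.2 ⟨_, ?_, rfl⟩
      have := P.d_psh (cs j) j x
      have := P.d_tri u x (P.psh (cs j) j x)
      have := P.lam_succ j
      omega

/-- the centre lists after a new centre `c` of level `i` -/
def add (cs : ℕ → List V) (i : ℕ) (c : V) : ℕ → List V :=
  fun j => if j = i then cs i ++ [c] else cs j

lemma add_ne {cs : ℕ → List V} {i j : ℕ} (c : V) (h : j ≠ i) : add cs i c j = cs j := by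
  simp [add, h]

lemma add_eq (cs : ℕ → List V) (i : ℕ) (c : V) : add cs i c i = cs i ++ [c] := by
  simp [add]

lemma mem_add {cs : ℕ → List V} {i j : ℕ} {c x : V} :
    x ∈ add cs i c j ↔ x ∈ cs j ∨ (j = i ∧ x = c) := by
  by_cases h : j = i
  · subst h; simp [add_eq]
  · simp [add_ne c h, h]

lemma A_add_gt (cs : ℕ → List V) (i : ℕ) (c : V) :
    ∀ j, i < j → ∀ x, P.A (add cs i c) j x = P.A cs j x := by
  refine P.down (fun j => i < j → ∀ x, P.A (add cs i c) j x = P.A cs j x) ?_ ?_
  · intro j hj _ x; rw [P.A_top _ hj, P.A_top _ hj]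
  · intro j hj ih hij x
    have e : add cs i c j = cs j := add_ne c (by omega)
    cases h1 : P.fnd (cs j) (3 * P.lam j) x with
    | some c' => rw [P.A_some hj h1, P.A_some hj (by rw [e]; exact h1)]
    | none => rw [P.A_none hj h1, P.A_none hj (by rw [e]; exact h1), e, ih (by omega)]

/-- accumulated push radii -/
def D : ℕ → ℕ
  | 0 => 0
  | j + 1 => D j + 5 * P.lam j

lemma A_add_far (cs : ℕ → List V) (i : ℕ) (c : V) :
    ∀ j, j ≤ i → ∀ x, 5 * P.lam i + P.D i < P.d x c + P.D j →
      P.A (add cs i c) j x = P.A cs j x := by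
  refine P.down (fun j => j ≤ i → ∀ x, 5 * P.lam i + P.D i < P.d x c + P.D j →
      P.A (add cs i c) j x = P.A cs j x) ?_ ?_
  · intro j hj _ x _; rw [P.A_top _ hj, P.A_top _ hj]
  · intro j hj ih hij x hx
    by_cases hji : j = i
    · subst hji
      have e1 : P.fnd (add cs j c j) (3 * P.lam j) x = P.fnd (cs j) (3 * P.lam j) x := by
        rw [add_eq, P.fnd_append_far (by omega)]
      have e2 : P.psh (add cs j c j) j x = P.psh (cs j) j x := by
        unfold psh
        rw [add_eq, P.fnd_append_far (by omega)]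
      cases h1 : P.fnd (cs j) (3 * P.lam j) x with
      | some c' => rw [P.A_some hj h1, P.A_some hj (by rw [e1]; exact h1)]
      | none =>
        rw [P.A_none hj h1, P.A_none hj (by rw [e1]; exact h1), e2,
          P.A_add_gt cs j c _ (by omega)]
    · have e : add cs i c j = cs j := add_ne c hji
      cases h1 : P.fnd (cs j) (3 * P.lam j) x with
      | some c' => rw [P.A_some hj h1, P.A_some hj (by rw [e]; exact h1)]
      | none =>
        rw [P.A_none hj h1, P.A_none hj (by rw [e]; exact h1), e, ih (by omega)]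
        have := P.d_psh (cs j) j x
        have := P.d_tri x (P.psh (cs j) j x) c
        simp only [D]; omega

lemma A_add_low (cs : ℕ → List V) {i : ℕ} (hi : i < P.h) (c : V) {β : ℕ × V} (hβ : β.1 ≤ i)
    (hne : β ≠ (i, c)) : ∀ j x, P.A (add cs i c) j x = β ↔ P.A cs j x = β := by
  refine P.down (fun j => ∀ x, P.A (add cs i c) j x = β ↔ P.A cs j x = β) ?_ ?_
  · intro j hj x; rw [P.A_top _ hj, P.A_top _ hj]
  · intro j hj ih x
    by_cases hji : j = i
    · subst hji
      have up : ∀ (cs' : ℕ → List V) y, P.A cs' (j + 1) y ≠ β := by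
        intro cs' y hy
        have := P.A_ge cs' (j + 1) hj y
        rw [hy] at this; omega
      cases h1 : P.fnd (cs j) (3 * P.lam j) x with
      | some c' =>
        rw [P.A_some hj h1, P.A_some hj (by rw [add_eq]; exact P.fnd_append_some h1)]
      | none =>
        rw [P.A_none hj h1]
        refine iff_of_false ?_ (up _ _)
        cases h2 : P.fnd (add cs j c j) (3 * P.lam j) x with
        | some c' =>
          rw [P.A_some hj h2]
          rintro rfl
          rw [add_eq] at h2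
          have := P.fnd_append_ne h2 (by rintro rfl; exact hne rfl)
          rw [h1] at this; cases this
        | none => rw [P.A_none hj h2]; exact up _ _
    · have e : add cs i c j = cs j := add_ne c hji
      cases h1 : P.fnd (cs j) (3 * P.lam j) x with
      | some c' => rw [P.A_some hj h1, P.A_some hj (by rw [e]; exact h1)]
      | none => rw [P.A_none hj h1, P.A_none hj (by rw [e]; exact h1), e, ih]

lemma O_add_gt (cs : ℕ → List V) (i : ℕ) (c : V) {j : ℕ} (h : i < j) (u : V) :
    P.O (add cs i c) j u = P.O cs j u := by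
  ext β; simp only [mem_O, P.A_add_gt cs i c j h]

lemma O_add_far (cs : ℕ → List V) (i : ℕ) (c : V) {j : ℕ} (h : j ≤ i) {u : V}
    (hu : 5 * P.lam i + P.D i + P.lam j < P.d u c + P.D j) :
    P.O (add cs i c) j u = P.O cs j u := by
  ext β; simp only [mem_O]
  refine exists_congr fun x => and_congr_right fun hx => ?_
  rw [P.A_add_far cs i c j h x]
  have := P.d_tri u x c
  omega

lemma O_add_low (cs : ℕ → List V) {i : ℕ} (hi : i < P.h) (c : V) {β : ℕ × V} (hβ : β.1 ≤ i)
    (hne : β ≠ (i, c)) (j : ℕ) (u : V) : β ∈ P.O (add cs i c) j u ↔ β ∈ P.O cs j u := by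
  simp only [mem_O, P.A_add_low cs hi c hβ hne]

end Par

lemma exists_reslot {B : Type} [DecidableEq B] {K : ℕ} (O O' : Finset B) (f : B → Fin K)
    (hf : Set.InjOn f O) (hc : O'.card ≤ K) :
    ∃ g : B → Fin K, Set.InjOn g O' ∧ ∀ x ∈ O, g x = f x := by
  classical
  have h1 : ((O ∩ O').image f).card = (O ∩ O').card :=
    card_image_of_injOn (hf.mono (by intro x hx; simp at hx; exact hx.1))
  have h2 : (O' \ O).card ≤ (univ \ (O ∩ O').image f).card := by
    rw [card_sdiff_of_subset (subset_univ _), h1, card_univ, Fintype.card_fin]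
    have := card_sdiff_add_card_inter O' O
    rw [inter_comm] at this
    omega
  obtain ⟨e, he⟩ := Function.Embedding.exists_of_card_le_finset
    (α := ↥(O' \ O)) (s := univ \ (O ∩ O').image f) (by simpa using h2)
  refine ⟨fun x => if hx : x ∈ O' \ O then e ⟨x, hx⟩ else f x, ?_, ?_⟩
  · intro x hx y hy hxy
    have hx' : x ∈ O' := hx
    have hy' : y ∈ O' := hy
    have key : ∀ (a : B) (ha : a ∈ O' \ O) (b : B), b ∈ O' → b ∉ O' \ O → e ⟨a, ha⟩ ≠ f b := by
      intro a ha b hb hb' hab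
      have : e ⟨a, ha⟩ ∈ (univ \ (O ∩ O').image f : Finset (Fin K)) := he ⟨_, rfl⟩
      rw [mem_sdiff] at this
      refine this.2 (mem_image.2 ⟨b, ?_, hab.symm⟩)
      simp only [mem_sdiff, not_and, not_not] at hb'
      exact mem_inter.2 ⟨hb' hb, hb⟩
    simp only at hxy
    by_cases h3 : x ∈ O' \ O <;> by_cases h4 : y ∈ O' \ O
    · rw [dif_pos h3, dif_pos h4] at hxy
      simpa using e.injective hxy
    · rw [dif_pos h3, dif_neg h4] at hxy
      exact absurd hxy (key x h3 y hy' h4)
    · rw [dif_neg h3, dif_pos h4] at hxy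
      exact absurd hxy.symm (key y h4 x hx' h3)
    · rw [dif_neg h3, dif_neg h4] at hxy
      simp only [mem_sdiff, not_and, not_not] at h3 h4
      exact hf (h3 hx') (h4 hy') hxy
  · intro x hx
    simp only
    rw [dif_neg (by simp [hx])]

end Pool.Agent.P.MP_d36d9e_co.X
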