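import Pool.Agent.P.MP_d36d9e_co.X1

/-!
Multi-scale boards: weights, marginals and multiplicative updates.
-/

namespace Pool.Agent.P.MP_d36d9e_co.X

open Finset

variable {V : Type} [Fintype V] [DecidableEq V]

lemma prod_one_add {α : Type} [DecidableEq α] (s : Finset α) (f : α → ℝ)
    (h : ∀ a ∈ s, ∀ b ∈ s, f a ≠ 0 → f b ≠ 0 → a = b) :
    ∏ a ∈ s, (1 + f a) = 1 + ∑ a ∈ s, f a := by
  by_cases hz : ∃ a ∈ s, f a ≠ 0
  · obtain ⟨a, ha, hfa⟩ := hz
    have h0 : ∀ b ∈ s, b ≠ a → f b = 0 := by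
      intro b hb hne
      by_contra hfb
      exact hne (h b hb a ha hfb hfa)
    rw [prod_eq_single_of_mem a ha (fun b hb hne => by rw [h0 b hb hne, add_zero]),
      sum_eq_single_of_mem a ha h0]
  · push Not at hz
    rw [prod_eq_one (fun a ha => by rw [hz a ha, add_zero]), sum_eq_zero hz, add_zero]

lemma sum_le_one_of {α : Type} [DecidableEq α] (s : Finset α) (f : α → ℝ)
    (h : ∀ a ∈ s, ∀ b ∈ s, f a ≠ 0 → f b ≠ 0 → a = b) (h1 : ∀ a ∈ s, f a ≤ 1) :
    ∑ a ∈ s, f a ≤ 1 := by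
  by_cases hz : ∃ a ∈ s, f a ≠ 0
  · obtain ⟨a, ha, hfa⟩ := hz
    have h0 : ∀ b ∈ s, b ≠ a → f b = 0 := by
      intro b hb hne
      by_contra hfb
      exact hne (h b hb a ha hfb hfa)
    rw [sum_eq_single_of_mem a ha h0]; exact h1 a ha
  · push Not at hz
    rw [sum_eq_zero hz]; exact zero_le_one

/-- state of the strategy -/
structure St (P : Par V) where
  cs : ℕ → List V
  sl : ℕ → V → ℕ × V → Fin (2 * P.m)
  b : ℕ → V → Fin (2 * P.m) → Finset V → ℝ
  M : ℕ → V → ℕ × V → ℝ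

namespace St

variable {P : Par V} (S : St P)

/-- total weight of a slot -/
noncomputable def G (j : ℕ) (u : V) (s : Fin (2 * P.m)) : ℝ := ∑ ω ∈ P.T j u, S.b j u s ω

/-- marginal of the point `x` -/
noncomputable def p (β : ℕ × V) (x : V) : ℕ → V → ℝ
  | 0, u => if u = x ∧ β ∈ P.O S.cs 0 u then 1 else 0
  | j + 1, u => if β ∈ P.O S.cs (j + 1) u then
      (∑ ω ∈ P.T j u, S.b j u (S.sl j u β) ω * ∑ v ∈ ω, p β x j v) / S.G j u (S.sl j u β) else 0

/-- ratio of slot totals -/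
noncomputable def rat (f : V → ℝ) (β : ℕ × V) (j : ℕ) (u : V) : ℝ :=
  if β ∈ P.O S.cs (j + 1) u ∧ S.G j u (S.sl j u β) ≠ 0 then
    (∑ ω ∈ P.T j u, S.b j u (S.sl j u β) ω * ∏ v ∈ ω, f v) / S.G j u (S.sl j u β) else 1

/-- increments of an update -/
noncomputable def rho (χ : ℕ → V → ℕ × V → ℝ) (β : ℕ × V) : ℕ → V → ℝ
  | 0, u => χ 0 u β
  | j + 1, u => χ (j + 1) u β * S.rat (rho χ β j) β j u

/-- multiplicative update -/
noncomputable def upd (χ : ℕ → V → ℕ × V → ℝ) : St P where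
  cs := S.cs
  sl := S.sl
  b := fun j u s ω => S.b j u s ω *
    ∏ β ∈ (P.O S.cs (j + 1) u).filter (fun β => S.sl j u β = s), ∏ v ∈ ω, S.rho χ β j v
  M := fun j u β => S.M j u β * S.rho χ β j u

/-- nonnegative slot weights -/
def B0 : Prop := ∀ j u s ω, 0 ≤ S.b j u s ω

/-- injective slot maps -/
def Inj : Prop := ∀ j u, Set.InjOn (S.sl j u) (P.O S.cs (j + 1) u)

variable {S}

lemma G_nonneg (hb : S.B0) (j : ℕ) (u : V) (s : Fin (2 * P.m)) : 0 ≤ S.G j u s :=
  sum_nonneg fun ω _ => hb j u s ω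

lemma sum_zero_of_G (hb : S.B0) {j : ℕ} {u : V} {s : Fin (2 * P.m)} (h : S.G j u s = 0)
    (f : Finset V → ℝ) : ∑ ω ∈ P.T j u, S.b j u s ω * f ω = 0 := by
  refine sum_eq_zero fun ω hω => ?_
  rw [(sum_eq_zero_iff_of_nonneg fun ω _ => hb j u s ω).1 h ω hω, zero_mul]

lemma p_nonneg (hb : S.B0) (β : ℕ × V) (x : V) : ∀ j u, 0 ≤ S.p β x j u
  | 0, u => by unfold p; split_ifs <;> norm_num
  | j + 1, u => by
    unfold p
    split_ifs
    · exact div_nonneg (sum_nonneg fun ω _ => mul_nonneg (hb _ _ _ _)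
        (sum_nonneg fun v _ => p_nonneg hb β x j v)) (G_nonneg hb _ _ _)
    · exact le_rfl

lemma p_inact {β : ℕ × V} (x : V) {j : ℕ} {u : V} (h : β ∉ P.O S.cs j u) : S.p β x j u = 0 := by
  cases j with
  | zero => unfold p; rw [if_neg (fun h' => h h'.2)]
  | succ j => unfold p; rw [if_neg h]

lemma p_supp {β : ℕ × V} {x : V} :
    ∀ j u, S.p β x j u ≠ 0 → P.d u x ≤ P.lam j ∧ P.A S.cs 0 x = β
  | 0, u => by
    intro h
    unfold p at h
    split_ifs at h with h1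
    · obtain ⟨rfl, h2⟩ := h1
      exact ⟨by simp [P.d_self], P.mem_O_zero.1 h2⟩
    · exact absurd rfl h
  | j + 1, u => by
    intro h
    unfold p at h
    split_ifs at h with h1
    · obtain ⟨ω, hω, h2⟩ := exists_ne_zero_of_sum_ne_zero (left_ne_zero_of_mul h)
      obtain ⟨v, hv, h3⟩ := exists_ne_zero_of_sum_ne_zero (right_ne_zero_of_mul h2)
      obtain ⟨h4, h5⟩ := p_supp j v h3
      have := P.T_near j u ω hω v hv
      have := P.d_tri u v x
      exact ⟨by omega, h5⟩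
    · exact absurd rfl h

lemma p_uniq {β : ℕ × V} {x : V} {j : ℕ} {u : V} {ω : Finset V} (hω : ω ∈ P.T j u) :
    ∀ v ∈ ω, ∀ w ∈ ω, S.p β x j v ≠ 0 → S.p β x j w ≠ 0 → v = w := by
  intro v hv w hw h1 h2
  by_contra hne
  have := P.T_sep j u ω hω v hv w hw hne
  have := (p_supp j v h1).1
  have := (p_supp j w h2).1
  have := P.d_tri v x w
  have := P.d_comm x w
  omega

lemma p_le_one (hb : S.B0) (β : ℕ × V) (x : V) : ∀ j u, S.p β x j u ≤ 1
  | 0, u => by unfold p; split_ifs <;> norm_num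
  | j + 1, u => by
    unfold p
    split_ifs
    · refine div_le_one_of_le₀ (sum_le_sum fun ω hω => ?_) (G_nonneg hb _ _ _)
      exact mul_le_of_le_one_right (hb _ _ _ _)
        (sum_le_one_of _ _ (p_uniq hω) fun v _ => p_le_one hb β x j v)
    · exact zero_le_one

lemma p_prod {β : ℕ × V} {x : V} {j : ℕ} {u : V} {ω : Finset V} (hω : ω ∈ P.T j u) (ε : ℝ) :
    ∏ v ∈ ω, (1 + ε * S.p β x j v) = 1 + ε * ∑ v ∈ ω, S.p β x j v := by
  rw [prod_one_add, mul_sum]
  intro v hv w hw h1 h2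
  exact p_uniq hω v hv w hw (right_ne_zero_of_mul h1) (right_ne_zero_of_mul h2)

lemma rat_nonneg (hb : S.B0) {f : V → ℝ} (hf : ∀ v, 0 ≤ f v) (β : ℕ × V) (j : ℕ) (u : V) :
    0 ≤ S.rat f β j u := by
  unfold rat
  split_ifs
  · exact div_nonneg (sum_nonneg fun ω _ => mul_nonneg (hb _ _ _ _)
      (prod_nonneg fun v _ => hf v)) (G_nonneg hb _ _ _)
  · exact zero_le_one

lemma rat_le_one (hb : S.B0) {f : V → ℝ} (hf : ∀ v, 0 ≤ f v) (hf1 : ∀ v, f v ≤ 1) (β : ℕ × V)
    (j : ℕ) (u : V) : S.rat f β j u ≤ 1 := by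
  unfold rat
  split_ifs
  · refine div_le_one_of_le₀ (sum_le_sum fun ω hω => ?_) (G_nonneg hb _ _ _)
    exact mul_le_of_le_one_right (hb _ _ _ _) (prod_le_one (fun v _ => hf v) fun v _ => hf1 v)
  · exact le_rfl

lemma rat_eq_one {f : V → ℝ} {β : ℕ × V} {j : ℕ} {u : V}
    (hf : ∀ ω ∈ P.T j u, ∀ v ∈ ω, f v = 1) : S.rat f β j u = 1 := by
  unfold rat
  split_ifs with h
  · rw [div_eq_one_iff_eq h.2]
    exact sum_congr rfl fun ω hω => by rw [prod_eq_one (hf ω hω), mul_one]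
  · rfl

lemma rat_mul (hb : S.B0) (f : V → ℝ) {β : ℕ × V} {j : ℕ} {u : V}
    (h : β ∈ P.O S.cs (j + 1) u) :
    ∑ ω ∈ P.T j u, S.b j u (S.sl j u β) ω * ∏ v ∈ ω, f v =
      S.G j u (S.sl j u β) * S.rat f β j u := by
  unfold rat
  by_cases hG : S.G j u (S.sl j u β) = 0
  · rw [sum_zero_of_G hb hG, hG, zero_mul]
  · rw [if_pos ⟨h, hG⟩]; field_simp

variable {χ : ℕ → V → ℕ × V → ℝ}

lemma rho_nonneg (hb : S.B0) (h0 : ∀ j u β, 0 ≤ χ j u β) (β : ℕ × V) : ∀ j u, 0 ≤ S.rho χ β j u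
  | 0, u => h0 0 u β
  | j + 1, u => mul_nonneg (h0 _ _ _) (rat_nonneg hb (rho_nonneg hb h0 β j) _ _ _)

lemma rho_le_one (hb : S.B0) (h0 : ∀ j u β, 0 ≤ χ j u β) (h1 : ∀ j u β, χ j u β ≤ 1) (β : ℕ × V) :
    ∀ j u, S.rho χ β j u ≤ 1
  | 0, u => h1 0 u β
  | j + 1, u => mul_le_one₀ (h1 _ _ _) (rat_nonneg hb (rho_nonneg hb h0 β j) _ _ _)
      (rat_le_one hb (rho_nonneg hb h0 β j) (rho_le_one hb h0 h1 β j) _ _ _)

lemma rho_inact (h1 : ∀ j u β, β ∉ P.O S.cs j u → χ j u β = 1) {β : ℕ × V} {j : ℕ} {u : V}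
    (h : β ∉ P.O S.cs j u) : S.rho χ β j u = 1 := by
  cases j with
  | zero => exact h1 _ _ _ h
  | succ j =>
    unfold rho rat
    rw [h1 _ _ _ h, if_neg (fun h' => h h'.1), mul_one]

lemma rho_eq_one {β : ℕ × V} (Q : ℕ → V → Prop)
    (hQ : ∀ j u, Q (j + 1) u → ∀ ω ∈ P.T j u, ∀ v ∈ ω, Q j v)
    (h1 : ∀ j u, Q j u → χ j u β = 1) : ∀ j u, Q j u → S.rho χ β j u = 1
  | 0, u => h1 0 u
  | j + 1, u => fun h => by
    unfold rho
    rw [h1 _ _ h, rat_eq_one fun ω hω v hv => rho_eq_one Q hQ h1 j v (hQ j u h ω hω v hv), mul_one]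

lemma upd_b (hi : S.Inj) {β : ℕ × V} {j : ℕ} {u : V} (h : β ∈ P.O S.cs (j + 1) u) (ω : Finset V) :
    (S.upd χ).b j u (S.sl j u β) ω = S.b j u (S.sl j u β) ω * ∏ v ∈ ω, S.rho χ β j v := by
  have : (P.O S.cs (j + 1) u).filter (fun β' => S.sl j u β' = S.sl j u β) = {β} := by
    ext β'
    simp only [mem_filter, mem_singleton]
    exact ⟨fun h' => hi j u h'.1 h h'.2, fun h' => by subst h'; exact ⟨h, rfl⟩⟩
  simp only [upd, this, prod_singleton]

lemma upd_G (hb : S.B0) (hi : S.Inj) {β : ℕ × V} {j : ℕ} {u : V} (h : β ∈ P.O S.cs (j + 1) u) :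
    (S.upd χ).G j u (S.sl j u β) = S.G j u (S.sl j u β) * S.rat (S.rho χ β j) β j u := by
  rw [← rat_mul hb _ h]
  exact sum_congr rfl fun ω _ => upd_b hi h ω

lemma upd_G' (hb : S.B0) (hi : S.Inj) (j : ℕ) (u : V) (s : Fin (2 * P.m)) :
    (S.upd χ).G j u s = S.G j u s *
      ∏ β ∈ (P.O S.cs (j + 1) u).filter (fun β => S.sl j u β = s), S.rat (S.rho χ β j) β j u := by
  by_cases hs : ∃ β ∈ P.O S.cs (j + 1) u, S.sl j u β = s
  · obtain ⟨β, h, rfl⟩ := hs
    have : (P.O S.cs (j + 1) u).filter (fun β' => S.sl j u β' = S.sl j u β) = {β} := by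
      ext β'
      simp only [mem_filter, mem_singleton]
      exact ⟨fun h' => hi j u h'.1 h h'.2, fun h' => by subst h'; exact ⟨h, rfl⟩⟩
    rw [this, prod_singleton, upd_G hb hi h]
  · have : (P.O S.cs (j + 1) u).filter (fun β' => S.sl j u β' = s) = ∅ := by
      rw [filter_eq_empty_iff]; intro β h h'; exact hs ⟨β, h, h'⟩
    simp only [G, upd, this, prod_empty, mul_one]

lemma upd_B0 (hb : S.B0) (h0 : ∀ j u β, 0 ≤ χ j u β) : (S.upd χ).B0 := fun j u s ω =>
  mul_nonneg (hb j u s ω) (prod_nonneg fun β _ => prod_nonneg fun v _ => rho_nonneg hb h0 β j v)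

/-- the new marginal of an active board, without normalisation -/
lemma upd_p (hb : S.B0) (hi : S.Inj) (h0 : ∀ j u β, 0 ≤ χ j u β) {β : ℕ × V} (x : V) {j : ℕ}
    {u : V} (h : β ∈ P.O S.cs (j + 1) u) :
    S.G j u (S.sl j u β) * (S.rat (S.rho χ β j) β j u * (S.upd χ).p β x (j + 1) u) =
      ∑ ω ∈ P.T j u, S.b j u (S.sl j u β) ω *
        ((∏ v ∈ ω, S.rho χ β j v) * ∑ v ∈ ω, (S.upd χ).p β x j v) := by
  have e : ∑ ω ∈ P.T j u, S.b j u (S.sl j u β) ω *
        ((∏ v ∈ ω, S.rho χ β j v) * ∑ v ∈ ω, (S.upd χ).p β x j v) =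
      ∑ ω ∈ P.T j u, (S.upd χ).b j u (S.sl j u β) ω * ∑ v ∈ ω, (S.upd χ).p β x j v :=
    sum_congr rfl fun ω _ => by rw [upd_b hi h, mul_assoc]
  rw [e, ← mul_assoc, ← upd_G hb hi h]
  have h' : β ∈ P.O (S.upd χ).cs (j + 1) u := h
  rw [p, if_pos h']
  by_cases hG : (S.upd χ).G j u (S.sl j u β) = 0
  · rw [hG, zero_mul, sum_zero_of_G (upd_B0 hb h0) hG]
  · exact mul_div_cancel₀ _ hG

lemma p_mul (hb : S.B0) {β : ℕ × V} (x : V) {j : ℕ} {u : V} (h : β ∈ P.O S.cs (j + 1) u) :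
    S.G j u (S.sl j u β) * S.p β x (j + 1) u =
      ∑ ω ∈ P.T j u, S.b j u (S.sl j u β) ω * ∑ v ∈ ω, S.p β x j v := by
  rw [p, if_pos h]
  by_cases hG : S.G j u (S.sl j u β) = 0
  · rw [hG, zero_mul, sum_zero_of_G hb hG]
  · exact mul_div_cancel₀ _ hG

/-- marginals depend only on the activity and the slot weights of the board -/
lemma p_congr {S S' : St P} {β : ℕ × V} (x : V) (Q : ℕ → V → Prop)
    (hQ : ∀ j u, Q (j + 1) u → ∀ ω ∈ P.T j u, ∀ v ∈ ω, Q j v)
    (hO : ∀ j u, Q j u → (β ∈ P.O S'.cs j u ↔ β ∈ P.O S.cs j u))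
    (hb : ∀ j u, Q (j + 1) u → β ∈ P.O S.cs (j + 1) u → ∀ ω ∈ P.T j u,
      S'.b j u (S'.sl j u β) ω = S.b j u (S.sl j u β) ω) :
    ∀ j u, Q j u → S'.p β x j u = S.p β x j u
  | 0, u => fun h => by unfold p; simp only [hO 0 u h]
  | j + 1, u => fun h => by
    unfold p
    by_cases h1 : β ∈ P.O S.cs (j + 1) u
    · rw [if_pos h1, if_pos ((hO _ _ h).2 h1)]
      have e1 : S'.G j u (S'.sl j u β) = S.G j u (S.sl j u β) :=
        sum_congr rfl fun ω hω => hb j u h h1 ω hω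
      rw [e1]
      congr 1
      refine sum_congr rfl fun ω hω => ?_
      rw [hb j u h h1 ω hω]
      congr 1
      exact sum_congr rfl fun v hv => p_congr x Q hQ hO hb j v (hQ j u h ω hω v hv)
    · rw [if_neg h1, if_neg (fun h2 => h1 ((hO _ _ h).1 h2))]

/-- a board whose increments are trivial keeps its marginals -/
lemma upd_p_same (hi : S.Inj) {β : ℕ × V} (x : V) (Q : ℕ → V → Prop)
    (hQ : ∀ j u, Q (j + 1) u → ∀ ω ∈ P.T j u, ∀ v ∈ ω, Q j v)
    (h1 : ∀ j u, Q j u → S.rho χ β j u = 1) :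
    ∀ j u, Q j u → (S.upd χ).p β x j u = S.p β x j u := by
  refine p_congr x Q hQ (fun _ _ _ => Iff.rfl) ?_
  intro j u hq h ω hω
  have := upd_b (χ := χ) hi h ω
  rw [prod_eq_one (fun v hv => h1 j v (hQ j u hq ω hω v hv)), mul_one] at this
  exact this

/-- decreasing updates without charges above level zero do not raise weighted marginals -/
lemma upd_p_dec (hb : S.B0) (hi : S.Inj) (h0 : ∀ j u β, 0 ≤ χ j u β) (h1 : ∀ j u β, χ j u β ≤ 1)
    (β : ℕ × V) (x : V) : ∀ j u, S.rho χ β j u * (S.upd χ).p β x j u ≤ S.p β x j u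
  | 0, u => by
    have : (S.upd χ).p β x 0 u = S.p β x 0 u := rfl
    rw [this]
    exact mul_le_of_le_one_left (p_nonneg hb _ _ _ _) (rho_le_one hb h0 h1 _ _ _)
  | j + 1, u => by
    by_cases h : β ∈ P.O S.cs (j + 1) u
    · have hp' := p_nonneg (upd_B0 hb h0) β x
      have hr := rat_nonneg hb (rho_nonneg hb h0 β j) β j u
      have key : S.rat (S.rho χ β j) β j u * (S.upd χ).p β x (j + 1) u ≤ S.p β x (j + 1) u := by
        by_cases hG : S.G j u (S.sl j u β) = 0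
        · have h2 : (S.upd χ).G j u (S.sl j u β) = 0 := by rw [upd_G hb hi h, hG, zero_mul]
          have h' : β ∈ P.O (S.upd χ).cs (j + 1) u := h
          have h3 : (S.upd χ).p β x (j + 1) u = 0 := by
            rw [p, if_pos h']; exact div_eq_zero_iff.2 (Or.inr h2)
          rw [h3, mul_zero]; exact p_nonneg hb _ _ _ _
        · have hGp : 0 < S.G j u (S.sl j u β) := lt_of_le_of_ne (G_nonneg hb _ _ _) (Ne.symm hG)
          refine le_of_mul_le_mul_left ?_ hGp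
          rw [upd_p hb hi h0 x h, p_mul hb x h]
          refine sum_le_sum fun ω _ => mul_le_mul_of_nonneg_left ?_ (hb _ _ _ _)
          rw [mul_sum]
          refine sum_le_sum fun v hv => le_trans ?_ (upd_p_dec hb hi h0 h1 β x j v)
          refine mul_le_mul_of_nonneg_right ?_ (hp' _ _)
          rw [← mul_prod_erase _ _ hv]
          exact mul_le_of_le_one_right (rho_nonneg hb h0 _ _ _)
            (prod_le_one (fun w _ => rho_nonneg hb h0 _ _ _) fun w _ => rho_le_one hb h0 h1 _ _ _)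
      unfold rho
      rw [mul_assoc]
      exact le_trans (mul_le_of_le_one_left (mul_nonneg hr (hp' _ _)) (h1 _ _ _)) key
    · have h' : β ∉ P.O (S.upd χ).cs (j + 1) u := h
      rw [p_inact x h', mul_zero]; exact p_nonneg hb _ _ _ _

/-- factors of a half move at `z` -/
noncomputable def half (S : St P) (z : V) (ε : ℝ) : ℕ → V → ℕ × V → ℝ
  | 0, u, β => 1 + ε * S.p β z 0 u
  | _ + 1, _, _ => 1

lemma rho_half (hb : S.B0) (z : V) (ε : ℝ) (β : ℕ × V) :
    ∀ j u, S.rho (S.half z ε) β j u = 1 + ε * S.p β z j u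
  | 0, u => rfl
  | j + 1, u => by
    unfold rho
    rw [show S.half z ε (j + 1) u β = 1 from rfl, one_mul]
    by_cases h : β ∈ P.O S.cs (j + 1) u
    · by_cases hG : S.G j u (S.sl j u β) = 0
      · rw [rat, if_neg (fun h' => h'.2 hG), p, if_pos h, hG, div_zero, mul_zero, add_zero]
      · refine mul_left_cancel₀ hG ?_
        rw [← rat_mul hb _ h, mul_add, mul_left_comm, p_mul hb z h, mul_one, G, mul_sum,
          ← sum_add_distrib]
        refine sum_congr rfl fun ω hω => ?_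
        rw [prod_congr rfl fun v _ => rho_half hb z ε β j v, p_prod hω]; ring
    · rw [rat, if_neg (fun h' => h h'.1), p_inact z h, mul_zero, add_zero]

lemma half_inact (z : V) (ε : ℝ) (j : ℕ) (u : V) (β : ℕ × V) (h : β ∉ P.O S.cs j u) :
    S.half z ε j u β = 1 := by
  cases j with
  | zero => rw [half, p_inact z h, mul_zero, add_zero]
  | succ j => rfl

/-- propagation of the event inequality to the higher levels -/
lemma event_up {S S1 : St P} (hb : S.B0) (hi1 : S1.Inj) (hbb : S1.b = S.b)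
    (h0 : ∀ j u β, 0 ≤ χ j u β) (h1 : ∀ j u β, χ j u β ≤ 1) {β : ℕ × V} (x : V) (i : ℕ)
    (hO : ∀ j u, i < j → P.O S1.cs j u = P.O S.cs j u)
    (hs : ∀ j u, β ∈ P.O S.cs (j + 1) u → S1.sl j u β = S.sl j u β)
    (base : ∀ u, S1.rho χ β i u * (1 + (S1.upd χ).p β x i u) ≤ 1 + S.p β x i u) :
    ∀ l, i ≤ l → ∀ u, S1.rho χ β l u * (1 + (S1.upd χ).p β x l u) ≤ 1 + S.p β x l u := by
  have hb1 : S1.B0 := fun j u s ω => by rw [hbb]; exact hb j u s ω
  have hp' := p_nonneg (upd_B0 hb1 h0) β x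
  have hp := p_nonneg hb β x
  have hρ := rho_nonneg hb1 h0 β
  intro l hl
  induction l, hl using Nat.le_induction with
  | base => exact base
  | succ j hj ih =>
    intro u
    have hr := rat_nonneg hb1 (hρ j) β j u
    have key : S1.rat (S1.rho χ β j) β j u * (1 + (S1.upd χ).p β x (j + 1) u) ≤
        1 + S.p β x (j + 1) u := by
      by_cases h : β ∈ P.O S.cs (j + 1) u
      · have h' : β ∈ P.O S1.cs (j + 1) u := by rw [hO _ _ (by omega)]; exact h
        have eG : S1.G j u (S1.sl j u β) = S.G j u (S.sl j u β) := by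
          rw [hs j u h]; unfold G; rw [hbb]
        by_cases hG : S1.G j u (S1.sl j u β) = 0
        · have h2 : (S1.upd χ).G j u (S1.sl j u β) = 0 := by rw [upd_G hb1 hi1 h', hG, zero_mul]
          have h'' : β ∈ P.O (S1.upd χ).cs (j + 1) u := h'
          have h3 : (S1.upd χ).p β x (j + 1) u = 0 := by
            rw [p, if_pos h'']; exact div_eq_zero_iff.2 (Or.inr h2)
          rw [h3, rat, if_neg (fun h4 => h4.2 hG)]
          have := hp (j + 1) u
          linarith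
        · have hGp : 0 < S1.G j u (S1.sl j u β) := lt_of_le_of_ne (G_nonneg hb1 _ _ _) (Ne.symm hG)
          refine le_of_mul_le_mul_left ?_ hGp
          rw [mul_add, mul_add, mul_one, ← rat_mul hb1 _ h', upd_p hb1 hi1 h0 x h', mul_add,
            mul_one, eG, p_mul hb x h, G, ← sum_add_distrib, ← sum_add_distrib, hs j u h, hbb]
          refine sum_le_sum fun ω hω => ?_
          have e1 := p_prod (S := S) (β := β) (x := x) hω 1
          have e2 := p_prod (S := S1.upd χ) (β := β) (x := x) hω 1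
          simp only [one_mul] at e1 e2
          have e3 : (∏ v ∈ ω, S1.rho χ β j v) * (1 + ∑ v ∈ ω, (S1.upd χ).p β x j v) ≤
              1 + ∑ v ∈ ω, S.p β x j v := by
            rw [← e1, ← e2, ← prod_mul_distrib]
            exact prod_le_prod (fun v _ => mul_nonneg (hρ j v) (by linarith [hp' j v]))
              fun v _ => ih v
          have e4 := mul_le_mul_of_nonneg_left e3 (hb j u (S.sl j u β) ω)
          linarith
      · have h' : β ∉ P.O S1.cs (j + 1) u := by rw [hO _ _ (by omega)]; exact h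
        have h'' : β ∉ P.O (S1.upd χ).cs (j + 1) u := h'
        rw [rat, if_neg (fun h4 => h' h4.1), p_inact x h'', p_inact x h]; simp
    unfold rho
    rw [mul_assoc]
    exact le_trans (mul_le_of_le_one_left (mul_nonneg hr (by linarith [hp' (j + 1) u]))
      (h1 _ _ _)) key

end St

end Pool.Agent.P.MP_d36d9e_co.X
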