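import Pool.Agent.P.MP_d36d9e_co.X2

/-!
Multi-scale boards: invariants, the key bound and generic updates.
-/

namespace Pool.Agent.P.MP_d36d9e_co.X

open Finset

variable {V : Type} [Fintype V] [DecidableEq V]

/-- boards of level at least `j` -/
def Par.Bs (P : Par V) (j : ℕ) : Finset (ℕ × V) := Icc j P.h ×ˢ univ

lemma Par.mem_Bs {P : Par V} {j : ℕ} {β : ℕ × V} : β ∈ P.Bs j ↔ j ≤ β.1 ∧ β.1 ≤ P.h := by
  simp [Par.Bs]

lemma Par.prod_Bs (P : Par V) {j : ℕ} (hj : j ≤ P.h) (f : ℕ × V → ℝ) :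
    ∏ β ∈ P.Bs j, f β = (∏ c, f (j, c)) * ∏ β ∈ P.Bs (j + 1), f β := by
  simp only [Par.Bs, prod_product]
  rw [← Finset.insert_Icc_succ_left_eq_Icc hj, prod_insert (by simp)]
  rfl

lemma Par.O_sub (P : Par V) (cs : ℕ → List V) {j : ℕ} (hj : j ≤ P.h) (u : V) :
    P.O cs j u ⊆ P.Bs j := fun _ h => Par.mem_Bs.2 ⟨P.O_ge hj h, P.O_le h⟩

/-- locations in the potential of a board -/
def Par.ball (P : Par V) (j : ℕ) (c : V) : Finset V := univ.filter fun u => P.d c u ≤ 4 * P.lam j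

lemma Par.one_le_S (P : Par V) (j : ℕ) : 1 ≤ P.S j := by
  refine le_trans ?_ (P.S_ball j P.v0)
  have : 0 < (univ.filter fun u => P.d P.v0 u ≤ 4 * P.lam j).card :=
    card_pos.2 ⟨P.v0, by simp [P.d_self]⟩
  exact_mod_cast this

lemma Par.N_nonneg (P : Par V) (j : ℕ) : 0 ≤ P.N j :=
  le_trans (Nat.cast_nonneg _) (P.T_card j P.v0)

namespace St

variable {P : Par V}

/-- product of the weights of the boards of higher level -/
noncomputable def Pp (S : St P) (j : ℕ) (u : V) : ℝ := ∏ β ∈ P.Bs (j + 1), S.M j u β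

/-- slot totals against board weights -/
def I1 (S : St P) (cst : ℕ → V → ℝ) : Prop :=
  ∀ j < P.h, ∀ u, ∏ s, S.G j u s ≤ cst j u * ∏ β ∈ P.Bs (j + 1), S.M (j + 1) u β

/-- the constant in `I1` -/
noncomputable def cst (P : Par V) (cs : ℕ → List V) (j : ℕ) (u : V) : ℝ :=
  P.N j ^ (2 * P.m) * 2 ^ (2 * P.m * (P.nr cs (j + 1) u).card)

/-- invariants kept at all times -/
structure Core (S : St P) (Mk Br : Finset V) : Prop where
  top : S.cs P.h = [P.v0]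
  bot : S.cs 0 = []
  inv : ∀ j u, (P.nr S.cs j u).card ≤ P.m
  inj : S.Inj
  b0 : S.B0
  M0 : ∀ j u β, 0 ≤ S.M j u β
  i1 : S.I1 (cst P S.cs)
  i2 : ∀ j < P.h, ∀ u, ∀ ω ∈ P.T j u, ∏ s, S.b j u s ω = ∏ v ∈ ω, S.Pp j v
  na : ∀ j u c, S.M j u (j, c) ≠ 1 → c ∈ S.cs j ∧ P.d u c ≤ 4 * P.lam j
  e0 : ∀ j c, ∑ u ∈ P.ball j c, S.M j u (j, c) ≤ 2 * P.S j
  sep : ∀ j, ∀ c ∈ S.cs j, ∀ c' ∈ S.cs j, c ≠ c' → 2 * P.lam j < P.d c c'
  big : ∀ j < P.h, ∀ c ∈ S.cs j, P.th j ≤ S.Pp j c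
  ub : ∀ j, 1 ≤ j → j ≤ P.h → ∀ u, S.Pp j u ≤ 2 * P.th j
  mkr : ∀ v ∈ Mk, 2 ≤ S.Pp 0 v
  fr : ∀ v, v ∉ Mk → v ∉ Br → 1 ≤ S.Pp 0 v

/-- potential bound of one board, one move ahead -/
def E (S : St P) (Mk Br : Finset V) (β : ℕ × V) : Prop :=
  ∀ x, x ∉ Mk → x ∉ Br →
    ∑ u ∈ P.ball β.1 β.2, S.M β.1 u β * (1 + S.p β x β.1 u) ≤ 2 * P.S β.1

/-- no trigger is pending -/
def Quiet (S : St P) : Prop :=
  ∀ j, 1 ≤ j → j ≤ P.h → ∀ u, (∀ c ∈ S.cs j, 2 * P.lam j < P.d u c) → S.Pp j u < P.th j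

variable {S : St P} {Mk Br : Finset V} {χ : ℕ → V → ℕ × V → ℝ}

lemma Pp_nonneg (h : ∀ j u β, 0 ≤ S.M j u β) (j : ℕ) (u : V) : 0 ≤ S.Pp j u :=
  prod_nonneg fun β _ => h j u β

lemma Core.own_le (C : S.Core Mk Br) (j : ℕ) (u : V) :
    ∏ c, S.M j u (j, c) ≤ (2 * P.S j) ^ P.m := by
  have h1 := P.one_le_S j
  rw [← prod_subset (subset_univ (P.nr S.cs j u))]
  · refine le_trans ?_ (pow_le_pow_right₀ (by linarith) (C.inv j u))
    rw [← prod_const]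
    refine prod_le_prod (fun _ _ => C.M0 _ _ _) ?_
    intro c _
    by_cases h : S.M j u (j, c) = 1
    · rw [h]; linarith
    · refine le_trans ?_ (C.e0 j c)
      refine single_le_sum (f := fun u => S.M j u (j, c)) (fun u _ => C.M0 _ _ _) ?_
      have := (C.na j u c h).2
      rw [P.d_comm] at this
      simpa [Par.ball] using this
  · intro c _ hc
    by_contra h
    have := C.na j u c h
    exact hc (P.mem_nr.2 ⟨this.1, by omega⟩)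

theorem Core.key (C : S.Core Mk Br) {j : ℕ} (hj : j < P.h) {u : V} {ω : Finset V}
    (hω : ω ∈ P.T j u) :
    ∏ v ∈ ω, S.Pp j v ≤ P.N j ^ (2 * P.m) * 2 ^ (2 * P.m * P.m) * (2 * P.S (j + 1)) ^ P.m *
      (2 * P.th (j + 1)) := by
  rw [← C.i2 j hj u ω hω]
  have h1 : ∏ s, S.b j u s ω ≤ ∏ s, S.G j u s :=
    prod_le_prod (fun s _ => C.b0 _ _ _ _) fun s _ =>
      single_le_sum (f := fun ω => S.b j u s ω) (fun ω _ => C.b0 _ _ _ _) hω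
  refine le_trans h1 (le_trans (C.i1 j hj u) ?_)
  rw [P.prod_Bs hj, mul_assoc _ (_ ^ P.m)]
  have hN := P.N_nonneg j
  have hS := P.one_le_S (j + 1)
  refine mul_le_mul ?_ ?_ (mul_nonneg (prod_nonneg fun _ _ => C.M0 _ _ _)
    (prod_nonneg fun _ _ => C.M0 _ _ _)) (by positivity)
  · exact mul_le_mul_of_nonneg_left
      (pow_le_pow_right₀ (by norm_num) (Nat.mul_le_mul_left _ (C.inv _ _))) (by positivity)
  · exact mul_le_mul (C.own_le _ _) (C.ub (j + 1) (by omega) hj u)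
      (prod_nonneg fun _ _ => C.M0 _ _ _) (by positivity)

lemma upd_Pp (j : ℕ) (u : V) :
    (S.upd χ).Pp j u = S.Pp j u * ∏ β ∈ P.Bs (j + 1), S.rho χ β j u := by
  simp only [Pp, upd, prod_mul_distrib]

lemma upd_Pp_cov (h1 : ∀ j u β, β ∉ P.O S.cs j u → χ j u β = 1) {j : ℕ} (hj : j ≤ P.h) {u c : V}
    (hc : c ∈ S.cs j) (hd : P.d u c ≤ 2 * P.lam j) : (S.upd χ).Pp j u = S.Pp j u := by
  rw [upd_Pp, prod_eq_one, mul_one]
  intro β hβ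
  refine rho_inact h1 fun h => ?_
  have := P.O_cov hj hc hd h
  have := (Par.mem_Bs.1 hβ).1
  omega

lemma upd_Pp_le (hb : S.B0) (hM : ∀ j u β, 0 ≤ S.M j u β) (h0 : ∀ j u β, 0 ≤ χ j u β)
    (h1 : ∀ j u β, χ j u β ≤ 1) (j : ℕ) (u : V) : (S.upd χ).Pp j u ≤ S.Pp j u := by
  rw [upd_Pp]
  exact mul_le_of_le_one_right (Pp_nonneg hM _ _)
    (prod_le_one (fun _ _ => rho_nonneg hb h0 _ _ _) fun _ _ => rho_le_one hb h0 h1 _ _ _)

lemma upd_Pp_zero {u : V} (h : ∀ β, χ 0 u β = 1) : (S.upd χ).Pp 0 u = S.Pp 0 u := by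
  rw [upd_Pp, prod_eq_one (f := fun β => S.rho χ β 0 u) (fun β _ => h β), mul_one]

lemma upd_I1 (hb : S.B0) (hi : S.Inj) (hM : ∀ j u β, 0 ≤ S.M j u β) (h0 : ∀ j u β, 0 ≤ χ j u β)
    (h1 : ∀ j u β, β ∉ P.O S.cs j u → χ j u β = 1) {c c' : ℕ → V → ℝ} (hI : S.I1 c)
    (hc : ∀ j < P.h, ∀ u, c j u ≤ c' j u * ∏ β ∈ P.O S.cs (j + 1) u, χ (j + 1) u β) :
    (S.upd χ).I1 c' := by
  intro j hj u
  have e1 : ∏ s, (S.upd χ).G j u s =
      (∏ s, S.G j u s) * ∏ β ∈ P.O S.cs (j + 1) u, S.rat (S.rho χ β j) β j u := by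
    rw [prod_congr rfl fun s _ => upd_G' hb hi j u s, prod_mul_distrib, prod_fiberwise]
  have e2 : ∏ β ∈ P.Bs (j + 1), (S.upd χ).M (j + 1) u β =
      (∏ β ∈ P.Bs (j + 1), S.M (j + 1) u β) * ((∏ β ∈ P.O S.cs (j + 1) u, χ (j + 1) u β) *
        ∏ β ∈ P.O S.cs (j + 1) u, S.rat (S.rho χ β j) β j u) := by
    simp only [upd, prod_mul_distrib]
    rw [← prod_subset (P.O_sub S.cs hj u) fun β _ h => rho_inact h1 h, ← prod_mul_distrib]
    rfl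
  have hr : 0 ≤ ∏ β ∈ P.O S.cs (j + 1) u, S.rat (S.rho χ β j) β j u :=
    prod_nonneg fun β _ => rat_nonneg hb (rho_nonneg hb h0 β j) _ _ _
  have hm : 0 ≤ ∏ β ∈ P.Bs (j + 1), S.M (j + 1) u β := prod_nonneg fun _ _ => hM _ _ _
  rw [e1, e2]
  have h2 := le_trans (hI j hj u) (mul_le_mul_of_nonneg_right (hc j hj u) hm)
  have h3 := mul_le_mul_of_nonneg_right h2 hr
  refine le_trans h3 (le_of_eq ?_)
  ring

theorem Core.upd (C : S.Core Mk Br) (h0 : ∀ j u β, 0 ≤ χ j u β)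
    (h1 : ∀ j u β, β ∉ P.O S.cs j u → χ j u β = 1) {Mk' Br' : Finset V}
    (hi1 : (S.upd χ).I1 (cst P S.cs))
    (he0 : ∀ j c, ∑ u ∈ P.ball j c, (S.upd χ).M j u (j, c) ≤ 2 * P.S j)
    (hub : ∀ j, 1 ≤ j → j ≤ P.h → ∀ u, (S.upd χ).Pp j u ≤ 2 * P.th j)
    (hmk : ∀ v ∈ Mk', 2 ≤ (S.upd χ).Pp 0 v)
    (hfr : ∀ v, v ∉ Mk' → v ∉ Br' → 1 ≤ (S.upd χ).Pp 0 v) : (S.upd χ).Core Mk' Br' where
  top := C.top
  bot := C.bot
  inv := C.inv
  inj := C.inj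
  b0 := upd_B0 C.b0 h0
  M0 := fun j u β => mul_nonneg (C.M0 j u β) (rho_nonneg C.b0 h0 β j u)
  i1 := hi1
  i2 := by
    intro j hj u ω hω
    have e1 : ∏ s, (S.upd χ).b j u s ω = (∏ s, S.b j u s ω) *
        ∏ β ∈ P.O S.cs (j + 1) u, ∏ v ∈ ω, S.rho χ β j v := by
      simp only [St.upd]
      rw [prod_mul_distrib, prod_fiberwise]
    rw [e1, C.i2 j hj u ω hω, prod_congr rfl fun v _ => upd_Pp j v, prod_mul_distrib,
      prod_comm (s := ω)]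
    congr 1
    refine prod_subset (P.O_sub S.cs hj u) fun β hβ h => prod_eq_one fun v hv => ?_
    refine rho_inact h1 fun h' => h (P.O_nest h' ?_ (P.T_near j u ω hω v hv))
    exact (Par.mem_Bs.1 hβ).1
  na := by
    intro j u c h
    by_cases h2 : S.M j u (j, c) = 1
    · refine P.O_own C.top ?_
      by_contra h3
      apply h
      simp only [St.upd]
      rw [h2, rho_inact h1 h3, mul_one]
    · exact C.na j u c h2
  e0 := he0
  sep := C.sep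
  big := by
    intro j hj c hc
    rw [upd_Pp_cov h1 hj.le hc (by simp [P.d_self])]
    exact C.big j hj c hc
  ub := hub
  mkr := hmk
  fr := hfr

lemma Core.upd_e0 (C : S.Core Mk Br) (h0 : ∀ j u β, 0 ≤ χ j u β) (h1 : ∀ j u β, χ j u β ≤ 1)
    (j : ℕ) (c : V) : ∑ u ∈ P.ball j c, (S.upd χ).M j u (j, c) ≤ 2 * P.S j :=
  le_trans (sum_le_sum fun _ _ => mul_le_of_le_one_right (C.M0 _ _ _) (rho_le_one C.b0 h0 h1 _ _ _))
    (C.e0 j c)

end St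

end Pool.Agent.P.MP_d36d9e_co.X
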