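import Pool.Agent.P.MP_d36d9e_co.X3

/-!
Multi-scale boards: moves, events and the invariant of a full round.
-/

namespace Pool.Agent.P.MP_d36d9e_co.X

open Finset

variable {V : Type} [Fintype V] [DecidableEq V]

namespace St

variable {P : Par V} {S : St P} {Mk Br : Finset V}

lemma half_nonneg (hb : S.B0) (z : V) {ε : ℝ} (h1 : -1 ≤ ε) (j : ℕ) (u : V) (β : ℕ × V) :
    0 ≤ S.half z ε j u β := by
  cases j with
  | zero =>
    have := p_nonneg hb β z 0 u
    have := p_le_one hb β z 0 u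
    rw [half]; nlinarith
  | succ j => exact zero_le_one

lemma half_le_one (hb : S.B0) (z : V) (j : ℕ) (u : V) (β : ℕ × V) :
    S.half z (-1) j u β ≤ 1 := by
  cases j with
  | zero =>
    have := p_nonneg hb β z 0 u
    rw [half]; linarith
  | succ j => exact le_rfl

lemma half_ne {z v : V} (h : v ≠ z) (ε : ℝ) (β : ℕ × V) : S.half z ε 0 v β = 1 := by
  rw [half, p, if_neg (fun h' => h h'.1), mul_zero, add_zero]

lemma half_I1 (C : S.Core Mk Br) (z : V) {ε : ℝ} (h1 : -1 ≤ ε) :
    (S.upd (S.half z ε)).I1 (cst P S.cs) := by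
  refine upd_I1 C.b0 C.inj C.M0 (half_nonneg C.b0 z h1) (half_inact z ε) C.i1 ?_
  intro j _ u
  rw [prod_eq_one (f := fun β => S.half z ε (j + 1) u β) (fun _ _ => rfl), mul_one]

lemma half_prod (hb : S.B0) (z : V) (j : ℕ) (u : V) (B : Finset (ℕ × V)) :
    ∏ β ∈ B, S.rho (S.half z 1) β j u = 1 + ∑ β ∈ B, S.p β z j u := by
  rw [← prod_one_add]
  · exact prod_congr rfl fun β _ => by rw [rho_half hb, one_mul]
  · intro a _ b _ h1 h2
    rw [← (p_supp j u h1).2, ← (p_supp j u h2).2]

theorem maker (C : S.Core Mk Br) (hE : ∀ β, S.E Mk Br β) (hQ : S.Quiet) {z : V} (hz : z ∉ Mk)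
    (hz' : z ∉ Br) : (S.upd (S.half z 1)).Core (insert z Mk) Br ∧
      ∀ β, β ≠ P.A S.cs 0 z → (S.upd (S.half z 1)).E (insert z Mk) Br β := by
  have h0 := half_nonneg C.b0 z (ε := 1) (by norm_num)
  constructor
  · refine C.upd h0 (half_inact z 1) (half_I1 C z (by norm_num)) ?_ ?_ ?_ ?_
    · intro j c
      refine le_trans (le_of_eq ?_) (hE (j, c) z hz hz')
      refine sum_congr rfl fun u _ => ?_
      simp only [upd]
      rw [rho_half C.b0, one_mul]
    · intro j hj1 hj u
      by_cases hc : ∃ c ∈ S.cs j, P.d u c ≤ 2 * P.lam j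
      · obtain ⟨c, hc1, hc2⟩ := hc
        rw [upd_Pp_cov (half_inact z 1) hj hc1 hc2]
        exact C.ub j hj1 hj u
      · push Not at hc
        have h1 := hQ j hj1 hj u hc
        rw [upd_Pp, half_prod C.b0]
        have h2 : ∑ β ∈ P.Bs (j + 1), S.p β z j u ≤ 1 := by
          refine sum_le_one_of _ _ ?_ fun β _ => p_le_one C.b0 _ _ _ _
          intro a _ b _ h1 h2
          rw [← (p_supp j u h1).2, ← (p_supp j u h2).2]
        have h3 := Pp_nonneg C.M0 j u
        nlinarith
    · intro v hv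
      by_cases hvz : v = z
      · subst hvz
        rw [upd_Pp, half_prod C.b0]
        have h1 := C.fr v hz hz'
        have h2 : P.A S.cs 0 v ∈ P.Bs (0 + 1) := by
          refine Par.mem_Bs.2 ⟨?_, P.A_le _ _ _⟩
          by_contra h3
          have := (P.A_own C.top (j := 0) (x := v) (by omega)).1
          rw [C.bot] at this; simp at this
        have h3 := single_le_sum (f := fun β => S.p β v 0 v)
          (fun β _ => p_nonneg C.b0 β v 0 v) h2
        have h4 : S.p (P.A S.cs 0 v) v 0 v = 1 := by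
          rw [p, if_pos ⟨rfl, P.mem_O_zero.2 rfl⟩]
        simp only [h4] at h3
        nlinarith
      · rw [upd_Pp_zero (half_ne hvz 1)]
        exact C.mkr v ((mem_insert.1 hv).resolve_left hvz)
    · intro v hv hv'
      rw [mem_insert, not_or] at hv
      rw [upd_Pp_zero (half_ne hv.1 1)]
      exact C.fr v hv.2 hv'
  · intro β hβ x hx hx'
    rw [mem_insert, not_or] at hx
    have hr : ∀ j u, S.rho (S.half z 1) β j u = 1 := by
      intro j u
      rw [rho_half C.b0]
      by_cases h : S.p β z j u = 0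
      · rw [h, mul_zero, add_zero]
      · exact absurd (p_supp j u h).2.symm hβ
    refine le_trans (le_of_eq ?_) (hE β x hx.2 hx')
    refine sum_congr rfl fun u _ => ?_
    rw [upd_p_same C.inj x (fun _ _ => True) (fun _ _ _ _ _ _ _ => trivial)
      (fun j u _ => hr j u) _ _ trivial]
    simp only [upd]
    rw [hr, mul_one]

theorem breaker (C : S.Core Mk Br) {β0 : ℕ × V} (hE : ∀ β, β ≠ β0 → S.E Mk Br β) {y : V}
    (hy : y ∉ Mk)
    (hmax : ∀ x, x ∉ Mk → x ∉ Br →
      ∑ u ∈ P.ball β0.1 β0.2, S.M β0.1 u β0 * S.p β0 x β0.1 u ≤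
        ∑ u ∈ P.ball β0.1 β0.2, S.M β0.1 u β0 * S.p β0 y β0.1 u) :
    (S.upd (S.half y (-1))).Core Mk (insert y Br) ∧
      ∀ β, (S.upd (S.half y (-1))).E Mk (insert y Br) β := by
  have h0 := half_nonneg C.b0 y (ε := -1) le_rfl
  have h1 := half_le_one C.b0 y
  constructor
  · refine C.upd h0 (half_inact y _) (half_I1 C y le_rfl) (C.upd_e0 h0 h1) ?_ ?_ ?_
    · intro j hj1 hj u
      exact le_trans (upd_Pp_le C.b0 C.M0 h0 h1 j u) (C.ub j hj1 hj u)
    · intro v hv
      rw [upd_Pp_zero (half_ne (by rintro rfl; exact hy hv) _)]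
      exact C.mkr v hv
    · intro v hv hv'
      rw [mem_insert, not_or] at hv'
      rw [upd_Pp_zero (half_ne hv'.1 _)]
      exact C.fr v hv hv'.2
  · intro β x hx hx'
    rw [mem_insert, not_or] at hx'
    have key : ∑ u ∈ P.ball β.1 β.2, (S.upd (S.half y (-1))).M β.1 u β *
        (1 + (S.upd (S.half y (-1))).p β x β.1 u) ≤
        ∑ u ∈ P.ball β.1 β.2, S.M β.1 u β + ∑ u ∈ P.ball β.1 β.2, S.M β.1 u β * S.p β x β.1 u -
          ∑ u ∈ P.ball β.1 β.2, S.M β.1 u β * S.p β y β.1 u := by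
      rw [← sum_add_distrib, ← sum_sub_distrib]
      refine sum_le_sum fun u _ => ?_
      have e1 := upd_p_dec C.b0 C.inj h0 h1 β x β.1 u
      have e2 := rho_half C.b0 y (-1) β β.1 u
      have e3 := mul_le_mul_of_nonneg_left e1 (C.M0 β.1 u β)
      have e4 : (S.upd (S.half y (-1))).M β.1 u β = S.M β.1 u β * S.rho (S.half y (-1)) β β.1 u :=
        rfl
      rw [e4, mul_add, mul_one, mul_assoc]
      rw [e2] at e3 ⊢
      linarith
    refine le_trans key ?_
    by_cases hβ : β = β0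
    · subst hβ
      have := hmax x hx hx'.2
      have := C.e0 β.1 β.2
      linarith
    · have h2 := hE β hβ x hx hx'.2
      simp only [mul_add, mul_one, sum_add_distrib] at h2
      have h3 : 0 ≤ ∑ u ∈ P.ball β.1 β.2, S.M β.1 u β * S.p β y β.1 u :=
        sum_nonneg fun u _ => mul_nonneg (C.M0 _ _ _) (p_nonneg C.b0 _ _ _ _)
      linarith

lemma rho_le_chi {χ : ℕ → V → ℕ × V → ℝ} (hb : S.B0) (h0 : ∀ j u β, 0 ≤ χ j u β)
    (h1 : ∀ j u β, χ j u β ≤ 1) (β : ℕ × V) (j : ℕ) (u : V) : S.rho χ β j u ≤ χ j u β := by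
  cases j with
  | zero => exact le_rfl
  | succ j =>
    exact mul_le_of_le_one_right (h0 _ _ _)
      (rat_le_one hb (rho_nonneg hb h0 β j) (rho_le_one hb h0 h1 β j) _ _ _)

theorem event (C : S.Core Mk Br) (hE : ∀ β, S.E Mk Br β) {i : ℕ} (hi1 : 1 ≤ i) (hih : i ≤ P.h)
    {c : V} (hun : ∀ c' ∈ S.cs i, 2 * P.lam i < P.d c c') (hbig : P.th i ≤ S.Pp i c) :
    ∃ S' : St P, S'.Core Mk Br ∧ (∀ β, S'.E Mk Br β) ∧ S'.cs = Par.add S.cs i c := by
  have hi : i < P.h := by
    refine lt_of_le_of_ne hih ?_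
    rintro rfl
    have := hun P.v0 (by simp [C.top])
    have := P.diam c P.v0
    omega
  have hc : c ∉ S.cs i := fun h => by have := hun c h; rw [P.d_self] at this; omega
  have sep' : ∀ j, ∀ a ∈ Par.add S.cs i c j, ∀ b ∈ Par.add S.cs i c j, a ≠ b →
      2 * P.lam j < P.d a b := by
    intro j a ha b hb hne
    rcases Par.mem_add.1 ha with ha' | ⟨h1, h2⟩ <;> rcases Par.mem_add.1 hb with hb' | ⟨h3, h4⟩
    · exact C.sep j a ha' b hb' hne
    · rw [h3] at ha' ⊢; rw [h4, P.d_comm]; exact hun a ha'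
    · rw [h1] at hb' ⊢; rw [h2]; exact hun b hb'
    · exact absurd (h2.trans h4.symm) hne
  have big' : ∀ j < P.h, ∀ a ∈ Par.add S.cs i c j, P.th j ≤ S.Pp j a := by
    intro j hj a ha
    rcases Par.mem_add.1 ha with ha | ⟨rfl, rfl⟩
    · exact C.big j hj a ha
    · exact hbig
  have nr_sub : ∀ j u, P.nr S.cs j u ⊆ P.nr (Par.add S.cs i c) j u := by
    intro j u a ha
    rw [P.mem_nr] at ha ⊢
    exact ⟨Par.mem_add.2 (Or.inl ha.1), ha.2⟩
  have inv' : ∀ j u, (P.nr (Par.add S.cs i c) j u).card ≤ P.m := by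
    intro j u
    by_cases hj : j = i
    · subst hj
      by_contra hlt
      obtain ⟨ω, hω, hcard⟩ := exists_subset_card_eq
        (show P.m + 1 ≤ (P.nr (Par.add S.cs j c) j u).card by omega)
      have hT : ω ∈ P.T j u := P.T_full j hi1 u ω hcard (fun v hv => (P.mem_nr.1 (hω hv)).2)
        fun v hv w hw => sep' j v (P.mem_nr.1 (hω hv)).1 w (P.mem_nr.1 (hω hw)).1
      have h1 := lt_of_le_of_lt (C.key hi hT) (P.cond j hi1)
      rw [← hcard, ← prod_const] at h1
      refine absurd h1 (not_lt.2 (prod_le_prod (fun _ _ => le_trans zero_le_one (P.th_one j)) ?_))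
      exact fun v hv => big' j hi v (P.mem_nr.1 (hω hv)).1
    · refine le_trans (le_of_eq ?_) (C.inv j u)
      simp only [Par.nr, Par.add_ne c hj]
  choose g hg1 hg2 using fun j u => exists_reslot (P.O S.cs (j + 1) u)
    (P.O (Par.add S.cs i c) (j + 1) u) (S.sl j u) (C.inj j u) (P.O_card inv' (j + 1) u)
  let S1 : St P := ⟨Par.add S.cs i c, g, S.b, S.M⟩
  have hcst : ∀ j u, cst P S.cs j u ≤ cst P (Par.add S.cs i c) j u := by
    intro j u
    have := P.N_nonneg j
    exact mul_le_mul_of_nonneg_left (pow_le_pow_right₀ (by norm_num)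
      (Nat.mul_le_mul_left _ (card_le_card (nr_sub _ _)))) (by positivity)
  have C1 : S1.Core Mk Br :=
    { top := by rw [← C.top]; exact Par.add_ne c (by omega)
      bot := by rw [← C.bot]; exact Par.add_ne c (by omega)
      inv := inv'
      inj := hg1
      b0 := C.b0
      M0 := C.M0
      i1 := fun j hj u => le_trans (C.i1 j hj u)
        (mul_le_mul_of_nonneg_right (hcst j u) (prod_nonneg fun _ _ => C.M0 _ _ _))
      i2 := C.i2
      na := fun j u a h => ⟨Par.mem_add.2 (Or.inl (C.na j u a h).1), (C.na j u a h).2⟩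
      e0 := C.e0
      sep := sep'
      big := big'
      ub := C.ub
      mkr := C.mkr
      fr := C.fr }
  let χ : ℕ → V → ℕ × V → ℝ := fun j u β =>
    if j = i ∧ P.d u c ≤ 6 * P.lam i ∧ i < β.1 ∧ β ∈ P.O S1.cs j u then 1 / 2 else 1
  have h0 : ∀ j u β, 0 ≤ χ j u β := by
    intro j u β; simp only [χ]; split_ifs <;> norm_num
  have h1 : ∀ j u β, χ j u β ≤ 1 := by
    intro j u β; simp only [χ]; split_ifs <;> norm_num
  have h2 : ∀ j u β, β ∉ P.O S1.cs j u → χ j u β = 1 :=
    fun j u β h => if_neg fun h' => h h'.2.2.2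
  have h3 : ∀ u β, χ 0 u β = 1 := fun u β => if_neg fun h' => by omega
  refine ⟨S1.upd χ, C1.upd h0 h2 ?_ (C1.upd_e0 h0 h1) ?_ ?_ ?_, ?_, rfl⟩
  · refine upd_I1 C1.b0 C1.inj C1.M0 h0 h2 (c := cst P S.cs) C.i1 ?_
    intro j _ u
    by_cases hch : j + 1 = i ∧ P.d u c ≤ 6 * P.lam i
    · obtain ⟨rfl, hd⟩ := hch
      have e1 : (P.nr S.cs (j + 1) u).card + 1 ≤ (P.nr S1.cs (j + 1) u).card := by
        refine card_lt_card ⟨nr_sub _ _, fun h => hc (P.mem_nr.1 (h ?_)).1⟩
        exact P.mem_nr.2 ⟨Par.mem_add.2 (Or.inr ⟨rfl, rfl⟩), hd⟩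
      have e2 : (1 / 2 : ℝ) ^ (2 * P.m) ≤ ∏ β ∈ P.O S1.cs (j + 1) u, χ (j + 1) u β := by
        refine le_trans (pow_le_pow_of_le_one (by norm_num) (by norm_num)
          (P.O_card inv' (j + 1) u)) ?_
        rw [← prod_const]
        refine prod_le_prod (fun _ _ => by norm_num) fun β _ => ?_
        simp only [χ]; split_ifs <;> norm_num
      have hN := P.N_nonneg j
      have e3 : (2 : ℝ) ^ (2 * P.m * ((P.nr S.cs (j + 1) u).card + 1)) ≤
          2 ^ (2 * P.m * (P.nr S1.cs (j + 1) u).card) :=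
        pow_le_pow_right₀ (by norm_num) (Nat.mul_le_mul_left _ e1)
      refine le_trans (le_of_eq ?_) (mul_le_mul
        (mul_le_mul_of_nonneg_left e3 (pow_nonneg hN (2 * P.m))) e2
        (by positivity) (mul_nonneg (pow_nonneg hN _) (by positivity)))
      rw [cst, mul_add, mul_one, pow_add, mul_assoc (P.N j ^ _), mul_assoc ((2 : ℝ) ^ _), ← mul_pow]
      norm_num
    · rw [prod_eq_one (f := fun β => χ (j + 1) u β)
        (fun β _ => if_neg fun h' => hch ⟨h'.1, h'.2.1⟩), mul_one]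
      exact hcst j u
  · intro j hj1 hj u
    exact le_trans (upd_Pp_le C1.b0 C1.M0 h0 h1 j u) (C1.ub j hj1 hj u)
  · intro v hv
    rw [upd_Pp_zero (h3 v)]; exact C1.mkr v hv
  · intro v hv hv'
    rw [upd_Pp_zero (h3 v)]; exact C1.fr v hv hv'
  · intro β x hx hx'
    have hb' := upd_B0 C1.b0 h0
    have eM : ∀ j u, (S1.upd χ).M j u β = S.M j u β * S1.rho χ β j u := fun _ _ => rfl
    have hsl : ∀ j u, β ∈ P.O S.cs (j + 1) u → S1.sl j u β = S.sl j u β :=
      fun j u h => hg2 j u β h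
    by_cases hβ : β = (i, c)
    · subst hβ
      refine le_trans (sum_le_card_nsmul _ _ 2 fun u _ => ?_) ?_
      · have e1 : S.M i u (i, c) = 1 := by
          by_contra h; exact hc (C.na i u c h).1
        rw [eM]
        simp only
        rw [e1, one_mul]
        have := rho_le_one C1.b0 h0 h1 (i, c) i u
        have := p_le_one hb' (i, c) x i u
        have := p_nonneg hb' (i, c) x i u
        nlinarith
      · have := P.S_ball i c
        simp only [nsmul_eq_mul, Par.ball]
        linarith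
    · refine le_trans (sum_le_sum fun u _ => ?_) (hE β x hx hx')
      rw [eM, mul_assoc]
      refine mul_le_mul_of_nonneg_left ?_ (C.M0 _ _ _)
      by_cases hlow : β.1 ≤ i
      · have hr : ∀ j u, True → S1.rho χ β j u = 1 :=
          rho_eq_one (fun _ _ => True) (fun _ _ _ _ _ _ _ => trivial)
            fun j u _ => if_neg fun h' => by omega
        rw [hr _ _ trivial, one_mul,
          upd_p_same C1.inj x (fun _ _ => True) (fun _ _ _ _ _ _ _ => trivial) hr _ _ trivial,
          p_congr (S := S) (S' := S1) x (fun _ _ => True) (fun _ _ _ _ _ _ _ => trivial)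
            (fun j u _ => P.O_add_low S.cs hi c hlow hβ j u)
            (fun j u _ h ω _ => by rw [hsl j u h]) _ _ trivial]
      · refine event_up C.b0 C1.inj rfl h0 h1 x i (fun j u h => P.O_add_gt S.cs i c h u) hsl ?_
          β.1 (by omega) u
        intro w
        have hp := p_nonneg C.b0 β x i w
        have hp1 := p_le_one hb' β x i w
        have hp0 := p_nonneg hb' β x i w
        by_cases hd : P.d w c ≤ 6 * P.lam i
        · by_cases ha : β ∈ P.O S1.cs i w
          · have e1 := rho_le_chi C1.b0 h0 h1 β i w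
            have e2 : χ i w β = 1 / 2 := if_pos ⟨rfl, hd, by omega, ha⟩
            rw [e2] at e1
            nlinarith
          · have ha' : β ∉ P.O (S1.upd χ).cs i w := ha
            rw [p_inact x ha', rho_inact h2 ha]
            linarith
        · let Q : ℕ → V → Prop := fun l u =>
            l ≤ i ∧ 5 * P.lam i + P.D i + P.lam l < P.d u c + P.D l
          have hQ : ∀ j u, Q (j + 1) u → ∀ ω ∈ P.T j u, ∀ v ∈ ω, Q j v := by
            intro j u hq ω hω v hv
            have := P.T_near j u ω hω v hv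
            have := P.d_tri u v c
            simp only [Q, Par.D] at hq ⊢
            omega
          have hr : ∀ j u, Q j u → S1.rho χ β j u = 1 := by
            refine rho_eq_one Q hQ fun j u hq => if_neg fun h' => ?_
            obtain ⟨rfl, h4, -⟩ := h'
            simp only [Q] at hq
            omega
          have hw : Q i w := ⟨le_rfl, by omega⟩
          rw [hr _ _ hw, one_mul, upd_p_same C1.inj x Q hQ hr _ _ hw,
            p_congr (S := S) (S' := S1) x Q hQ
              (fun j u hq => by rw [show S1.cs = Par.add S.cs i c from rfl,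
                P.O_add_far S.cs i c hq.1 hq.2])
              (fun j u _ h ω _ => by rw [hsl j u h]) _ _ hw]

theorem settle (Mk Br : Finset V) : ∀ (n : ℕ) (S : St P),
    ((P.Bs 0).filter fun β => β.2 ∉ S.cs β.1).card < n → S.Core Mk Br → (∀ β, S.E Mk Br β) →
      ∃ S' : St P, S'.Core Mk Br ∧ (∀ β, S'.E Mk Br β) ∧ S'.Quiet := by
  intro n
  induction n with
  | zero => intro S h; omega
  | succ n ih =>
    intro S hn C hE
    by_cases hQ : S.Quiet
    · exact ⟨S, C, hE, hQ⟩
    · simp only [Quiet, not_forall, not_lt] at hQ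
      obtain ⟨i, hi1, hih, c, hun, hbig⟩ := hQ
      obtain ⟨S', C', hE', hcs⟩ := event C hE hi1 hih hun hbig
      refine ih S' (lt_of_lt_of_le (card_lt_card ⟨?_, fun h => ?_⟩) (Nat.lt_succ_iff.1 hn)) C' hE'
      · intro β hβ
        rw [mem_filter] at hβ ⊢
        refine ⟨hβ.1, fun h => hβ.2 ?_⟩
        rw [hcs]; exact Par.mem_add.2 (Or.inl h)
      · have hc : c ∉ S.cs i := fun h => by have := hun c h; rw [P.d_self] at this; omega
        have := h (mem_filter.2 ⟨Par.mem_Bs.2 ⟨Nat.zero_le _, hih⟩, hc⟩ :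
          (i, c) ∈ (P.Bs 0).filter fun β => β.2 ∉ S.cs β.1)
        refine (mem_filter.1 this).2 ?_
        rw [hcs]; exact Par.mem_add.2 (Or.inr ⟨rfl, rfl⟩)

/-- the initial state -/
def init (P : Par V) : St P where
  cs := fun j => if j = P.h then [P.v0] else []
  sl := fun _ _ _ => ⟨0, by have := P.m_pos; omega⟩
  b := fun _ _ _ _ => 1
  M := fun _ _ _ => 1

lemma init_A (P : Par V) : ∀ j x, P.A (init P).cs j x = (P.h, P.v0) := by
  refine P.down (fun j => ∀ x, P.A (init P).cs j x = (P.h, P.v0)) ?_ ?_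
  · intro j hj x; exact P.A_top _ hj x
  · intro j hj ih x
    rw [P.A_none hj, ih]
    rw [P.fnd_none]
    simp [init, hj.ne]

lemma init_mem {P : Par V} {j : ℕ} {c : V} (h : c ∈ (init P).cs j) : j = P.h ∧ c = P.v0 := by
  simp only [init] at h
  split_ifs at h with h1
  · exact ⟨h1, by simpa using h⟩
  · simp at h

lemma init_core (P : Par V) (Br : Finset V) : (init P).Core ∅ Br where
  top := by simp [init]
  bot := by have := P.h_pos; simp only [init]; rw [if_neg (by omega)]
  inv := by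
    intro j u
    refine le_trans (card_le_one.2 fun a ha b hb => ?_) P.m_pos
    rw [(init_mem (P.mem_nr.1 ha).1).2, (init_mem (P.mem_nr.1 hb).1).2]
  inj := by
    intro j u a ha b hb _
    obtain ⟨x, -, rfl⟩ := P.mem_O.1 ha
    obtain ⟨y, -, rfl⟩ := P.mem_O.1 hb
    rw [init_A, init_A]
  b0 := fun _ _ _ _ => zero_le_one
  M0 := fun _ _ _ => zero_le_one
  i1 := by
    intro j _ u
    have hN := P.N_nonneg j
    simp only [G, init, sum_const, nsmul_eq_mul, mul_one, prod_const, card_univ, Fintype.card_fin,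
      one_pow, cst]
    exact le_trans (pow_le_pow_left₀ (Nat.cast_nonneg _) (P.T_card j u) _)
      (le_mul_of_one_le_right (by positivity) (one_le_pow₀ (by norm_num)))
  i2 := by intro j _ u ω _; simp [init, Pp]
  na := fun _ _ _ h => absurd rfl h
  e0 := by
    intro j c
    have := P.S_ball j c
    have := P.one_le_S j
    simp only [init, sum_const, nsmul_eq_mul, mul_one, Par.ball]
    linarith
  sep := by
    intro j a ha b hb hne
    exact absurd ((init_mem ha).2.trans (init_mem hb).2.symm) hne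
  big := by intro j hj c hc; have := (init_mem hc).1; omega
  ub := by
    intro j _ _ u
    have := P.th_one j
    simp only [Pp, init, prod_const_one]
    linarith
  mkr := by simp
  fr := by intro v _ _; simp [Pp, init]

lemma init_E (P : Par V) (Br : Finset V) (β : ℕ × V) : (init P).E ∅ Br β := by
  intro x _ _
  refine le_trans (sum_le_card_nsmul _ _ 2 fun u _ => ?_) ?_
  · have := p_le_one (init_core P Br).b0 β x β.1 u
    have e : (init P).M β.1 u β = 1 := rfl
    rw [e]; linarith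
  · have := P.S_ball β.1 β.2
    simp only [nsmul_eq_mul, Par.ball]
    linarith

end St

/-- the abstract strategy: an invariant that survives every round -/
theorem Par.play (P : Par V) (n : ℕ)
    (h0 : P.N 0 ^ (2 * P.m) * 2 ^ (2 * P.m * P.m) * (2 * P.S 1) ^ P.m * (2 * P.th 1) < 2 ^ n) :
    ∃ Q : Finset V → Finset V → Prop, (∀ Br, Q ∅ Br) ∧ ∀ Mk Br x, Q Mk Br → x ∉ Mk → x ∉ Br →
      (∀ u, ∀ ω ∈ P.T 0 u, ω.card = n → ¬ ω ⊆ insert x Mk) ∧
      ((∃ y, y ∉ insert x Mk ∧ y ∉ Br) →
        ∃ y, y ∉ insert x Mk ∧ y ∉ Br ∧ Q (insert x Mk) (insert y Br)) := by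
  refine ⟨fun Mk Br => ∃ S : St P, S.Core Mk Br ∧ (∀ β, S.E Mk Br β) ∧ S.Quiet,
    fun Br => St.settle _ _ _ _ (Nat.lt_succ_self _) (St.init_core P Br) (St.init_E P Br), ?_⟩
  rintro Mk Br x ⟨S, C, hE, hQ⟩ hx hx'
  obtain ⟨C1, hE1⟩ := St.maker C hE hQ hx hx'
  constructor
  · intro u ω hω hcard hsub
    have h1 := lt_of_le_of_lt (C1.key P.h_pos hω) h0
    rw [← hcard, ← prod_const] at h1
    exact absurd h1 (not_lt.2 (prod_le_prod (fun _ _ => by norm_num) fun v hv => C1.mkr v (hsub hv)))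
  · rintro ⟨y0, hy0, hy0'⟩
    obtain ⟨y, hy, hmax⟩ := exists_max_image (univ.filter fun y => y ∉ insert x Mk ∧ y ∉ Br)
      (fun y => ∑ u ∈ P.ball (P.A S.cs 0 x).1 (P.A S.cs 0 x).2,
        (S.upd (S.half x 1)).M (P.A S.cs 0 x).1 u (P.A S.cs 0 x) *
          (S.upd (S.half x 1)).p (P.A S.cs 0 x) y (P.A S.cs 0 x).1 u)
      ⟨y0, mem_filter.2 ⟨mem_univ _, hy0, hy0'⟩⟩
    obtain ⟨-, hy1, hy2⟩ := mem_filter.1 hy
    obtain ⟨C2, hE2⟩ := St.breaker C1 hE1 hy1
      fun z hz hz' => hmax z (mem_filter.2 ⟨mem_univ _, hz, hz'⟩)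
    exact ⟨y, hy1, hy2, St.settle _ _ _ _ (Nat.lt_succ_self _) C2 hE2⟩

end Pool.Agent.P.MP_d36d9e_co.X
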