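import Pool.Agent.P.MP_d36d9e_co.X4
import Pool.Agent.P.MP_d36d9e_co.Strategy

/-!
Multi-scale boards: the incidence metric of a hypergraph and the final strategy.
-/

namespace Pool.Agent.P.MP_d36d9e_co.X

open Finset

/-- walks of length at most `r` -/
def Rel {α : Type} (nb : α → α → Prop) : ℕ → α → α → Prop
  | 0, x, y => x = y
  | r + 1, x, y => ∃ z, Rel nb r x z ∧ (z = y ∨ nb z y)

section
variable {α : Type} {nb : α → α → Prop}

lemma Rel_refl (x : α) : ∀ r, Rel nb r x x
  | 0 => rfl
  | r + 1 => ⟨x, Rel_refl x r, Or.inl rfl⟩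

lemma Rel_trans {r : ℕ} {x z : α} (h : Rel nb r x z) : ∀ s y, Rel nb s z y → Rel nb (r + s) x y
  | 0, y => fun h' => by cases h'; exact h
  | s + 1, y => fun ⟨w, h1, h2⟩ => ⟨w, Rel_trans h s w h1, h2⟩

lemma Rel_mono {r s : ℕ} {x y : α} (h : Rel nb r x y) (hrs : r ≤ s) : Rel nb s x y := by
  obtain ⟨k, rfl⟩ := Nat.exists_eq_add_of_le hrs
  exact Rel_trans h k y (Rel_refl y k)

lemma Rel_symm (hs : ∀ x y, nb x y → nb y x) : ∀ r x y, Rel nb r x y → Rel nb r y x
  | 0, _, _ => fun h => h.symm
  | r + 1, x, y => fun ⟨z, h1, h2⟩ => by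
    have h3 : Rel nb 1 y z := ⟨y, rfl, h2.imp Eq.symm (hs z y)⟩
    have := Rel_trans h3 r x (Rel_symm hs r x z h1)
    rwa [add_comm] at this

end

open Classical in
lemma exists_metric {α : Type} [Fintype α] [DecidableEq α] (nb : α → α → Prop)
    (hs : ∀ x y, nb x y → nb y x) (L : ℕ) (hL : 2 ≤ L)
    (h2 : ∀ x, (univ.filter fun y => Rel nb 2 x y).card ≤ L) :
    ∃ (d : α → α → ℕ) (C : ℕ), (∀ x, d x x = 0) ∧ (∀ x y, d x y = 0 → x = y) ∧
      (∀ x y, d x y = d y x) ∧ (∀ x y z, d x z ≤ d x y + d y z) ∧ (∀ x y, d x y ≤ C) ∧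
      (∀ x y, nb x y → d x y ≤ 1) ∧ ∀ x k, (univ.filter fun y => d x y ≤ 2 * k).card ≤ L ^ k := by
  set C := 2 * Fintype.card α + 1 with hC
  have hex : ∀ x y : α, ∃ r, Rel nb r x y ∨ C ≤ r := fun x y => ⟨C, Or.inr le_rfl⟩
  have hd : ∀ x y r, Nat.find (hex x y) ≤ r ↔ Rel nb r x y ∨ C ≤ r := by
    intro x y r
    refine ⟨fun h => ?_, fun h => Nat.find_le h⟩
    exact (Nat.find_spec (hex x y)).imp (fun h' => Rel_mono h' h) fun h' => le_trans h' h
  have hcount : ∀ x k, (univ.filter fun y => Rel nb (2 * k) x y).card ≤ L ^ k := by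
    intro x k
    induction k with
    | zero =>
      refine card_le_one.2 fun a ha b hb => ?_
      exact ((mem_filter.1 ha).2 : x = a).symm.trans (mem_filter.1 hb).2
    | succ k ih =>
      have : (univ.filter fun y => Rel nb (2 * (k + 1)) x y) ⊆
          (univ.filter fun y => Rel nb (2 * k) x y).biUnion
            fun z => univ.filter fun y => Rel nb 2 z y := by
        intro y hy
        obtain ⟨w, ⟨z, h1, h3⟩, h4⟩ := (mem_filter.1 hy).2
        exact mem_biUnion.2 ⟨z, mem_filter.2 ⟨mem_univ _, h1⟩,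
          mem_filter.2 ⟨mem_univ _, w, ⟨z, rfl, h3⟩, h4⟩⟩
      refine le_trans (card_le_card this) (le_trans (card_biUnion_le_card_mul _ _ L fun z _ => h2 z) ?_)
      rw [pow_succ]; exact Nat.mul_le_mul_right _ ih
  refine ⟨fun x y => Nat.find (hex x y), C, ?_, ?_, ?_, ?_, ?_, ?_, ?_⟩
  · intro x; exact Nat.le_zero.1 ((hd x x 0).2 (Or.inl rfl))
  · intro x y h
    rcases (hd x y 0).1 (le_of_eq h) with h | h
    · exact h
    · omega
  · intro x y
    exact le_antisymm ((hd x y _).2 (((hd y x _).1 le_rfl).imp_left (Rel_symm hs _ _ _)))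
      ((hd y x _).2 (((hd x y _).1 le_rfl).imp_left (Rel_symm hs _ _ _)))
  · intro x y z
    rw [hd]
    rcases (hd x y _).1 le_rfl with h1 | h1
    · rcases (hd y z _).1 le_rfl with h3 | h3
      · exact Or.inl (Rel_trans h1 _ _ h3)
      · exact Or.inr (le_trans h3 (Nat.le_add_left _ _))
    · exact Or.inr (le_trans h1 (Nat.le_add_right _ _))
  · intro x y; exact (hd x y C).2 (Or.inr le_rfl)
  · intro x y h; exact (hd x y 1).2 (Or.inl ⟨x, rfl, Or.inr h⟩)
  · intro x k
    by_cases hk : C ≤ 2 * k
    · refine le_trans (card_le_univ _) ?_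
      have h1 : k < 2 ^ k := Nat.lt_two_pow_self
      have h3 : 2 ^ k ≤ L ^ k := Nat.pow_le_pow_left hL k
      omega
    · refine le_trans (card_le_card fun y hy => ?_) (hcount x k)
      exact mem_filter.2 ⟨mem_univ _, ((hd x y _).1 (mem_filter.1 hy).2).resolve_right hk⟩

/-- scales -/
def lam : ℕ → ℕ
  | 0 => 0
  | j + 1 => 12 ^ j

/-- the game on a finite metric space with one winning set attached to some points -/
theorem metric_play {α : Type} [Fintype α] [DecidableEq α] [Nonempty α] (d : α → α → ℕ) (C l n : ℕ)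
    (d_self : ∀ x, d x x = 0) (d_eq : ∀ x y, d x y = 0 → x = y) (d_comm : ∀ x y, d x y = d y x)
    (d_tri : ∀ x y z, d x z ≤ d x y + d y z) (diam : ∀ x y, d x y ≤ C)
    (hball : ∀ x k, (univ.filter fun y => d x y ≤ 2 * k).card ≤ (2 ^ l) ^ k)
    (e : α → Finset α) (he : ∀ u, ∀ v ∈ e u, d u v ≤ 1) (hl : 91 ≤ l) (hn : 369 * l + 1082 < n) :
    ∃ Q : Finset α → Finset α → Prop, (∀ Br, Q ∅ Br) ∧ ∀ Mk Br x, Q Mk Br → x ∉ Mk → x ∉ Br →
      (∀ u, (e u).card = n → ¬ e u ⊆ insert x Mk) ∧
      ((∃ y, y ∉ insert x Mk ∧ y ∉ Br) →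
        ∃ y, y ∉ insert x Mk ∧ y ∉ Br ∧ Q (insert x Mk) (insert y Br)) := by
  let T : ℕ → α → Finset (Finset α) := fun j u => match j with
    | 0 => {e u}
    | j + 1 => (powersetCard 24 (univ.filter fun v => d u v ≤ 6 * 12 ^ j)).filter
        fun ω => ∀ v ∈ ω, ∀ w ∈ ω, v ≠ w → 2 * 12 ^ j < d v w
  let P : Par α :=
    { d := d
      lam := lam
      h := C + 1
      v0 := Classical.arbitrary α
      m := 23
      T := T
      N := fun j => 2 ^ (72 * (lam j * l))
      S := fun j => 2 ^ (2 * (lam j * l))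
      th := fun j => 2 ^ (323 * (lam j * l))
      d_self := d_self
      d_eq := d_eq
      d_comm := d_comm
      d_tri := d_tri
      diam := fun x y => le_trans (diam x y) (Nat.lt_pow_self (by norm_num)).le
      lam0 := rfl
      lam_succ := by
        intro j
        cases j with
        | zero => simp [lam]
        | succ j => simp only [lam, pow_succ]; omega
      T_near := by
        intro j u ω hω v hv
        cases j with
        | zero =>
          simp only [T, mem_singleton] at hω
          subst hω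
          simpa [lam] using he u v hv
        | succ j =>
          have := (mem_filter.1 ((mem_powersetCard.1 (mem_filter.1 hω).1).1 hv)).2
          simp only [lam, pow_succ]; omega
      T_sep := by
        intro j u ω hω v hv w hw hne
        cases j with
        | zero =>
          have := mt (d_eq v w) hne
          simp only [lam]; omega
        | succ j => exact (mem_filter.1 hω).2 v hv w hw hne
      T_card := by
        intro j u
        cases j with
        | zero => simp [T, lam]
        | succ j =>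
          have h1 : (T (j + 1) u).card ≤ 2 ^ (72 * (lam (j + 1) * l)) := by
            refine le_trans (card_filter_le _ _) ?_
            rw [card_powersetCard]
            refine le_trans (Nat.choose_le_pow _ _) ?_
            have h2 := hball u (3 * 12 ^ j)
            rw [show 2 * (3 * 12 ^ j) = 6 * 12 ^ j by ring] at h2
            refine le_trans (Nat.pow_le_pow_left h2 24) (le_of_eq ?_)
            rw [← pow_mul, ← pow_mul, lam]; congr 1; ring
          exact_mod_cast h1
      T_full := by
        intro j hj u ω h1 h2 h3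
        cases j with
        | zero => omega
        | succ j =>
          exact mem_filter.2 ⟨mem_powersetCard.2
            ⟨fun v hv => mem_filter.2 ⟨mem_univ _, h2 v hv⟩, h1⟩, h3⟩
      S_ball := by
        intro j c
        have h2 := hball c (2 * lam j)
        rw [show 2 * (2 * lam j) = 4 * lam j by ring, ← pow_mul,
          show l * (2 * lam j) = 2 * (lam j * l) by ring] at h2
        exact_mod_cast h2
      th_one := fun j => one_le_pow₀ (by norm_num)
      m_pos := by norm_num
      h_pos := by omega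
      cond := by
        intro j hj
        cases j with
        | zero => omega
        | succ j =>
          have h1 : lam (j + 1 + 1) * l = 12 * (lam (j + 1) * l) := by simp only [lam]; ring
          have h2 : 91 ≤ lam (j + 1) * l :=
            le_trans hl (Nat.le_mul_of_pos_left _ (pow_pos (by norm_num) j))
          rw [h1]
          generalize lam (j + 1) * l = t at h2
          simp only [← pow_succ', ← pow_mul, ← pow_add]
          exact pow_lt_pow_right₀ (by norm_num) (by omega) }
  obtain ⟨Q, h1, h2⟩ := P.play n (by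
    simp only [P, lam, ← pow_succ', ← pow_mul, ← pow_add]
    exact pow_lt_pow_right₀ (by norm_num) (by omega))
  refine ⟨Q, h1, fun Mk Br x hq hx hx' => ⟨fun u hu => ?_, (h2 Mk Br x hq hx hx').2⟩⟩
  exact (h2 Mk Br x hq hx hx').1 u (e u) (mem_singleton_self _) hu

theorem second_player_exp {V : Type} [DecidableEq V] [Nonempty V] (F : Finset (Finset V))
    (n D l : ℕ) (hn1 : 1 ≤ n) (hcard : ∀ A ∈ F, A.card = n)
    (hdeg : ∀ x, (F.filter fun A => x ∈ A).card ≤ D) (hD : 1 ≤ D) (hL : 6 * (n * D) ≤ 2 ^ l)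
    (hl : 91 ≤ l) (hn : 369 * l + 1082 < n) :
    ∃ σ : List V → V, ∀ m : ℕ → V,
      (∀ k < (F.biUnion id).card, Odd k → m k = σ (List.ofFn fun i : Fin k => m i.val)) →
      (∀ k < (F.biUnion id).card, Even k → m k ∈ F.biUnion id ∧ ∀ i < k, m i ≠ m k) →
      (∀ k < (F.biUnion id).card, Odd k → m k ∈ F.biUnion id ∧ ∀ i < k, m i ≠ m k) ∧
      ∀ A ∈ F, ∃ k < (F.biUnion id).card, Odd k ∧ m k ∈ A := by
  classical
  rcases F.eq_empty_or_nonempty with rfl | ⟨A0, hA0⟩
  · exact ⟨fun _ => Classical.arbitrary V, fun m _ _ => by simp⟩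
  set W := F.biUnion id with hW
  haveI : Nonempty (↥W ⊕ ↥F) := ⟨Sum.inr ⟨A0, hA0⟩⟩
  let nb : ↥W ⊕ ↥F → ↥W ⊕ ↥F → Prop := fun a b => match a, b with
    | Sum.inl x, Sum.inr A => x.1 ∈ A.1
    | Sum.inr A, Sum.inl x => x.1 ∈ A.1
    | _, _ => False
  have hs : ∀ a b, nb a b → nb b a := by
    rintro (a | a) (b | b) h <;> exact h
  have c1 : ∀ x : ↥W, (univ.filter fun b => nb (Sum.inl x) b).card ≤ D := by
    intro x
    refine le_trans (card_le_card_of_injOn
      (Sum.elim (fun _ => ∅) fun A => A.1) ?_ ?_) (hdeg x.1)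
    · rintro (b | b) hb
      · exact absurd (mem_filter.1 hb).2 id
      · exact mem_filter.2 ⟨b.2, (mem_filter.1 hb).2⟩
    · rintro (a | a) ha (b | b) hb h
      · exact absurd (mem_filter.1 ha).2 id
      · exact absurd (mem_filter.1 ha).2 id
      · exact absurd (mem_filter.1 hb).2 id
      · exact congrArg Sum.inr (Subtype.ext h)
  have c2 : ∀ A : ↥F, (univ.filter fun b => nb (Sum.inr A) b).card = n := by
    intro A
    rw [← hcard A.1 A.2]
    refine card_bij (fun b _ => Sum.elim (fun x => x.1) (fun _ => Classical.arbitrary V) b)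
      ?_ ?_ ?_
    · rintro (b | b) hb
      · exact (mem_filter.1 hb).2
      · exact absurd (mem_filter.1 hb).2 id
    · rintro (a | a) ha (b | b) hb h
      · exact congrArg Sum.inl (Subtype.ext h)
      · exact absurd (mem_filter.1 hb).2 id
      · exact absurd (mem_filter.1 ha).2 id
      · exact absurd (mem_filter.1 ha).2 id
    · intro x hx
      exact ⟨Sum.inl ⟨x, mem_biUnion.2 ⟨A.1, A.2, hx⟩⟩, mem_filter.2 ⟨mem_univ _, hx⟩, rfl⟩
  have c3 : ∀ a, (univ.filter fun b => Rel nb 2 a b).card ≤ 2 ^ l := by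
    intro a
    have h1 : (univ.filter fun b => Rel nb 2 a b) ⊆
        insert a ((univ.filter fun b => nb a b) ∪
          (univ.filter fun b => nb a b).biUnion fun z => univ.filter fun b => nb z b) := by
      intro b hb
      obtain ⟨w, ⟨z, h1, h3⟩, h4⟩ := (mem_filter.1 hb).2
      cases (h1 : a = z)
      simp only [mem_insert, mem_union, mem_biUnion, mem_filter, mem_univ, true_and]
      rcases h3 with rfl | h3 <;> rcases h4 with rfl | h4
      · exact Or.inl rfl
      · exact Or.inr (Or.inl h4)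
      · exact Or.inr (Or.inl h3)
      · exact Or.inr (Or.inr ⟨w, h3, h4⟩)
    have h2 := le_trans (card_le_card h1)
      (le_trans (card_insert_le _ _) (Nat.succ_le_succ (card_union_le _ _)))
    have h3 : n ≤ n * D := Nat.le_mul_of_pos_right _ hD
    have h4 : D ≤ n * D := Nat.le_mul_of_pos_left _ hn1
    rcases a with x | A
    · have h5 := card_biUnion_le_card_mul (univ.filter fun b => nb (Sum.inl x) b)
        (fun z => univ.filter fun b => nb z b) n (by
          rintro (z | z) hz
          · exact absurd (mem_filter.1 hz).2 id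
          · exact (c2 z).le)
      have h6 := c1 x
      have h7 := Nat.mul_le_mul_right n h6
      rw [mul_comm D n] at h7
      omega
    · have h5 := card_biUnion_le_card_mul (univ.filter fun b => nb (Sum.inr A) b)
        (fun z => univ.filter fun b => nb z b) D (by
          rintro (z | z) hz
          · exact c1 z
          · exact absurd (mem_filter.1 hz).2 id)
      have h6 := c2 A
      rw [h6] at h5
      omega
  obtain ⟨d, C, d1, d2, d3, d4, d5, d6, d7⟩ := exists_metric nb hs (2 ^ l)
    (le_trans (by norm_num) (Nat.pow_le_pow_right (by norm_num) hl : 2 ^ 91 ≤ 2 ^ l))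
    (by convert c3)
  obtain ⟨Q, hQ0, hQ⟩ := metric_play d C l n d1 d2 d3 d4 d5 d7
    (fun a => univ.filter fun b => nb a b) (fun u v hv => d6 u v (mem_filter.1 hv).2) hl hn
  let mk : Prop → Finset V → Finset (↥W ⊕ ↥F) := fun t M =>
    univ.filter fun a => Sum.elim (fun x => x.1 ∈ M) (fun _ => t) a
  have mk_ins : ∀ t M (x : ↥W), mk t (insert x.1 M) = insert (Sum.inl x) (mk t M) := by
    intro t M x
    ext (a | a)
    · simp only [mk, mem_filter, mem_univ, true_and, Sum.elim_inl, mem_insert, Sum.inl.injEq]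
      exact or_congr_left Subtype.ext_iff.symm
    · simp [mk]
  have mk_mem : ∀ t M (x : ↥W), Sum.inl x ∈ mk t M ↔ x.1 ∈ M := by
    intro t M x; simp [mk]
  refine strategy_of_invariant F (fun A hA => card_pos.1 (by rw [hcard A hA]; omega))
    (fun M B => Q (mk False M) (mk True B)) ?_ ?_
  · have : mk False ∅ = ∅ := by
      ext (a | a) <;> simp [mk]
    simp only [this]; exact hQ0 _
  · intro M B x hq hxW hxM hxB
    obtain ⟨h1, h2⟩ := hQ _ _ (Sum.inl ⟨x, hxW⟩) hq (by rwa [mk_mem]) (by rwa [mk_mem])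
    rw [← mk_ins] at h1 h2
    constructor
    · intro A hA hsub
      refine h1 (Sum.inr ⟨A, hA⟩) (c2 _) ?_
      rintro (b | b) hb
      · exact (mk_mem _ _ _).2 (hsub (mem_filter.1 hb).2)
      · exact absurd (mem_filter.1 hb).2 id
    · rintro ⟨y, hyW, hy1, hy2⟩
      obtain ⟨a, ha1, ha2, ha3⟩ := h2 ⟨Sum.inl ⟨y, hyW⟩, by rwa [mk_mem], by rwa [mk_mem]⟩
      rcases a with a | a
      · rw [← mk_ins] at ha3
        exact ⟨a.1, a.2, by rwa [mk_mem] at ha1, by rwa [mk_mem] at ha2, ha3⟩
      · exact absurd (by simp [mk]) ha2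

end Pool.Agent.P.MP_d36d9e_co.X
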