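import Pool.Agent.P.MP_d36d9e_co.X4

/-!
Multi-scale boards driven from level one: lifted test functions.
-/

namespace Pool.Agent.P.MP_d36d9e_co.X

open Finset

variable {V : Type} [Fintype V] [DecidableEq V]

/-- functions supported within the first scale of a point -/
def Par.Near (P : Par V) (x : V) (g : V → ℝ) : Prop := ∀ u, g u ≠ 0 → P.d u x ≤ P.lam 1

namespace St

variable {P : Par V} (S : St P)

/-- the lift of a function on the locations of level one to level `k + 1` -/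
noncomputable def lf (β : ℕ × V) (g : V → ℝ) : ℕ → V → ℝ
  | 0, u => if β ∈ P.O S.cs 1 u then g u else 0
  | k + 1, u => if β ∈ P.O S.cs (k + 1 + 1) u then
      (∑ ω ∈ P.T (k + 1) u, S.b (k + 1) u (S.sl (k + 1) u β) ω * ∑ v ∈ ω, lf β g k v) /
        S.G (k + 1) u (S.sl (k + 1) u β) else 0

variable {S}

lemma lf_inact {β : ℕ × V} (g : V → ℝ) {k : ℕ} {u : V} (h : β ∉ P.O S.cs (k + 1) u) :
    S.lf β g k u = 0 := by
  cases k with
  | zero => unfold lf; rw [if_neg h]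
  | succ k => unfold lf; rw [if_neg h]

lemma lf_mono (hb : S.B0) (β : ℕ × V) {g g' : V → ℝ} (h : ∀ u, g u ≤ g' u) :
    ∀ k u, S.lf β g k u ≤ S.lf β g' k u
  | 0, u => by unfold lf; split_ifs; exacts [h u, le_rfl]
  | k + 1, u => by
    unfold lf
    split_ifs
    · refine div_le_div_of_nonneg_right (sum_le_sum fun ω _ => ?_) (G_nonneg hb _ _ _)
      exact mul_le_mul_of_nonneg_left (sum_le_sum fun v _ => lf_mono hb β h k v) (hb _ _ _ _)
    · exact le_rfl

lemma lf_add (β : ℕ × V) (g g' : V → ℝ) :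
    ∀ k u, S.lf β (fun u => g u + g' u) k u = S.lf β g k u + S.lf β g' k u
  | 0, u => by unfold lf; split_ifs <;> simp
  | k + 1, u => by
    unfold lf
    split_ifs
    · rw [← add_div, ← sum_add_distrib]
      congr 1
      refine sum_congr rfl fun ω _ => ?_
      rw [← mul_add, ← sum_add_distrib]
      congr 1
      exact sum_congr rfl fun v _ => lf_add β g g' k v
    · simp

lemma lf_smul (β : ℕ × V) (c : ℝ) (g : V → ℝ) :
    ∀ k u, S.lf β (fun u => c * g u) k u = c * S.lf β g k u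
  | 0, u => by unfold lf; split_ifs <;> simp
  | k + 1, u => by
    unfold lf
    split_ifs
    · rw [← mul_div_assoc, mul_sum]
      congr 1
      refine sum_congr rfl fun ω _ => ?_
      rw [sum_congr rfl fun v _ => lf_smul β c g k v, ← mul_sum]
      ring
    · simp

lemma lf_zero (β : ℕ × V) (k : ℕ) (u : V) : S.lf β (fun _ => 0) k u = 0 := by
  have := lf_smul (S := S) β 0 (fun _ => 0) k u
  simpa using this

lemma lf_nonneg (hb : S.B0) (β : ℕ × V) {g : V → ℝ} (h : ∀ u, 0 ≤ g u) (k : ℕ) (u : V) :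
    0 ≤ S.lf β g k u := by
  have := lf_mono hb β (g := fun _ => 0) h k u
  rwa [lf_zero] at this

lemma lf_supp {β : ℕ × V} {x : V} {g : V → ℝ} (hg : P.Near x g) :
    ∀ k u, S.lf β g k u ≠ 0 → P.d u x ≤ P.lam (k + 1)
  | 0, u => by
    intro h
    unfold lf at h
    split_ifs at h with h1
    · exact hg u h
    · exact absurd rfl h
  | k + 1, u => by
    intro h
    unfold lf at h
    split_ifs at h with h1
    · obtain ⟨ω, hω, h2⟩ := exists_ne_zero_of_sum_ne_zero (left_ne_zero_of_mul h)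
      obtain ⟨v, hv, h3⟩ := exists_ne_zero_of_sum_ne_zero (right_ne_zero_of_mul h2)
      have h4 := lf_supp hg k v h3
      have := P.T_near (k + 1) u ω hω v hv
      have := P.d_tri u v x
      omega
    · exact absurd rfl h

lemma lf_uniq {β : ℕ × V} {x : V} {g : V → ℝ} (hg : P.Near x g) {k : ℕ} {u : V} {ω : Finset V}
    (hω : ω ∈ P.T (k + 1) u) :
    ∀ v ∈ ω, ∀ w ∈ ω, S.lf β g k v ≠ 0 → S.lf β g k w ≠ 0 → v = w := by
  intro v hv w hw h1 h2
  by_contra hne
  have := P.T_sep (k + 1) u ω hω v hv w hw hne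
  have := lf_supp hg k v h1
  have := lf_supp hg k w h2
  have := P.d_tri v x w
  have := P.d_comm x w
  omega

lemma lf_le_one (hb : S.B0) (β : ℕ × V) {x : V} {g : V → ℝ} (hg : P.Near x g)
    (h1 : ∀ u, g u ≤ 1) : ∀ k u, S.lf β g k u ≤ 1
  | 0, u => by unfold lf; split_ifs; exacts [h1 u, zero_le_one]
  | k + 1, u => by
    unfold lf
    split_ifs
    · refine div_le_one_of_le₀ (sum_le_sum fun ω hω => ?_) (G_nonneg hb _ _ _)
      exact mul_le_of_le_one_right (hb _ _ _ _)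
        (sum_le_one_of _ _ (lf_uniq hg hω) fun v _ => lf_le_one hb β hg h1 k v)
    · exact zero_le_one

lemma lf_prod {β : ℕ × V} {x : V} {g : V → ℝ} (hg : P.Near x g) {k : ℕ} {u : V} {ω ω' : Finset V}
    (hω : ω ∈ P.T (k + 1) u) (hs : ω' ⊆ ω) :
    ∏ v ∈ ω', (1 + S.lf β g k v) = 1 + ∑ v ∈ ω', S.lf β g k v :=
  prod_one_add _ _ fun v hv w hw => lf_uniq hg hω v (hs hv) w (hs hw)

lemma lf_mul (hb : S.B0) {β : ℕ × V} (g : V → ℝ) {k : ℕ} {u : V}
    (h : β ∈ P.O S.cs (k + 1 + 1) u) :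
    S.G (k + 1) u (S.sl (k + 1) u β) * S.lf β g (k + 1) u =
      ∑ ω ∈ P.T (k + 1) u, S.b (k + 1) u (S.sl (k + 1) u β) ω * ∑ v ∈ ω, S.lf β g k v := by
  rw [lf, if_pos h]
  by_cases hG : S.G (k + 1) u (S.sl (k + 1) u β) = 0
  · rw [hG, zero_mul, sum_zero_of_G hb hG]
  · exact mul_div_cancel₀ _ hG

variable {χ : ℕ → V → ℕ × V → ℝ}

lemma upd_lf (hb : S.B0) (hi : S.Inj) (h0 : ∀ j u β, 0 ≤ χ j u β) {β : ℕ × V} (g : V → ℝ) {k : ℕ}
    {u : V} (h : β ∈ P.O S.cs (k + 1 + 1) u) :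
    S.G (k + 1) u (S.sl (k + 1) u β) *
        (S.rat (S.rho χ β (k + 1)) β (k + 1) u * (S.upd χ).lf β g (k + 1) u) =
      ∑ ω ∈ P.T (k + 1) u, S.b (k + 1) u (S.sl (k + 1) u β) ω *
        ((∏ v ∈ ω, S.rho χ β (k + 1) v) * ∑ v ∈ ω, (S.upd χ).lf β g k v) := by
  have e : ∑ ω ∈ P.T (k + 1) u, S.b (k + 1) u (S.sl (k + 1) u β) ω *
        ((∏ v ∈ ω, S.rho χ β (k + 1) v) * ∑ v ∈ ω, (S.upd χ).lf β g k v) =
      ∑ ω ∈ P.T (k + 1) u, (S.upd χ).b (k + 1) u (S.sl (k + 1) u β) ω *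
        ∑ v ∈ ω, (S.upd χ).lf β g k v :=
    sum_congr rfl fun ω _ => by rw [upd_b hi h, mul_assoc]
  rw [e, ← mul_assoc, ← upd_G hb hi h]
  exact lf_mul (S := S.upd χ) (upd_B0 hb h0) g h

lemma upd_lf_zero (hb : S.B0) (hi : S.Inj) {β : ℕ × V} (g : V → ℝ) {k : ℕ}
    {u : V} (h : β ∈ P.O S.cs (k + 1 + 1) u) (hG : S.G (k + 1) u (S.sl (k + 1) u β) = 0) :
    (S.upd χ).lf β g (k + 1) u = 0 := by
  have h2 : (S.upd χ).G (k + 1) u (S.sl (k + 1) u β) = 0 := by rw [upd_G hb hi h, hG, zero_mul]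
  have h' : β ∈ P.O (S.upd χ).cs (k + 1 + 1) u := h
  rw [lf, if_pos h']; exact div_eq_zero_iff.2 (Or.inr h2)

/-- lifts depend only on the activity and the slot weights of the board -/
lemma lf_congr {S S' : St P} {β : ℕ × V} {g g' : V → ℝ} (Q : ℕ → V → Prop)
    (hQ : ∀ j u, Q (j + 1) u → ∀ ω ∈ P.T j u, ∀ v ∈ ω, Q j v)
    (hO : ∀ j u, Q j u → (β ∈ P.O S'.cs j u ↔ β ∈ P.O S.cs j u))
    (hb : ∀ j u, Q (j + 1) u → β ∈ P.O S.cs (j + 1) u → ∀ ω ∈ P.T j u,
      S'.b j u (S'.sl j u β) ω = S.b j u (S.sl j u β) ω)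
    (hg : ∀ u, Q 1 u → g' u = g u) :
    ∀ k u, Q (k + 1) u → S'.lf β g' k u = S.lf β g k u
  | 0, u => fun h => by unfold lf; simp only [hO 1 u h, hg u h]
  | k + 1, u => fun h => by
    unfold lf
    by_cases h1 : β ∈ P.O S.cs (k + 1 + 1) u
    · rw [if_pos h1, if_pos ((hO _ _ h).2 h1)]
      have e1 : S'.G (k + 1) u (S'.sl (k + 1) u β) = S.G (k + 1) u (S.sl (k + 1) u β) :=
        sum_congr rfl fun ω hω => hb _ u h h1 ω hω
      rw [e1]
      congr 1
      refine sum_congr rfl fun ω hω => ?_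
      rw [hb _ u h h1 ω hω]
      congr 1
      exact sum_congr rfl fun v hv => lf_congr Q hQ hO hb hg k v (hQ _ u h ω hω v hv)
    · rw [if_neg h1, if_neg (fun h2 => h1 ((hO _ _ h).1 h2))]

lemma upd_lf_same (hi : S.Inj) {β : ℕ × V} (g : V → ℝ) (Q : ℕ → V → Prop)
    (hQ : ∀ j u, Q (j + 1) u → ∀ ω ∈ P.T j u, ∀ v ∈ ω, Q j v)
    (h1 : ∀ j u, Q j u → S.rho χ β j u = 1) :
    ∀ k u, Q (k + 1) u → (S.upd χ).lf β g k u = S.lf β g k u := by
  refine lf_congr Q hQ (fun _ _ _ => Iff.rfl) ?_ (fun _ _ => rfl)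
  intro j u hq h ω hω
  have := upd_b (χ := χ) hi h ω
  rw [prod_eq_one (fun v hv => h1 j v (hQ j u hq ω hω v hv)), mul_one] at this
  exact this

/-- factors of a step of the board `γ` at level one -/
noncomputable def stp (S : St P) (γ : ℕ × V) (e : V → ℝ) : ℕ → V → ℕ × V → ℝ :=
  fun j u β => if j = 1 ∧ β = γ ∧ γ ∈ P.O S.cs 1 u then 1 + e u else 1

lemma stp_nonneg {γ : ℕ × V} {e : V → ℝ} (h : ∀ u, -1 ≤ e u) (j : ℕ) (u : V) (β : ℕ × V) :
    0 ≤ S.stp γ e j u β := by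
  unfold stp; split_ifs
  · linarith [h u]
  · exact zero_le_one

lemma stp_inact (γ : ℕ × V) (e : V → ℝ) (j : ℕ) (u : V) (β : ℕ × V) (h : β ∉ P.O S.cs j u) :
    S.stp γ e j u β = 1 := by
  unfold stp
  rw [if_neg]
  rintro ⟨rfl, rfl, h'⟩
  exact h h'

lemma rat_zero (hT : ∀ u, P.T 0 u = ∅) (f : V → ℝ) (β : ℕ × V) (u : V) : S.rat f β 0 u = 1 := by
  unfold rat
  rw [if_neg]
  rintro ⟨-, h⟩
  apply h
  simp [G, hT]

lemma rho_one (hT : ∀ u, P.T 0 u = ∅) (β : ℕ × V) (u : V) : S.rho χ β 1 u = χ 1 u β := by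
  rw [rho, rat_zero hT, mul_one]

lemma rho_stp_ne {γ β : ℕ × V} (e : V → ℝ) (h : β ≠ γ) (j : ℕ) (u : V) :
    S.rho (S.stp γ e) β j u = 1 :=
  rho_eq_one (fun _ _ => True) (fun _ _ _ _ _ _ _ => trivial)
    (fun _ _ _ => if_neg fun h' => h h'.2.1) j u trivial

lemma rho_stp (hT : ∀ u, P.T 0 u = ∅) (hb : S.B0) (γ : ℕ × V) {z : V} {e : V → ℝ}
    (he : P.Near z e) : ∀ k u, S.rho (S.stp γ e) γ (k + 1) u = 1 + S.lf γ e k u
  | 0, u => by
    rw [rho_one hT]
    unfold stp lf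
    by_cases h : γ ∈ P.O S.cs 1 u
    · rw [if_pos ⟨rfl, rfl, h⟩, if_pos h]
    · rw [if_neg fun h' => h h'.2.2, if_neg h, add_zero]
  | k + 1, u => by
    rw [rho, show S.stp γ e (k + 1 + 1) u γ = 1 from if_neg fun h' => by omega, one_mul]
    by_cases h : γ ∈ P.O S.cs (k + 1 + 1) u
    · by_cases hG : S.G (k + 1) u (S.sl (k + 1) u γ) = 0
      · rw [rat, if_neg (fun h' => h'.2 hG), lf, if_pos h, hG, div_zero, add_zero]
      · refine mul_left_cancel₀ hG ?_
        rw [← rat_mul hb _ h, mul_add, lf_mul hb e h, mul_one, G, ← sum_add_distrib]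
        refine sum_congr rfl fun ω hω => ?_
        rw [prod_congr rfl fun v _ => rho_stp hT hb γ he k v, lf_prod he hω subset_rfl]; ring
    · rw [rat, if_neg (fun h' => h h'.1), lf_inact e h, add_zero]

/-- a step raises a weighted test by at most the positive part of the step -/
lemma stp_lf (hT : ∀ u, P.T 0 u = ∅) (hb : S.B0) (hi : S.Inj) (γ : ℕ × V) {z x : V}
    {e α g : V → ℝ} (he : P.Near z e) (hα : P.Near z α) (h1 : ∀ u, -1 ≤ e u) (h2 : ∀ u, e u ≤ α u)
    (h3 : ∀ u, 0 ≤ α u) (hg : P.Near x g) (g0 : ∀ u, 0 ≤ g u) (g1 : ∀ u, g u ≤ 1) :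
    ∀ k u, S.rho (S.stp γ e) γ (k + 1) u * (S.upd (S.stp γ e)).lf γ g k u ≤
      S.lf γ g k u + S.lf γ α k u
  | 0, u => by
    rw [rho_stp hT hb γ he]
    have e1 : (S.upd (S.stp γ e)).lf γ g 0 u = S.lf γ g 0 u := rfl
    rw [e1]
    unfold lf
    split_ifs
    · have := g0 u; have := g1 u; have := h2 u; have := h3 u
      nlinarith
    · simp
  | k + 1, u => by
    have h0 := stp_nonneg (S := S) (γ := γ) h1
    have hb' := upd_B0 hb h0
    have n1 := lf_nonneg hb γ g0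
    have n2 := lf_nonneg hb γ h3
    have n3 := lf_nonneg hb' γ g0
    by_cases h : γ ∈ P.O S.cs (k + 1 + 1) u
    · rw [rho, show S.stp γ e (k + 1 + 1) u γ = 1 from if_neg fun h' => by omega, one_mul]
      by_cases hG : S.G (k + 1) u (S.sl (k + 1) u γ) = 0
      · rw [upd_lf_zero hb hi g h hG, mul_zero]
        exact add_nonneg (n1 _ _) (n2 _ _)
      · have hGp : 0 < S.G (k + 1) u (S.sl (k + 1) u γ) :=
          lt_of_le_of_ne (G_nonneg hb _ _ _) (Ne.symm hG)
        refine le_of_mul_le_mul_left ?_ hGp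
        rw [upd_lf hb hi h0 g h, mul_add, lf_mul hb g h, lf_mul hb α h, ← sum_add_distrib]
        refine sum_le_sum fun ω hω => ?_
        rw [← mul_add]
        refine mul_le_mul_of_nonneg_left ?_ (hb _ _ _ _)
        by_cases hz : ∃ a ∈ ω, (S.upd (S.stp γ e)).lf γ g k a ≠ 0
        · obtain ⟨a, ha, hfa⟩ := hz
          have z0 : ∀ b ∈ ω, b ≠ a → (S.upd (S.stp γ e)).lf γ g k b = 0 := by
            intro b hb1 hne
            by_contra hfb
            exact hne (lf_uniq hg hω b hb1 a ha hfb hfa)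
          rw [sum_eq_single_of_mem a ha z0, ← mul_prod_erase _ _ ha,
            prod_congr rfl fun v _ => rho_stp hT hb γ he k v,
            lf_prod he hω (erase_subset _ _), ← add_sum_erase ω (S.lf γ α k) ha]
          have i1 := stp_lf hT hb hi γ he hα h1 h2 h3 hg g0 g1 k a
          have i2 : ∑ v ∈ ω.erase a, S.lf γ e k v ≤ ∑ v ∈ ω.erase a, S.lf γ α k v :=
            sum_le_sum fun v _ => lf_mono hb γ h2 k v
          have i3 : 0 ≤ ∑ v ∈ ω.erase a, S.lf γ α k v := sum_nonneg fun v _ => n2 _ _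
          have i4 : S.lf γ g k a ≤ ∑ v ∈ ω, S.lf γ g k v :=
            single_le_sum (fun v _ => n1 k v) ha
          have i5 : S.lf γ α k a * ∑ v ∈ ω.erase a, S.lf γ α k v = 0 := by
            by_cases h5 : S.lf γ α k a = 0
            · rw [h5, zero_mul]
            · rw [sum_eq_zero, mul_zero]
              intro v hv
              by_contra h6
              exact ne_of_mem_erase hv (lf_uniq hα hω v (mem_of_mem_erase hv) a ha h6 h5)
          have i6 := lf_le_one hb γ hg g1 k a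
          have i7 : 0 ≤ S.rho (S.stp γ e) γ (k + 1) a * (S.upd (S.stp γ e)).lf γ g k a :=
            mul_nonneg (rho_nonneg hb h0 _ _ _) (n3 _ _)
          have i8 := mul_le_mul_of_nonneg_left (add_le_add_left i2 1) i7
          have i9 := mul_le_mul_of_nonneg_right i1 (by linarith : 0 ≤ 1 + ∑ v ∈ ω.erase a,
            S.lf γ α k v)
          have i10 := mul_le_mul_of_nonneg_right i6 i3
          nlinarith
        · push Not at hz
          rw [sum_eq_zero hz, mul_zero]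
          exact add_nonneg (sum_nonneg fun v _ => n1 _ _) (sum_nonneg fun v _ => n2 _ _)
    · have h' : γ ∉ P.O (S.upd (S.stp γ e)).cs (k + 1 + 1) u := h
      rw [lf_inact g h', mul_zero]
      exact add_nonneg (n1 _ _) (n2 _ _)

/-- propagation of the event inequality to the higher levels -/
lemma event_lf {S S1 : St P} (hb : S.B0) (hi1 : S1.Inj) (hbb : S1.b = S.b)
    (h0 : ∀ j u β, 0 ≤ χ j u β) (h1 : ∀ j u β, χ j u β ≤ 1) {β : ℕ × V} {x x' : V}
    {g g' : V → ℝ} (hg : P.Near x g) (g0 : ∀ u, 0 ≤ g u) (hg' : P.Near x' g')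
    (g0' : ∀ u, 0 ≤ g' u) (i : ℕ)
    (hO : ∀ j u, i + 1 < j → P.O S1.cs j u = P.O S.cs j u)
    (hs : ∀ j u, β ∈ P.O S.cs (j + 1) u → S1.sl j u β = S.sl j u β)
    (base : ∀ u, S1.rho χ β (i + 1) u * (1 + (S1.upd χ).lf β g' i u) ≤ 1 + S.lf β g i u) :
    ∀ l, i ≤ l → ∀ u,
      S1.rho χ β (l + 1) u * (1 + (S1.upd χ).lf β g' l u) ≤ 1 + S.lf β g l u := by
  have hb1 : S1.B0 := fun j u s ω => by rw [hbb]; exact hb j u s ω
  have hp' := lf_nonneg (upd_B0 hb1 h0) β g0'
  have hp := lf_nonneg hb β g0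
  have hρ := rho_nonneg hb1 h0 β
  intro l hl
  induction l, hl using Nat.le_induction with
  | base => exact base
  | succ j hj ih =>
    intro u
    have hr := rat_nonneg hb1 (hρ (j + 1)) β (j + 1) u
    have key : S1.rat (S1.rho χ β (j + 1)) β (j + 1) u * (1 + (S1.upd χ).lf β g' (j + 1) u) ≤
        1 + S.lf β g (j + 1) u := by
      by_cases h : β ∈ P.O S.cs (j + 1 + 1) u
      · have h' : β ∈ P.O S1.cs (j + 1 + 1) u := by rw [hO _ _ (by omega)]; exact h
        have eG : S1.G (j + 1) u (S1.sl (j + 1) u β) = S.G (j + 1) u (S.sl (j + 1) u β) := by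
          rw [hs _ u h]; unfold G; rw [hbb]
        by_cases hG : S1.G (j + 1) u (S1.sl (j + 1) u β) = 0
        · rw [upd_lf_zero hb1 hi1 g' h' hG, rat, if_neg (fun h4 => h4.2 hG)]
          have := hp (j + 1) u
          linarith
        · have hGp : 0 < S1.G (j + 1) u (S1.sl (j + 1) u β) :=
            lt_of_le_of_ne (G_nonneg hb1 _ _ _) (Ne.symm hG)
          refine le_of_mul_le_mul_left ?_ hGp
          rw [mul_add, mul_add, mul_one, ← rat_mul hb1 _ h', upd_lf hb1 hi1 h0 g' h', mul_add,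
            mul_one, eG, lf_mul hb g h, G, ← sum_add_distrib, ← sum_add_distrib, hs _ u h, hbb]
          refine sum_le_sum fun ω hω => ?_
          have e1 := lf_prod (S := S) (β := β) hg hω subset_rfl
          have e2 := lf_prod (S := S1.upd χ) (β := β) hg' hω subset_rfl
          have e3 : (∏ v ∈ ω, S1.rho χ β (j + 1) v) * (1 + ∑ v ∈ ω, (S1.upd χ).lf β g' j v) ≤
              1 + ∑ v ∈ ω, S.lf β g j v := by
            rw [← e1, ← e2, ← prod_mul_distrib]
            exact prod_le_prod (fun v _ => mul_nonneg (hρ _ v) (by linarith [hp' j v]))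
              fun v _ => ih v
          have e4 := mul_le_mul_of_nonneg_left e3 (hb (j + 1) u (S.sl (j + 1) u β) ω)
          linarith
      · have h' : β ∉ P.O S1.cs (j + 1 + 1) u := by rw [hO _ _ (by omega)]; exact h
        have h'' : β ∉ P.O (S1.upd χ).cs (j + 1 + 1) u := h'
        rw [rat, if_neg (fun h4 => h' h4.1), lf_inact g' h'', lf_inact g h]; simp
    rw [rho, mul_assoc]
    exact le_trans (mul_le_of_le_one_left (mul_nonneg hr (by linarith [hp' (j + 1) u]))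
      (h1 _ _ _)) key

end St

end Pool.Agent.P.MP_d36d9e_co.X
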