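import Pool.Agent.P.MP_d36d9e_co.Y1

/-!
Multi-scale boards driven from level one: steps, events and the bound on the total gain.
-/

namespace Pool.Agent.P.MP_d36d9e_co.X

open Finset

variable {V : Type} [Fintype V] [DecidableEq V]

/-- the bound on the total gain of a location of level one -/
noncomputable def Par.Th (P : Par V) : ℝ :=
  2 ^ (2 * P.m * P.m) * ((2 * P.S 1) ^ P.m * (2 * P.th 1))

namespace St

variable {P : Par V}

/-- potential of a board -/
noncomputable def Ph (S : St P) (β : ℕ × V) : ℝ := ∑ u ∈ P.ball β.1 β.2, S.M β.1 u β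

/-- mass of a function in the potential of a board -/
noncomputable def Lv (S : St P) (β : ℕ × V) (g : V → ℝ) : ℝ :=
  ∑ u ∈ P.ball β.1 β.2, S.M β.1 u β * S.lf β g (β.1 - 1) u

/-- invariants of the boards together with the total gains -/
structure Good (S : St P) (τ : V → ℝ) : Prop where
  core : S.Core ∅ univ
  tb : ∀ w, τ w ≤ 2 ^ (2 * P.m * (P.nr S.cs 1 w).card) * ∏ β ∈ P.Bs 1, S.M 1 w β

/-- what an event keeps -/
def Ev (S S' : St P) : Prop :=
  ∀ β x g, 1 ≤ β.1 → P.Near x g → (∀ u, 0 ≤ g u) → (∀ u, g u ≤ 1) →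
    (P.A S'.cs 1 x = P.A S.cs 1 x → S.Ph β + S.Lv β g ≤ 2 * P.S β.1) → P.A S'.cs 1 x = β →
      S'.Ph β + S'.Lv β g ≤ 2 * P.S β.1

variable {S : St P} {τ : V → ℝ}

theorem Good.bound (G : S.Good τ) (w : V) : τ w ≤ P.Th := by
  have C := G.core
  refine le_trans (G.tb w) ?_
  rw [P.prod_Bs P.h_pos]
  have hS := P.one_le_S 1
  refine mul_le_mul (pow_le_pow_right₀ (by norm_num) (Nat.mul_le_mul_left _ (C.inv _ _))) ?_
    (mul_nonneg (prod_nonneg fun _ _ => C.M0 _ _ _) (prod_nonneg fun _ _ => C.M0 _ _ _))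
    (by positivity)
  exact mul_le_mul (C.own_le _ _) (C.ub 1 le_rfl P.h_pos w)
    (prod_nonneg fun _ _ => C.M0 _ _ _) (by positivity)

lemma Good.Ph_le (G : S.Good τ) (β : ℕ × V) : S.Ph β ≤ 2 * P.S β.1 := G.core.e0 β.1 β.2

lemma Good.Lv_mono (G : S.Good τ) (β : ℕ × V) {g g' : V → ℝ} (h : ∀ u, g u ≤ g' u) :
    S.Lv β g ≤ S.Lv β g' :=
  sum_le_sum fun u _ => mul_le_mul_of_nonneg_left (lf_mono G.core.b0 β h _ u) (G.core.M0 _ _ _)

lemma Lv_add (β : ℕ × V) (g g' : V → ℝ) :
    S.Lv β (fun u => g u + g' u) = S.Lv β g + S.Lv β g' := by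
  simp only [Lv, lf_add, mul_add, sum_add_distrib]

lemma Lv_smul (β : ℕ × V) (c : ℝ) (g : V → ℝ) : S.Lv β (fun u => c * g u) = c * S.Lv β g := by
  simp only [Lv, lf_smul, mul_sum]
  exact sum_congr rfl fun u _ => by ring

lemma Lv_zero (β : ℕ × V) : S.Lv β (fun _ => 0) = 0 := by
  simp only [Lv, lf_zero, mul_zero, sum_const_zero]

lemma Good.Lv_nonneg (G : S.Good τ) (β : ℕ × V) {g : V → ℝ} (h : ∀ u, 0 ≤ g u) :
    0 ≤ S.Lv β g := by
  have := G.Lv_mono β (g := fun _ => 0) h
  rwa [Lv_zero] at this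

lemma Lv_sum {ι : Type} [DecidableEq ι] (β : ℕ × V) (s : Finset ι) (g : ι → V → ℝ) :
    S.Lv β (fun u => ∑ i ∈ s, g i u) = ∑ i ∈ s, S.Lv β (g i) := by
  induction s using Finset.induction_on with
  | empty => simpa using Lv_zero β
  | insert a s ha ih =>
    simp only [sum_insert ha]
    rw [Lv_add, ih]

lemma I1_zero (hT : ∀ u, P.T 0 u = ∅) (u : V) : ∏ s, S.G 0 u s = 0 := by
  have := P.m_pos
  exact prod_eq_zero (mem_univ (⟨0, by omega⟩ : Fin (2 * P.m))) (by simp [G, hT])

theorem Good.step (hT : ∀ u, P.T 0 u = ∅) (G : S.Good τ) {γ : ℕ × V} {z : V} {e : V → ℝ}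
    (hγ : 1 ≤ γ.1) (he : P.Near z e) (h1 : ∀ u, -1 ≤ e u) (h2 : ∀ u, e u ≤ 1)
    (hQ : S.Quiet ∨ ∀ u, e u ≤ 0) (hΦ : S.Ph γ + S.Lv γ e ≤ 2 * P.S γ.1) :
    ∃ S' : St P, S'.Good (fun u => τ u * if γ ∈ P.O S.cs 1 u then 1 + e u else 1) ∧
      S'.cs = S.cs ∧
      (∀ β, β ≠ γ → S'.Ph β = S.Ph β ∧ ∀ g, S'.Lv β g = S.Lv β g) ∧
      S'.Ph γ = S.Ph γ + S.Lv γ e ∧
      ∀ x α g, P.Near z α → (∀ u, e u ≤ α u) → (∀ u, 0 ≤ α u) → P.Near x g → (∀ u, 0 ≤ g u) →
        (∀ u, g u ≤ 1) → S'.Lv γ g ≤ S.Lv γ g + S.Lv γ α := by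
  have C := G.core
  have h0 := stp_nonneg (S := S) (γ := γ) h1
  obtain ⟨k, hk⟩ : ∃ k, γ.1 = k + 1 := ⟨γ.1 - 1, by omega⟩
  have eM : ∀ j u β, (S.upd (S.stp γ e)).M j u β = S.M j u β * S.rho (S.stp γ e) β j u :=
    fun _ _ _ => rfl
  have hne : ∀ β, β ≠ γ → (S.upd (S.stp γ e)).Ph β = S.Ph β ∧
      ∀ g, (S.upd (S.stp γ e)).Lv β g = S.Lv β g := by
    intro β hβ
    refine ⟨sum_congr rfl fun u _ => by rw [eM, rho_stp_ne e hβ, mul_one], fun g => ?_⟩
    refine sum_congr rfl fun u _ => ?_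
    rw [eM, rho_stp_ne e hβ, mul_one, upd_lf_same C.inj g (fun _ _ => True)
      (fun _ _ _ _ _ _ _ => trivial) (fun j u _ => rho_stp_ne e hβ j u) _ _ trivial]
  have hPh : (S.upd (S.stp γ e)).Ph γ = S.Ph γ + S.Lv γ e := by
    simp only [Ph, Lv]
    rw [← sum_add_distrib]
    refine sum_congr rfl fun u _ => ?_
    rw [eM, hk, rho_stp hT C.b0 γ he, Nat.add_sub_cancel]; ring
  refine ⟨S.upd (S.stp γ e), ⟨C.upd h0 (stp_inact γ e) ?_ ?_ ?_ (by simp) (by simp), ?_⟩, rfl,
    hne, hPh, ?_⟩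
  · refine upd_I1 C.b0 C.inj C.M0 h0 (stp_inact γ e)
      (c := fun j u => if j = 0 then 0 else cst P S.cs j u) ?_ ?_
    · intro j hj u
      by_cases hj0 : j = 0
      · subst hj0; rw [I1_zero hT]; simp
      · simp only [if_neg hj0]; exact C.i1 j hj u
    · intro j hj u
      by_cases hj0 : j = 0
      · subst hj0
        have hN := P.N_nonneg 0
        simp only [if_true]
        exact mul_nonneg (by unfold cst; positivity) (prod_nonneg fun _ _ => h0 _ _ _)
      · simp only [if_neg hj0]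
        rw [prod_eq_one (f := fun β => S.stp γ e (j + 1) u β)
          (fun _ _ => if_neg fun h' => by omega), mul_one]
  · intro j c
    by_cases hβ : (j, c) = γ
    · subst hβ
      exact le_trans (le_of_eq hPh) hΦ
    · exact le_trans (le_of_eq (hne _ hβ).1) (C.e0 j c)
  · intro j hj1 hj u
    rcases hQ with hQ | hQ
    · by_cases hc : ∃ c ∈ S.cs j, P.d u c ≤ 2 * P.lam j
      · obtain ⟨c, hc1, hc2⟩ := hc
        rw [upd_Pp_cov (stp_inact γ e) hj hc1 hc2]
        exact C.ub j hj1 hj u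
      · push Not at hc
        have h3 := hQ j hj1 hj u hc
        obtain ⟨i, rfl⟩ : ∃ i, j = i + 1 := ⟨j - 1, by omega⟩
        have h4 : ∏ β ∈ P.Bs (i + 1 + 1), S.rho (S.stp γ e) β (i + 1) u ≤ 2 := by
          by_cases hm : γ ∈ P.Bs (i + 1 + 1)
          · rw [prod_eq_single_of_mem γ hm fun β _ hβ => rho_stp_ne e hβ _ _,
              rho_stp hT C.b0 γ he]
            linarith [lf_le_one C.b0 γ he h2 i u]
          · rw [prod_eq_one fun β hβ => rho_stp_ne e (by rintro rfl; exact hm hβ) _ _]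
            norm_num
        rw [upd_Pp]
        have h5 := Pp_nonneg C.M0 (i + 1) u
        nlinarith
    · refine le_trans (upd_Pp_le C.b0 C.M0 h0 ?_ j u) (C.ub j hj1 hj u)
      intro j u β
      unfold stp; split_ifs
      · linarith [hQ u]
      · exact le_rfl
  · intro w
    have e1 : ∏ β ∈ P.Bs 1, (S.upd (S.stp γ e)).M 1 w β = (∏ β ∈ P.Bs 1, S.M 1 w β) *
        if γ ∈ P.O S.cs 1 w then 1 + e w else 1 := by
      simp only [eM]
      rw [prod_mul_distrib]
      congr 1
      by_cases h : γ ∈ P.O S.cs 1 w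
      · rw [prod_eq_single_of_mem γ (P.O_sub S.cs P.h_pos w h)
          fun β _ hβ => rho_stp_ne e hβ _ _, rho_one hT, if_pos h]
        exact if_pos ⟨rfl, rfl, h⟩
      · rw [if_neg h]
        refine prod_eq_one fun β _ => ?_
        rw [rho_one hT]
        exact if_neg fun h' => h h'.2.2
    rw [e1, ← mul_assoc]
    refine mul_le_mul_of_nonneg_right (G.tb w) ?_
    split_ifs
    · linarith [h1 w]
    · exact zero_le_one
  · intro x α g hα h3 h4 hg g0 g1
    simp only [Lv]
    rw [← sum_add_distrib]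
    refine sum_le_sum fun u _ => ?_
    rw [eM, mul_assoc, ← mul_add, hk, Nat.add_sub_cancel]
    exact mul_le_mul_of_nonneg_left (stp_lf hT C.b0 C.inj γ he hα h1 h3 h4 hg g0 g1 k u)
      (C.M0 _ _ _)

theorem Good.event (hT : ∀ u, P.T 0 u = ∅) (G : S.Good τ) {i : ℕ} (hi1 : 1 ≤ i) (hih : i ≤ P.h)
    {c : V} (hun : ∀ c' ∈ S.cs i, 2 * P.lam i < P.d c c') (hbig : P.th i ≤ S.Pp i c) :
    ∃ S' : St P, S'.Good τ ∧ Ev S S' ∧ S'.cs = Par.add S.cs i c := by
  have C := G.core
  have hi : i < P.h := by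
    refine lt_of_le_of_ne hih ?_
    rintro rfl
    have := hun P.v0 (by simp [C.top])
    have := P.diam c P.v0
    omega
  have hc : c ∉ S.cs i := fun h => by have := hun c h; rw [P.d_self] at this; omega
  have sep' : ∀ j, ∀ a ∈ Par.add S.cs i c j, ∀ b ∈ Par.add S.cs i c j, a ≠ b →
      2 * P.lam j < P.d a b := by
    intro j a ha b hb hne
    rcases Par.mem_add.1 ha with ha' | ⟨h1, h2⟩ <;> rcases Par.mem_add.1 hb with hb' | ⟨h3, h4⟩
    · exact C.sep j a ha' b hb' hne
    · rw [h3] at ha' ⊢; rw [h4, P.d_comm]; exact hun a ha'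
    · rw [h1] at hb' ⊢; rw [h2]; exact hun b hb'
    · exact absurd (h2.trans h4.symm) hne
  have big' : ∀ j < P.h, ∀ a ∈ Par.add S.cs i c j, P.th j ≤ S.Pp j a := by
    intro j hj a ha
    rcases Par.mem_add.1 ha with ha | ⟨rfl, rfl⟩
    · exact C.big j hj a ha
    · exact hbig
  have nr_sub : ∀ j u, P.nr S.cs j u ⊆ P.nr (Par.add S.cs i c) j u := by
    intro j u a ha
    rw [P.mem_nr] at ha ⊢
    exact ⟨Par.mem_add.2 (Or.inl ha.1), ha.2⟩
  have inv' : ∀ j u, (P.nr (Par.add S.cs i c) j u).card ≤ P.m := by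
    intro j u
    by_cases hj : j = i
    · subst hj
      by_contra hlt
      obtain ⟨ω, hω, hcard⟩ := exists_subset_card_eq
        (show P.m + 1 ≤ (P.nr (Par.add S.cs j c) j u).card by omega)
      have hT' : ω ∈ P.T j u := P.T_full j hi1 u ω hcard (fun v hv => (P.mem_nr.1 (hω hv)).2)
        fun v hv w hw => sep' j v (P.mem_nr.1 (hω hv)).1 w (P.mem_nr.1 (hω hw)).1
      have h1 := lt_of_le_of_lt (C.key hi hT') (P.cond j hi1)
      rw [← hcard, ← prod_const] at h1
      refine absurd h1 (not_lt.2 (prod_le_prod (fun _ _ => le_trans zero_le_one (P.th_one j)) ?_))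
      exact fun v hv => big' j hi v (P.mem_nr.1 (hω hv)).1
    · refine le_trans (le_of_eq ?_) (C.inv j u)
      simp only [Par.nr, Par.add_ne c hj]
  choose g hg1 hg2 using fun j u => exists_reslot (P.O S.cs (j + 1) u)
    (P.O (Par.add S.cs i c) (j + 1) u) (S.sl j u) (C.inj j u) (P.O_card inv' (j + 1) u)
  let S1 : St P := ⟨Par.add S.cs i c, g, S.b, S.M⟩
  have hcst : ∀ j u, cst P S.cs j u ≤ cst P (Par.add S.cs i c) j u := by
    intro j u
    have := P.N_nonneg j
    exact mul_le_mul_of_nonneg_left (pow_le_pow_right₀ (by norm_num)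
      (Nat.mul_le_mul_left _ (card_le_card (nr_sub _ _)))) (by positivity)
  have C1 : S1.Core ∅ univ :=
    { top := by rw [← C.top]; exact Par.add_ne c (by omega)
      bot := by rw [← C.bot]; exact Par.add_ne c (by omega)
      inv := inv'
      inj := hg1
      b0 := C.b0
      M0 := C.M0
      i1 := fun j hj u => le_trans (C.i1 j hj u)
        (mul_le_mul_of_nonneg_right (hcst j u) (prod_nonneg fun _ _ => C.M0 _ _ _))
      i2 := C.i2
      na := fun j u a h => ⟨Par.mem_add.2 (Or.inl (C.na j u a h).1), (C.na j u a h).2⟩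
      e0 := C.e0
      sep := sep'
      big := big'
      ub := C.ub
      mkr := C.mkr
      fr := C.fr }
  let χ : ℕ → V → ℕ × V → ℝ := fun j u β =>
    if j = i ∧ P.d u c ≤ 6 * P.lam i ∧ i < β.1 ∧ β ∈ P.O S1.cs j u then 1 / 2 else 1
  have h0 : ∀ j u β, 0 ≤ χ j u β := by
    intro j u β; simp only [χ]; split_ifs <;> norm_num
  have h1 : ∀ j u β, χ j u β ≤ 1 := by
    intro j u β; simp only [χ]; split_ifs <;> norm_num
  have h2 : ∀ j u β, β ∉ P.O S1.cs j u → χ j u β = 1 :=
    fun j u β h => if_neg fun h' => h h'.2.2.2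
  have hpay : ∀ j u, (2 : ℝ) ^ (2 * P.m * (P.nr S.cs (j + 1) u).card) ≤
      2 ^ (2 * P.m * (P.nr S1.cs (j + 1) u).card) * ∏ β ∈ P.O S1.cs (j + 1) u, χ (j + 1) u β := by
    intro j u
    by_cases hch : j + 1 = i ∧ P.d u c ≤ 6 * P.lam i
    · obtain ⟨rfl, hd⟩ := hch
      have e1 : (P.nr S.cs (j + 1) u).card + 1 ≤ (P.nr S1.cs (j + 1) u).card := by
        refine card_lt_card ⟨nr_sub _ _, fun h => hc (P.mem_nr.1 (h ?_)).1⟩
        exact P.mem_nr.2 ⟨Par.mem_add.2 (Or.inr ⟨rfl, rfl⟩), hd⟩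
      have e2 : (1 / 2 : ℝ) ^ (2 * P.m) ≤ ∏ β ∈ P.O S1.cs (j + 1) u, χ (j + 1) u β := by
        refine le_trans (pow_le_pow_of_le_one (by norm_num) (by norm_num)
          (P.O_card inv' (j + 1) u)) ?_
        rw [← prod_const]
        refine prod_le_prod (fun _ _ => by norm_num) fun β _ => ?_
        simp only [χ]; split_ifs <;> norm_num
      have e3 : (2 : ℝ) ^ (2 * P.m * ((P.nr S.cs (j + 1) u).card + 1)) ≤
          2 ^ (2 * P.m * (P.nr S1.cs (j + 1) u).card) :=
        pow_le_pow_right₀ (by norm_num) (Nat.mul_le_mul_left _ e1)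
      refine le_trans (le_of_eq ?_) (mul_le_mul e3 e2 (by positivity) (by positivity))
      rw [mul_add, mul_one, pow_add, mul_assoc ((2 : ℝ) ^ _), ← mul_pow]
      norm_num
    · rw [prod_eq_one (f := fun β => χ (j + 1) u β)
        (fun β _ => if_neg fun h' => hch ⟨h'.1, h'.2.1⟩), mul_one]
      exact pow_le_pow_right₀ (by norm_num) (Nat.mul_le_mul_left _ (card_le_card (nr_sub _ _)))
  have eM : ∀ j u β, (S1.upd χ).M j u β = S.M j u β * S1.rho χ β j u := fun _ _ _ => rfl
  refine ⟨S1.upd χ, ⟨C1.upd h0 h2 ?_ (C1.upd_e0 h0 h1) ?_ (by simp) (by simp), ?_⟩, ?_, rfl⟩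
  · refine upd_I1 C1.b0 C1.inj C1.M0 h0 h2 (c := cst P S.cs) C.i1 ?_
    intro j _ u
    have hN := P.N_nonneg j
    have := mul_le_mul_of_nonneg_left (hpay j u) (pow_nonneg hN (2 * P.m))
    rw [← mul_assoc] at this
    exact this
  · intro j hj1 hj u
    exact le_trans (upd_Pp_le C1.b0 C1.M0 h0 h1 j u) (C1.ub j hj1 hj u)
  · intro w
    have e1 : ∏ β ∈ P.Bs 1, (S1.upd χ).M 1 w β = (∏ β ∈ P.O S1.cs (0 + 1) w, χ (0 + 1) w β) *
        ∏ β ∈ P.Bs 1, S.M 1 w β := by
      simp only [eM]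
      rw [prod_mul_distrib, mul_comm, prod_congr rfl fun β _ => rho_one (S := S1) hT β w]
      congr 1
      exact (prod_subset (P.O_sub S1.cs P.h_pos w) fun β _ h => h2 _ _ _ h).symm
    rw [e1, ← mul_assoc]
    exact le_trans (G.tb w)
      (mul_le_mul_of_nonneg_right (hpay 0 w) (prod_nonneg fun _ _ => C.M0 _ _ _))
  · intro β x f hβ1 hf f0 f1 hold hown
    have hb' := upd_B0 C1.b0 h0
    have hsl : ∀ j u, β ∈ P.O S.cs (j + 1) u → S1.sl j u β = S.sl j u β :=
      fun j u h => hg2 j u β h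
    have hown' : P.A (Par.add S.cs i c) 1 x = β := hown
    have hold' : P.A (Par.add S.cs i c) 1 x = P.A S.cs 1 x → S.Ph β + S.Lv β f ≤ 2 * P.S β.1 :=
      hold
    have form : ∀ (R : St P) (f : V → ℝ), R.Ph β + R.Lv β f =
        ∑ u ∈ P.ball β.1 β.2, R.M β.1 u β * (1 + R.lf β f (β.1 - 1) u) := by
      intro R f
      simp only [Ph, Lv, mul_add, mul_one, sum_add_distrib]
    by_cases hβ : β = (i, c)
    · subst hβ
      rw [form]
      refine le_trans (sum_le_card_nsmul _ _ 2 fun u _ => ?_) ?_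
      · have e1 : S.M i u (i, c) = 1 := by
          by_contra h; exact hc (C.na i u c h).1
        rw [eM]
        simp only
        rw [e1, one_mul]
        have := rho_le_one C1.b0 h0 h1 (i, c) i u
        have := lf_le_one hb' (i, c) hf f1 (i - 1) u
        have := lf_nonneg hb' (i, c) f0 (i - 1) u
        nlinarith
      · have := P.S_ball i c
        simp only [nsmul_eq_mul, Par.ball]
        linarith
    · obtain ⟨k, hk⟩ : ∃ k, β.1 = k + 1 := ⟨β.1 - 1, by omega⟩
      by_cases hlow : β.1 ≤ i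
      · have hA := (P.A_add_low S.cs hi c hlow hβ 1 x).1 hown'
        refine le_trans (le_of_eq ?_) (hold' (hown'.trans hA.symm))
        rw [form, form]
        refine sum_congr rfl fun u _ => ?_
        have hr : ∀ j u, True → S1.rho χ β j u = 1 :=
          rho_eq_one (fun _ _ => True) (fun _ _ _ _ _ _ _ => trivial)
            fun j u _ => if_neg fun h' => by omega
        rw [eM, hr _ _ trivial, mul_one,
          upd_lf_same C1.inj f (fun _ _ => True) (fun _ _ _ _ _ _ _ => trivial) hr _ _ trivial,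
          lf_congr (S := S) (S' := S1) (g := f) (g' := f) (fun _ _ => True)
            (fun _ _ _ _ _ _ _ => trivial)
            (fun j u _ => P.O_add_low S.cs hi c hlow hβ j u)
            (fun j u _ h ω _ => by rw [hsl j u h]) (fun _ _ => rfl) _ _ trivial]
      · let f' : V → ℝ := fun u => if P.A (Par.add S.cs i c) 1 x = P.A S.cs 1 x then f u else 0
        have hf' : P.Near x f' := by
          intro u hu
          refine hf u fun h => hu ?_
          simp only [f', h, ite_self]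
        have f0' : ∀ u, 0 ≤ f' u := by
          intro u; simp only [f']; split_ifs
          exacts [f0 u, le_rfl]
        have hle : S.Ph β + S.Lv β f' ≤ 2 * P.S β.1 := by
          by_cases hA : P.A (Par.add S.cs i c) 1 x = P.A S.cs 1 x
          · have : f' = f := by funext u; simp only [f', if_pos hA]
            rw [this]; exact hold' hA
          · have : f' = fun _ => 0 := by funext u; simp only [f', if_neg hA]
            rw [this, Lv_zero, add_zero]; exact G.Ph_le β
        refine le_trans ?_ hle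
        rw [form, form]
        refine sum_le_sum fun u _ => ?_
        rw [eM, mul_assoc]
        refine mul_le_mul_of_nonneg_left ?_ (C.M0 _ _ _)
        obtain ⟨i0, rfl⟩ : ∃ i0, i = i0 + 1 := ⟨i - 1, by omega⟩
        rw [hk, Nat.add_sub_cancel]
        refine event_lf C.b0 C1.inj rfl h0 h1 hf' f0' hf f0 i0
          (fun j u h => P.O_add_gt S.cs (i0 + 1) c h u) hsl ?_ k (by omega) u
        intro w
        have hp := lf_nonneg C.b0 β f0' i0 w
        have hp1 := lf_le_one hb' β hf f1 i0 w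
        have hp0 := lf_nonneg hb' β f0 i0 w
        by_cases hd : P.d w c ≤ 6 * P.lam (i0 + 1)
        · by_cases ha : β ∈ P.O S1.cs (i0 + 1) w
          · have e1 := rho_le_chi C1.b0 h0 h1 β (i0 + 1) w
            have e2 : χ (i0 + 1) w β = 1 / 2 := if_pos ⟨rfl, hd, by omega, ha⟩
            rw [e2] at e1
            nlinarith
          · have ha' : β ∉ P.O (S1.upd χ).cs (i0 + 1) w := ha
            rw [lf_inact f ha', rho_inact h2 ha]
            linarith
        · let Q : ℕ → V → Prop := fun l u =>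
            l ≤ i0 + 1 ∧ 5 * P.lam (i0 + 1) + P.D (i0 + 1) + P.lam l < P.d u c + P.D l
          have hQ : ∀ j u, Q (j + 1) u → ∀ ω ∈ P.T j u, ∀ v ∈ ω, Q j v := by
            intro j u hq ω hω v hv
            have := P.T_near j u ω hω v hv
            have := P.d_tri u v c
            simp only [Q, Par.D] at hq ⊢
            omega
          have hr : ∀ j u, Q j u → S1.rho χ β j u = 1 := by
            refine rho_eq_one Q hQ fun j u hq => if_neg fun h' => ?_
            obtain ⟨rfl, h4, -⟩ := h'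
            simp only [Q] at hq
            omega
          have hw : Q (i0 + 1) w := ⟨le_rfl, by omega⟩
          rw [hr _ _ hw, one_mul, upd_lf_same C1.inj f Q hQ hr _ _ hw,
            lf_congr (S := S) (S' := S1) (g := f') (g' := f) Q hQ
              (fun j u hq => by rw [show S1.cs = Par.add S.cs (i0 + 1) c from rfl,
                P.O_add_far S.cs (i0 + 1) c hq.1 hq.2])
              (fun j u _ h ω _ => by rw [hsl j u h]) ?_ _ _ hw]
          intro u hq
          by_cases hu : f u = 0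
          · simp only [f', hu, ite_self]
          · have h5 := hf u hu
            have h6 := P.d_tri u x c
            have h7 := hq.2
            simp only [f']
            rw [if_pos (P.A_add_far S.cs (i0 + 1) c 1 (by omega) x (by omega))]

theorem settle' (hT : ∀ u, P.T 0 u = ∅) (τ : V → ℝ) (I : St P → Prop)
    (hI : ∀ S S' : St P, S.Good τ → S'.Good τ → Ev S S' → I S → I S') : ∀ (n : ℕ) (S : St P),
    ((P.Bs 0).filter fun β => β.2 ∉ S.cs β.1).card < n → S.Good τ → I S →
      ∃ S' : St P, S'.Good τ ∧ I S' ∧ S'.Quiet := by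
  intro n
  induction n with
  | zero => intro S h; omega
  | succ n ih =>
    intro S hn G hS
    by_cases hQ : S.Quiet
    · exact ⟨S, G, hS, hQ⟩
    · simp only [Quiet, not_forall, not_lt] at hQ
      obtain ⟨i, hi1, hih, c, hun, hbig⟩ := hQ
      obtain ⟨S', G', hE', hcs⟩ := G.event hT hi1 hih hun hbig
      refine ih S' (lt_of_lt_of_le (card_lt_card ⟨?_, fun h => ?_⟩) (Nat.lt_succ_iff.1 hn)) G'
        (hI S S' G G' hE' hS)
      · intro β hβ
        rw [mem_filter] at hβ ⊢
        refine ⟨hβ.1, fun h => hβ.2 ?_⟩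
        rw [hcs]; exact Par.mem_add.2 (Or.inl h)
      · have hc : c ∉ S.cs i := fun h => by have := hun c h; rw [P.d_self] at this; omega
        have := h (mem_filter.2 ⟨Par.mem_Bs.2 ⟨Nat.zero_le _, hih⟩, hc⟩ :
          (i, c) ∈ (P.Bs 0).filter fun β => β.2 ∉ S.cs β.1)
        refine (mem_filter.1 this).2 ?_
        rw [hcs]; exact Par.mem_add.2 (Or.inr ⟨rfl, rfl⟩)

theorem Good.settle (hT : ∀ u, P.T 0 u = ∅) (G : S.Good τ) (I : St P → Prop)
    (hI : ∀ S S' : St P, S.Good τ → S'.Good τ → Ev S S' → I S → I S') (h : I S) :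
    ∃ S' : St P, S'.Good τ ∧ I S' ∧ S'.Quiet :=
  settle' hT τ I hI _ S (Nat.lt_succ_self _) G h

lemma init_good (P : Par V) : (init P).Good fun _ => 1 := by
  refine ⟨init_core P univ, fun w => ?_⟩
  simp only [init, prod_const_one, mul_one]
  exact one_le_pow₀ (by norm_num)

lemma init_test (P : Par V) (β : ℕ × V) {x : V} {g : V → ℝ} (hg : P.Near x g)
    (g1 : ∀ u, g u ≤ 1) : (init P).Ph β + (init P).Lv β g ≤ 2 * P.S β.1 := by
  simp only [Ph, Lv]
  rw [← sum_add_distrib]
  refine le_trans (sum_le_card_nsmul _ _ 2 fun u _ => ?_) ?_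
  · have := lf_le_one (init_core P univ).b0 β hg g1 (β.1 - 1) u
    have e : (init P).M β.1 u β = 1 := rfl
    rw [e]; linarith
  · have := P.S_ball β.1 β.2
    simp only [nsmul_eq_mul, Par.ball]
    linarith

lemma Good.O_card (G : S.Good τ) (u : V) : (P.O S.cs 1 u).card ≤ 2 * P.m :=
  P.O_card G.core.inv 1 u

end St

end Pool.Agent.P.MP_d36d9e_co.X
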