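import Pool.Agent.P.MP_d36d9e_co.Y2

/-!
The game layer: positions with bookkeeping, marginal weights and their monotonicity.
-/

namespace Pool.Agent.P.MP_d36d9e_co.X

open Finset
open Classical

set_option linter.unusedSectionVars false
set_option linter.dupNamespace false

/-- locations of level one: points, hazard counters and stars -/
abbrev Loc (V : Type) (R N : ℕ) : Type := V ⊕ (V × Fin R) ⊕ (Finset V × Finset (V × Fin N))

/-- two points on a common edge -/
def adj {V : Type} (F : Finset (Finset V)) (x y : V) : Prop := ∃ A ∈ F, x ∈ A ∧ y ∈ A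

lemma adj_symm {V : Type} {F : Finset (Finset V)} {x y : V} (h : adj F x y) : adj F y x := by
  obtain ⟨A, h1, h2, h3⟩ := h
  exact ⟨A, h1, h3, h2⟩

/-- the hypergraph, the boards and the numerical data -/
structure Cfg (V : Type) [Fintype V] [DecidableEq V] (R N : ℕ) where
  F : Finset (Finset V)
  n : ℕ
  t : ℕ
  mu : ℕ
  J : ℕ
  h0 : ℕ
  h1 : ℕ
  R0 : ℕ
  b : ℝ
  eta : ℝ
  ch : ℝ
  de : ℝ
  a : ℝ
  q : ℝ
  la : ℝ
  P : Par (Loc V R N)
  card : ∀ A ∈ F, A.card = n
  ov : ∀ A ∈ F, ∀ B ∈ F, A ≠ B → (A ∩ B).card ≤ t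
  pd : ∀ x y, x ≠ y → (F.filter fun A => x ∈ A ∧ y ∈ A).card ≤ mu
  hR : ∀ x, (univ.filter fun y => adj F x y).card < R
  T0 : ∀ u, P.T 0 u = ∅
  near1 : ∀ x y, adj F x y → P.d (Sum.inl x) (Sum.inl y) ≤ P.lam 1
  near2 : ∀ x i z, adj F x z → P.d (Sum.inr (Sum.inl (x, i))) (Sum.inl z) ≤ P.lam 1
  near3 : ∀ (s : Finset V × Finset (V × Fin N)) x y, s.1 ∈ F → (∀ p ∈ s.2, p.1 ∈ s.1) →
    s.2.card = J → x ∈ s.1 → adj F x y → P.d (Sum.inr (Sum.inr s)) (Sum.inl y) ≤ P.lam 1
  b1 : 1 ≤ b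
  eta0 : 0 < eta
  ch0 : 0 ≤ ch
  de0 : 0 ≤ de
  a0 : 0 ≤ a
  q0 : 0 ≤ q
  la0 : 0 ≤ la
  sum1 : ch + de + a ≤ 1
  q1 : 4 * q * (2 * P.m : ℕ) ≤ de
  th1 : mu * eta ≤ 1
  hA1 : ∀ W, 0 ≤ W → W ≤ mu * eta → Real.exp (la * ((b - 1) * W)) ≤ 1 + ch * W
  hA2 : ∀ W, 0 ≤ W → W ≤ mu * eta → Real.exp (-(la * W)) ≤ 1 - W
  ini : ∀ v, ((F.filter fun A => v ∈ A).card : ℝ) * (eta / b ^ h0) ≤ 1
  h0_pos : 1 ≤ h0
  h01 : h0 ≤ h1
  hn : h1 + J + 1 ≤ n
  hN : ∀ k : ℕ, Real.exp (la * (eta * k - 1)) ≤ P.Th → k ≤ N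
  hR0 : ∀ k : ℕ, (1 + q) ^ k ≤ P.Th → k ≤ R0
  hex : eta * (n * (mu * R0)) ≤ a
  hload : P.Th < (1 + ch) ^ (J * (h1 - h0 - 2 * P.m - t * J)) * (1 - de) ^ (J * (2 * P.m))

/-- a position with its bookkeeping -/
structure Gm (V : Type) where
  Mk : Finset V
  Br : Finset V
  Cm : Finset V
  pr : V → V
  cmE : V → Finset V
  h : Finset V → ℕ
  ls : V → List (Finset V)
  Y : Finset V → Finset V
  lo : Finset V → ℕ
  Hs : V → Finset V

variable {V : Type} [DecidableEq V]

namespace Gm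

variable (G : Gm V)

/-- the hits: moves of the first player outside the committed pairs -/
def H : Finset V := G.Mk \ G.Cm

/-- free and not committed -/
def opn (x : V) : Prop := x ∉ G.Mk ∧ x ∉ G.Br ∧ x ∉ G.Cm

/-- not yet blocked -/
def alive (A : Finset V) : Prop := ∀ x ∈ A, x ∉ G.Br

/-- the edge with a given address -/
def ad {N : ℕ} (p : V × Fin N) : Finset V := (G.ls p.1).getD p.2 ∅

/-- contains a committed pair -/
def prot (A : Finset V) : Prop := ∃ x ∈ A, x ∈ G.Cm ∧ G.pr x ∈ A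

/-- the second player takes a point -/
def kill (y : V) : Gm V := { G with Br := insert y G.Br }

/-- the first player takes a committed point -/
def take (z : V) : Gm V := { G with Mk := insert z G.Mk }

/-- the snapshots of some points are renewed -/
noncomputable def sync (T : V → Prop) : Gm V :=
  { G with Hs := fun x => if T x then G.H else G.Hs x }

/-- a pair of an edge is committed -/
def commit (A : Finset V) (x y : V) : Gm V :=
  { G with
    Cm := insert x (insert y G.Cm)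
    pr := fun w => if w = x then y else if w = y then x else G.pr w
    cmE := fun w => if w = x ∨ w = y then A else G.cmE w }

end Gm

variable [Fintype V] {R N : ℕ}

namespace Cfg

variable (c : Cfg V R N)

/-- the weight of an edge with `k` hits -/
noncomputable def wt (k : ℕ) : ℝ := c.eta * c.b ^ k / c.b ^ c.h0

/-- weight of the light edges through two points -/
noncomputable def W (G : Gm V) (v x : V) (Hs : Finset V) : ℝ :=
  ∑ A ∈ c.F, if v ∈ A ∧ x ∈ A ∧ G.alive A ∧ (A ∩ Hs).card < c.h0 then c.wt (A ∩ Hs).card else 0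

/-- the price of a point -/
noncomputable def al (G : Gm V) (v : V) : ℝ :=
  ∑ A ∈ c.F, if v ∈ A then
    (if c.h0 ≤ G.h A then c.eta else if G.alive A then c.wt (G.h A) else 0) else 0

/-- an active edge through a point, seen from a snapshot -/
def act (G : Gm V) (A : Finset V) (x : V) (Hs : Finset V) : Prop :=
  x ∈ A ∧ G.alive A ∧ c.h0 ≤ (A ∩ Hs).card ∧ G.h A < c.h1

/-- a star none of whose members has been blocked early -/
def good (G : Gm V) (s : Finset V × Finset (V × Fin N)) : Prop :=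
  s.1 ∈ c.F ∧ (∀ p ∈ s.2, p.1 ∈ s.1) ∧ s.2.card = c.J ∧
    ∀ p ∈ s.2, G.alive (G.ad p) ∨ c.h1 ≤ G.h (G.ad p)

/-- the marginal of a point, seen from a snapshot -/
noncomputable def kap (G : Gm V) (x : V) (Hs : Finset V) : Loc V R N → ℝ
  | Sum.inl v => if v ≠ x ∧ G.opn v then c.W G v x Hs else 0
  | Sum.inr (Sum.inl _) => 0
  | Sum.inr (Sum.inr s) => if c.good G s ∧ ∃ p ∈ s.2, c.act G (G.ad p) x Hs then 1 else 0

/-- neighbours -/
noncomputable def nb (x : V) : Finset V := univ.filter fun y => adj c.F x y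

/-- the index of the active hazard counter -/
noncomputable def sx (G : Gm V) (x : V) : ℕ := (G.Hs x ∩ c.nb x).card

/-- the number of hits near a point since its snapshot -/
noncomputable def rx (G : Gm V) (x : V) : ℕ := ((G.H \ G.Hs x) ∩ c.nb x).card

/-- the first player takes an open point -/
noncomputable def hit (G : Gm V) (z : V) (cnt : Finset V → Prop) : Gm V :=
  { G with
    Mk := insert z G.Mk
    h := fun A => if z ∈ A ∧ G.alive A then G.h A + 1 else G.h A
    ls := fun x => G.ls x ++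
      (c.F.filter fun A => x ∈ A ∧ z ∈ A ∧ G.alive A ∧ G.h A + 1 = c.h0).toList
    Y := fun A => if c.act G A z G.H ∧ cnt A then insert z (G.Y A) else G.Y A
    lo := fun A => if c.act G A z G.H ∧ ¬ cnt A then G.lo A + 1 else G.lo A }

/-- the combinatorial invariants -/
structure Base (G : Gm V) : Prop where
  dj : ∀ x ∈ G.Mk, x ∉ G.Br
  h_le : ∀ A, G.h A ≤ (A ∩ G.H).card
  h_eq : ∀ A, G.alive A → G.h A = (A ∩ G.H).card
  hs : ∀ x, G.Hs x ⊆ G.H
  ls_mem : ∀ x A, A ∈ G.ls x ↔ A ∈ c.F ∧ x ∈ A ∧ c.h0 ≤ G.h A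
  ls_len : ∀ x, (G.ls x).length ≤ (c.F.filter fun A => x ∈ A ∧ c.h0 ≤ G.h A).card
  Y_sub : ∀ A, G.Y A ⊆ A ∩ G.H
  Y_card : ∀ A, (G.Y A).card + G.lo A = min (G.h A) c.h1 - c.h0
  pr_mem : ∀ x ∈ G.Cm, G.pr x ∈ G.Cm ∧ G.pr x ≠ x ∧ G.pr (G.pr x) = x
  cm_E : ∀ x ∈ G.Cm, x ∈ G.cmE x ∧ G.pr x ∈ G.cmE x ∧ c.h1 ≤ G.h (G.cmE x) ∧
    ∃ σ : Fin N, G.ad (x, σ) = G.cmE x
  cm_inj : ∀ x ∈ G.Cm, ∀ y ∈ G.Cm, G.cmE x = G.cmE y → y = x ∨ y = G.pr x

/-- a later position -/
structure Le (G G' : Gm V) : Prop where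
  al : ∀ A, G'.alive A → G.alive A
  op : ∀ x, G'.opn x → G.opn x
  h_le : ∀ A, G.h A ≤ G'.h A
  h_dead : ∀ A, ¬ G.alive A → G'.h A = G.h A
  ad : ∀ p : V × Fin N, G'.ad p = G.ad p ∨ (G.ad p = ∅ ∧ (G'.ad p ∩ G.H).card < c.h0)

variable {c} {G G' : Gm V}

lemma wt_nonneg (k : ℕ) : 0 ≤ c.wt k := by
  have := c.eta0; have := c.b1
  unfold wt; positivity

lemma wt_le {k : ℕ} (h : k ≤ c.h0) : c.wt k ≤ c.eta := by
  have h1 := c.eta0; have h2 := c.b1
  unfold wt
  rw [div_le_iff₀ (by positivity)]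
  exact mul_le_mul_of_nonneg_left (pow_le_pow_right₀ h2 h) h1.le

lemma wt_succ (k : ℕ) : c.wt (k + 1) = c.wt k + (c.b - 1) * c.wt k := by
  unfold wt; ring

lemma wt_h0 : c.wt c.h0 = c.eta := by
  have h2 := c.b1
  unfold wt; field_simp

lemma W_nonneg (G : Gm V) (v x : V) (Hs : Finset V) : 0 ≤ c.W G v x Hs :=
  sum_nonneg fun A _ => by
    split_ifs
    · exact wt_nonneg _
    · exact le_rfl

lemma W_le (G : Gm V) {v x : V} (h : v ≠ x) (Hs : Finset V) : c.W G v x Hs ≤ c.mu * c.eta := by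
  have h1 : c.W G v x Hs ≤ ∑ A ∈ c.F, if v ∈ A ∧ x ∈ A then c.eta else 0 := by
    refine sum_le_sum fun A _ => ?_
    split_ifs with h1 h2 h2
    · exact wt_le h1.2.2.2.le
    · exact absurd ⟨h1.1, h1.2.1⟩ h2
    · exact c.eta0.le
    · exact le_rfl
  rw [← sum_filter, sum_const, nsmul_eq_mul] at h1
  refine le_trans h1 (mul_le_mul_of_nonneg_right ?_ c.eta0.le)
  exact_mod_cast c.pd v x h

lemma W_adj {v x : V} {Hs : Finset V} (h : c.W G v x Hs ≠ 0) : adj c.F v x := by
  obtain ⟨A, hA, h1⟩ := exists_ne_zero_of_sum_ne_zero h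
  by_cases h2 : v ∈ A ∧ x ∈ A ∧ G.alive A ∧ (A ∩ Hs).card < c.h0
  · exact ⟨A, hA, h2.1, h2.2.1⟩
  · exact absurd (if_neg h2) h1

lemma kap_pt (G : Gm V) (x : V) (Hs : Finset V) (v : V) :
    c.kap G x Hs (Sum.inl v) = if v ≠ x ∧ G.opn v then c.W G v x Hs else 0 := rfl

lemma kap_st (G : Gm V) (x : V) (Hs : Finset V) (s : Finset V × Finset (V × Fin N)) :
    c.kap G x Hs (Sum.inr (Sum.inr s)) =
      if c.good G s ∧ ∃ p ∈ s.2, c.act G (G.ad p) x Hs then 1 else 0 := rfl

lemma kap_nonneg (G : Gm V) (x : V) (Hs : Finset V) : ∀ u, 0 ≤ c.kap G x Hs u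
  | Sum.inl v => by
    rw [kap_pt]; split_ifs
    · exact W_nonneg _ _ _ _
    · exact le_rfl
  | Sum.inr (Sum.inl _) => le_rfl
  | Sum.inr (Sum.inr s) => by rw [kap_st]; split_ifs <;> norm_num

lemma kap_le_one (G : Gm V) (x : V) (Hs : Finset V) : ∀ u, c.kap G x Hs u ≤ 1
  | Sum.inl v => by
    rw [kap_pt]; split_ifs with h
    · exact le_trans (W_le G h.1 Hs) c.th1
    · exact zero_le_one
  | Sum.inr (Sum.inl _) => zero_le_one
  | Sum.inr (Sum.inr s) => by rw [kap_st]; split_ifs <;> norm_num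

lemma kap_self (G : Gm V) (x : V) (Hs : Finset V) : c.kap G x Hs (Sum.inl x) = 0 := by
  rw [kap_pt]; exact if_neg fun h => h.1 rfl

lemma ad_mem {p : V × Fin N} {x : V} (h : x ∈ G.ad p) : G.ad p ∈ G.ls p.1 := by
  unfold Gm.ad at h ⊢
  by_cases h1 : (p.2 : ℕ) < (G.ls p.1).length
  · rw [List.getD_eq_getElem _ _ h1]; exact List.getElem_mem h1
  · rw [List.getD_eq_default _ _ (by omega)] at h
    exact absurd h (notMem_empty x)

lemma Base.ad_F (B : c.Base G) {p : V × Fin N} {x : V} (h : x ∈ G.ad p) :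
    G.ad p ∈ c.F ∧ p.1 ∈ G.ad p ∧ c.h0 ≤ G.h (G.ad p) := (B.ls_mem _ _).1 (ad_mem h)

lemma Base.kap_near (B : c.Base G) (x : V) (Hs : Finset V) :
    c.P.Near (Sum.inl x) (c.kap G x Hs) := by
  rintro (v | p | s) h
  · rw [kap_pt] at h
    split_ifs at h
    · exact c.near1 _ _ (W_adj h)
    · exact absurd rfl h
  · exact absurd rfl h
  · rw [kap_st] at h
    split_ifs at h with h1
    · obtain ⟨⟨h2, h3, h4, -⟩, p, hp, h5⟩ := h1
      have := B.ad_F h5.1
      exact c.near3 s p.1 x h2 h3 h4 (h3 p hp) ⟨_, this.1, this.2.1, h5.1⟩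
    · exact absurd rfl h

lemma Le.good (L : c.Le G G') {s : Finset V × Finset (V × Fin N)} (h : c.good G' s) :
    c.good G s := by
  refine ⟨h.1, h.2.1, h.2.2.1, fun p hp => ?_⟩
  rcases L.ad p with h1 | h1
  · by_cases h2 : G.alive (G.ad p)
    · exact Or.inl h2
    · have h3 := h.2.2.2 p hp
      rw [h1] at h3
      rcases h3 with h3 | h3
      · exact Or.inl (L.al _ h3)
      · rw [L.h_dead _ h2] at h3; exact Or.inr h3
  · rw [h1.1]; exact Or.inl fun x hx => absurd hx (notMem_empty x)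

lemma Le.kap (L : c.Le G G') (x : V) {Hs : Finset V} (hs : Hs ⊆ G.H) :
    ∀ u, c.kap G' x Hs u ≤ c.kap G x Hs u
  | Sum.inl v => by
    rw [kap_pt, kap_pt]
    by_cases h : v ≠ x ∧ G'.opn v
    · rw [if_pos h, if_pos ⟨h.1, L.op v h.2⟩]
      refine sum_le_sum fun A _ => ?_
      split_ifs with h1 h2 h2
      · exact le_rfl
      · exact absurd ⟨h1.1, h1.2.1, L.al A h1.2.2.1, h1.2.2.2⟩ h2
      · exact wt_nonneg _
      · exact le_rfl
    · rw [if_neg h]; exact kap_nonneg (c := c) G x Hs (Sum.inl v)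
  | Sum.inr (Sum.inl _) => le_rfl
  | Sum.inr (Sum.inr s) => by
    rw [kap_st, kap_st]
    by_cases h : c.good G' s ∧ ∃ p ∈ s.2, c.act G' (G'.ad p) x Hs
    · obtain ⟨p, hp, h1, h2, h3, h4⟩ := h.2
      rw [if_pos h, if_pos]
      refine ⟨L.good h.1, p, hp, ?_⟩
      rcases L.ad p with h5 | h5
      · rw [h5] at h1 h2 h3 h4
        exact ⟨h1, L.al _ h2, h3, lt_of_le_of_lt (L.h_le _) h4⟩
      · have := card_le_card (inter_subset_inter (subset_refl (G'.ad p)) hs)
        omega
    · rw [if_neg h]; exact kap_nonneg (c := c) G x Hs (Sum.inr (Sum.inr s))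

/-- a later position with the same counters -/
lemma Le.of_same (h1 : G.Br ⊆ G'.Br) (h2 : ∀ x, G'.opn x → G.opn x) (h3 : G'.h = G.h)
    (h4 : G'.ls = G.ls) : c.Le G G' where
  al := fun _ h x hx hb => h x hx (h1 hb)
  op := h2
  h_le := fun A => by rw [h3]
  h_dead := fun A _ => by rw [h3]
  ad := fun p => Or.inl (by unfold Gm.ad; rw [h4])

lemma le_kill (G : Gm V) (y : V) : c.Le G (G.kill y) :=
  Le.of_same (subset_insert _ _)
    (fun _ h => ⟨h.1, fun h' => h.2.1 (mem_insert_of_mem h'), h.2.2⟩) rfl rfl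

lemma le_take (G : Gm V) (z : V) : c.Le G (G.take z) :=
  Le.of_same subset_rfl (fun _ h => ⟨fun h' => h.1 (mem_insert_of_mem h'), h.2⟩) rfl rfl

lemma le_sync (G : Gm V) (T : V → Prop) : c.Le G (G.sync T) :=
  Le.of_same subset_rfl (fun _ h => h) rfl rfl

lemma le_commit (G : Gm V) (A : Finset V) (x y : V) : c.Le G (G.commit A x y) :=
  Le.of_same subset_rfl
    (fun _ h => ⟨h.1, h.2.1, fun h' => h.2.2 (mem_insert_of_mem (mem_insert_of_mem h'))⟩) rfl rfl

lemma hit_ad (B : c.Base G) (z : V) (cnt : Finset V → Prop) (p : V × Fin N) :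
    (c.hit G z cnt).ad p = G.ad p ∨ (G.ad p = ∅ ∧ G.h ((c.hit G z cnt).ad p) < c.h0 ∧
      G.alive ((c.hit G z cnt).ad p)) := by
  by_cases h1 : (p.2 : ℕ) < (G.ls p.1).length
  · left
    unfold Gm.ad hit
    exact List.getD_append _ _ _ _ h1
  · have e : G.ad p = ∅ := List.getD_eq_default _ _ (by omega)
    rcases ((c.hit G z cnt).ad p).eq_empty_or_nonempty with h2 | h2
    · exact Or.inl (h2.trans e.symm)
    · refine Or.inr ⟨e, ?_⟩
      have h3 : (c.hit G z cnt).ad p ∈
          (c.F.filter fun A => p.1 ∈ A ∧ z ∈ A ∧ G.alive A ∧ G.h A + 1 = c.h0).toList := by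
        unfold Gm.ad hit at h2 ⊢
        simp only at h2 ⊢
        rw [List.getD_append_right _ _ _ _ (by omega)] at h2 ⊢
        by_contra h4
        refine h2.ne_empty (List.getD_eq_default _ _ ?_)
        by_contra h5
        rw [List.getD_eq_getElem _ _ (not_le.1 h5)] at h4
        exact h4 (List.getElem_mem _)
      have h4 := (mem_filter.1 (mem_toList.1 h3)).2
      exact ⟨by omega, h4.2.2.1⟩

lemma le_hit (B : c.Base G) (z : V) (cnt : Finset V → Prop) : c.Le G (c.hit G z cnt) where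
  al := fun _ h => h
  op := fun _ h => ⟨fun h' => h.1 (mem_insert_of_mem h'), h.2⟩
  h_le := fun A => by
    simp only [hit]; split_ifs <;> omega
  h_dead := fun A h => if_neg fun h' => h h'.2
  ad := fun p => (hit_ad B z cnt p).imp_right fun h => ⟨h.1, by rw [← B.h_eq _ h.2.2]; exact h.2.1⟩

lemma hit_H {z : V} (hz : G.opn z) (cnt : Finset V → Prop) :
    (c.hit G z cnt).H = insert z G.H := by
  ext x
  simp only [Gm.H, hit, mem_sdiff, mem_insert]
  constructor
  · rintro ⟨h | h, h'⟩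
    · exact Or.inl h
    · exact Or.inr ⟨h, h'⟩
  · rintro (rfl | h)
    · exact ⟨Or.inl rfl, hz.2.2⟩
    · exact ⟨Or.inr h.1, h.2⟩

lemma opn_not_H {z : V} (hz : G.opn z) : z ∉ G.H := fun h => hz.1 (mem_sdiff.1 h).1

lemma card_inter_insert {z : V} {H : Finset V} (hz : z ∉ H) (A : Finset V) :
    (A ∩ insert z H).card = if z ∈ A then (A ∩ H).card + 1 else (A ∩ H).card := by
  split_ifs with h
  · rw [inter_insert_of_mem h, card_insert_of_notMem fun h' => hz (mem_inter.1 h').2]
  · rw [inter_insert_of_notMem h]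

lemma Base.kill (B : c.Base G) {y : V} (hy : y ∉ G.Mk) : c.Base (G.kill y) :=
  { B with
    dj := fun x hx h => by
      rcases mem_insert.1 h with rfl | h
      · exact hy hx
      · exact B.dj x hx h
    h_eq := fun A h => B.h_eq A ((le_kill (c := c) G y).al A h) }

lemma take_H {z : V} (hz : z ∈ G.Cm) : (G.take z).H = G.H := by
  ext x
  simp only [Gm.H, Gm.take, mem_sdiff, mem_insert]
  constructor
  · rintro ⟨rfl | h, h'⟩
    · exact absurd hz h'
    · exact ⟨h, h'⟩
  · exact fun h => ⟨Or.inr h.1, h.2⟩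

lemma Base.take (B : c.Base G) {z : V} (hz : z ∈ G.Cm) (hz' : z ∉ G.Br) : c.Base (G.take z) :=
  { B with
    dj := fun x hx => by
      rcases mem_insert.1 hx with rfl | h
      · exact hz'
      · exact B.dj x h
    h_le := by rw [take_H hz]; exact B.h_le
    h_eq := by rw [take_H hz]; exact B.h_eq
    hs := by rw [take_H hz]; exact B.hs
    Y_sub := by rw [take_H hz]; exact B.Y_sub }

lemma Base.sync (B : c.Base G) (T : V → Prop) : c.Base (G.sync T) :=
  { B with
    hs := fun x => by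
      simp only [Gm.sync]
      split_ifs
      · exact subset_rfl
      · exact B.hs x }

lemma commit_H {A : Finset V} {x y : V} (hx : G.opn x) (hy : G.opn y) :
    (G.commit A x y).H = G.H := by
  ext w
  simp only [Gm.H, Gm.commit, mem_sdiff, mem_insert]
  constructor
  · exact fun h => ⟨h.1, fun h' => h.2 (Or.inr (Or.inr h'))⟩
  · rintro ⟨h, h'⟩
    refine ⟨h, ?_⟩
    rintro (rfl | rfl | h2)
    exacts [hx.1 h, hy.1 h, h' h2]

lemma commit_pr {A : Finset V} {x y w : V} (hx : G.opn x) (hy : G.opn y) (hw : w ∈ G.Cm) :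
    (G.commit A x y).pr w = G.pr w ∧ (G.commit A x y).cmE w = G.cmE w := by
  have h1 : w ≠ x := by rintro rfl; exact hx.2.2 hw
  have h2 : w ≠ y := by rintro rfl; exact hy.2.2 hw
  simp [Gm.commit, h1, h2]

lemma Base.commit (B : c.Base G) {A : Finset V} {x y : V} (hx : G.opn x) (hy : G.opn y)
    (hxy : x ≠ y) (hxA : x ∈ A) (hyA : y ∈ A) (hh : c.h1 ≤ G.h A) (hp : ¬ G.prot A)
    (σx : ∃ σ : Fin N, G.ad (x, σ) = A) (σy : ∃ σ : Fin N, G.ad (y, σ) = A) :
    c.Base (G.commit A x y) := by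
  have px : (G.commit A x y).pr x = y ∧ (G.commit A x y).cmE x = A := by simp [Gm.commit]
  have py : (G.commit A x y).pr y = x ∧ (G.commit A x y).cmE y = A := by
    simp [Gm.commit, hxy.symm]
  have mx : x ∈ (G.commit A x y).Cm := mem_insert_self _ _
  have my : y ∈ (G.commit A x y).Cm := mem_insert_of_mem (mem_insert_self _ _)
  have cs : ∀ w ∈ (G.commit A x y).Cm, w = x ∨ w = y ∨ w ∈ G.Cm := by
    intro w hw; simpa [Gm.commit] using hw
  have old : ∀ w ∈ G.Cm, G.cmE w ≠ A := by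
    intro w hw h
    have := B.cm_E w hw
    rw [h] at this
    exact hp ⟨w, this.1, hw, this.2.1⟩
  exact
  { B with
    h_le := by rw [commit_H hx hy]; exact B.h_le
    h_eq := by rw [commit_H hx hy]; exact B.h_eq
    hs := by rw [commit_H hx hy]; exact B.hs
    Y_sub := by rw [commit_H hx hy]; exact B.Y_sub
    pr_mem := by
      intro w hw
      rcases cs w hw with rfl | rfl | h
      · rw [px.1, py.1]; exact ⟨my, hxy.symm, rfl⟩
      · rw [py.1, px.1]; exact ⟨mx, hxy, rfl⟩
      · have := B.pr_mem w h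
        rw [(commit_pr hx hy h).1, (commit_pr hx hy this.1).1]
        exact ⟨mem_insert_of_mem (mem_insert_of_mem this.1), this.2⟩
    cm_E := by
      intro w hw
      rcases cs w hw with rfl | rfl | h
      · rw [px.1, px.2]; exact ⟨hxA, hyA, hh, σx⟩
      · rw [py.1, py.2]; exact ⟨hyA, hxA, hh, σy⟩
      · rw [(commit_pr hx hy h).1, (commit_pr hx hy h).2]; exact B.cm_E w h
    cm_inj := by
      intro w hw v hv e
      rcases cs w hw with rfl | rfl | h
      · rcases cs v hv with rfl | rfl | h'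
        · exact Or.inl rfl
        · exact Or.inr px.1.symm
        · rw [px.2, (commit_pr hx hy h').2] at e
          exact absurd e.symm (old v h')
      · rcases cs v hv with rfl | rfl | h'
        · exact Or.inr py.1.symm
        · exact Or.inl rfl
        · rw [py.2, (commit_pr hx hy h').2] at e
          exact absurd e.symm (old v h')
      · rw [(commit_pr hx hy h).2] at e
        rw [(commit_pr hx hy h).1]
        rcases cs v hv with rfl | rfl | h'
        · rw [px.2] at e; exact absurd e (old w h)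
        · rw [py.2] at e; exact absurd e (old w h)
        · rw [(commit_pr hx hy h').2] at e
          exact B.cm_inj w h v h' e }

lemma Base.hit (B : c.Base G) {z : V} (hz : G.opn z) (cnt : Finset V → Prop) :
    c.Base (c.hit G z cnt) := by
  have hH := opn_not_H hz
  have eh : ∀ A, (c.hit G z cnt).h A = if z ∈ A ∧ G.alive A then G.h A + 1 else G.h A :=
    fun _ => rfl
  have h0 := c.h0_pos
  exact
  { B with
    dj := fun x hx => by
      rcases mem_insert.1 hx with rfl | h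
      · exact hz.2.1
      · exact B.dj x h
    h_le := fun A => by
      rw [hit_H hz, card_inter_insert hH, eh]
      have := B.h_le A
      by_cases h : z ∈ A
      · rw [if_pos h]; split_ifs <;> omega
      · rw [if_neg h, if_neg fun h' => h h'.1]; exact this
    h_eq := fun A hA => by
      rw [hit_H hz, card_inter_insert hH, eh, B.h_eq A hA]
      by_cases h : z ∈ A
      · rw [if_pos h, if_pos ⟨h, hA⟩]
      · rw [if_neg h, if_neg fun h' => h h'.1]
    hs := fun x => by rw [hit_H hz]; exact (B.hs x).trans (subset_insert _ _)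
    ls_mem := fun x A => by
      rw [eh]
      simp only [Cfg.hit, List.mem_append, mem_toList, mem_filter, B.ls_mem]
      constructor
      · rintro (h | h)
        · refine ⟨h.1, h.2.1, ?_⟩
          split_ifs <;> omega
        · refine ⟨h.1, h.2.1, ?_⟩
          rw [if_pos ⟨h.2.2.1, h.2.2.2.1⟩]; omega
      · rintro ⟨h1, h2, h3⟩
        split_ifs at h3 with h4
        · by_cases h5 : c.h0 ≤ G.h A
          · exact Or.inl ⟨h1, h2, h5⟩
          · exact Or.inr ⟨h1, h2, h4.1, h4.2, by omega⟩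
        · exact Or.inl ⟨h1, h2, h3⟩
    ls_len := fun x => by
      have e : ((c.hit G z cnt).ls x).length = (G.ls x).length +
          (c.F.filter fun A => x ∈ A ∧ z ∈ A ∧ G.alive A ∧ G.h A + 1 = c.h0).card := by
        simp only [Cfg.hit, List.length_append, length_toList]
      rw [e]
      refine le_trans (Nat.add_le_add_right (B.ls_len x) _) ?_
      rw [← card_union_of_disjoint]
      · refine card_le_card fun A hA => ?_
        rw [mem_filter, eh]
        rcases mem_union.1 hA with h | h <;> rw [mem_filter] at h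
        · refine ⟨h.1, h.2.1, ?_⟩
          split_ifs <;> omega
        · refine ⟨h.1, h.2.1, ?_⟩
          rw [if_pos ⟨h.2.2.1, h.2.2.2.1⟩]; omega
      · rw [disjoint_left]
        intro A h1 h2
        rw [mem_filter] at h1 h2
        omega
    Y_sub := fun A => by
      rw [hit_H hz]
      have h1 : G.Y A ⊆ A ∩ insert z G.H :=
        (B.Y_sub A).trans (inter_subset_inter subset_rfl (subset_insert _ _))
      simp only [Cfg.hit]
      split_ifs with h
      · exact insert_subset (mem_inter.2 ⟨h.1.1, mem_insert_self _ _⟩) h1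
      · exact h1
    Y_card := fun A => by
      have h1 := B.Y_card A
      have h2 : z ∉ G.Y A := fun h => hH (mem_inter.1 (B.Y_sub A h)).2
      rw [eh]
      simp only [Cfg.hit]
      by_cases h : c.act G A z G.H
      · have h3 := B.h_eq A h.2.1
        have h4 := h.2.2.1
        have h5 := h.2.2.2
        rw [if_pos (⟨h.1, h.2.1⟩ : z ∈ A ∧ G.alive A)]
        by_cases h6 : cnt A
        · rw [if_pos ⟨h, h6⟩, if_neg fun h' => h'.2 h6, card_insert_of_notMem h2]; omega
        · rw [if_neg fun h' => h6 h'.2, if_pos ⟨h, h6⟩]; omega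
      · rw [if_neg fun h' => h h'.1, if_neg fun h' => h h'.1]
        split_ifs with h6
        · have h3 := B.h_eq A h6.2
          have h4 : ¬ (c.h0 ≤ (A ∩ G.H).card ∧ G.h A < c.h1) := fun h' => h ⟨h6.1, h6.2, h'⟩
          omega
        · exact h1
    cm_E := fun x hx => by
      obtain ⟨h1, h2, h3, σ, h4⟩ := B.cm_E x hx
      refine ⟨h1, h2, le_trans h3 ((le_hit B z cnt).h_le _), σ, ?_⟩
      rcases hit_ad B z cnt (x, σ) with h5 | h5
      · exact h5.trans h4
      · rw [h4] at h5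
        rw [h5.1] at h1
        exact absurd h1 (notMem_empty x) }

end Cfg

end Pool.Agent.P.MP_d36d9e_co.X
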