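import Pool.Agent.P.MP_d36d9e_co.Y3

/-!
The game layer: lower bounds for the gains, lost hits and the load of an unprotected edge.
-/

namespace Pool.Agent.P.MP_d36d9e_co.X

open Finset
open Classical

set_option linter.unusedSectionVars false

variable {V : Type} [DecidableEq V] [Fintype V] {R N : ℕ}

namespace Cfg

variable (c : Cfg V R N)

/-- the indicator of the location of a point -/
noncomputable def pt (v : V) : Loc V R N → ℝ := fun u => if u = Sum.inl v then 1 else 0

/-- the marginal of a blocking move -/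
noncomputable def kk (G : Gm V) (y : V) : Loc V R N → ℝ := fun u => c.kap G y G.H u + pt y u

/-- lower bounds for the gains -/
structure Tau (G : Gm V) (τ : Loc V R N → ℝ) (T : V → Prop) : Prop where
  pos : ∀ u, 0 ≤ τ u
  tA : ∀ v, G.opn v → Real.exp (c.la * (c.al G v - 1)) ≤ τ (Sum.inl v)
  tX : ∀ x, G.opn x → ∀ i : Fin R, c.sx G x ≤ i → (T x → c.sx G x < i ∨ c.rx G x = 0) →
    (1 + c.q) ^ (if (i : ℕ) = c.sx G x then c.rx G x else 0) ≤ τ (Sum.inr (Sum.inl (x, i)))
  tS : ∀ s, c.good G s → (1 + c.ch) ^ (s.2.biUnion fun p => G.Y (G.ad p)).card *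
    (1 - c.de) ^ (∑ p ∈ s.2, G.lo (G.ad p)) ≤ τ (Sum.inr (Sum.inr s))

/-- the open points of an edge whose snapshot is older than the entry of the edge -/
noncomputable def stale (G : Gm V) (T : V → Prop) (A : Finset V) : Finset V :=
  A.filter fun x => G.opn x ∧ ¬ T x ∧ (A ∩ G.Hs x).card < c.h0

/-- the bound on the lost hits -/
def Lost {B : Type} (G : Gm V) (own : V → B) (T : V → Prop) : Prop :=
  ∀ A ∈ c.F, c.h0 ≤ G.h A → G.lo A + ((c.stale G T A).image own).card ≤ 2 * c.P.m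

variable {c} {G G' : Gm V} {τ f : Loc V R N → ℝ} {T : V → Prop}

lemma mem_stale {A : Finset V} {x : V} :
    x ∈ c.stale G T A ↔ x ∈ A ∧ G.opn x ∧ ¬ T x ∧ (A ∩ G.Hs x).card < c.h0 := mem_filter

lemma pt_nonneg (v : V) (u : Loc V R N) : 0 ≤ pt v u := by unfold pt; split_ifs <;> norm_num

lemma pt_le_one (v : V) (u : Loc V R N) : pt v u ≤ 1 := by unfold pt; split_ifs <;> norm_num

lemma pt_ne {v : V} {u : Loc V R N} (h : u ≠ Sum.inl v) : pt v u = 0 := if_neg h

lemma pt_self (v : V) : pt (R := R) (N := N) v (Sum.inl v) = 1 := if_pos rfl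

lemma kk_nonneg (G : Gm V) (y : V) (u : Loc V R N) : 0 ≤ c.kk G y u :=
  add_nonneg (kap_nonneg _ _ _ _) (pt_nonneg _ _)

lemma kk_le_one (G : Gm V) (y : V) (u : Loc V R N) : c.kk G y u ≤ 1 := by
  unfold kk
  by_cases h : u = Sum.inl y
  · rw [h, kap_self, pt_self, zero_add]
  · rw [pt_ne h, add_zero]; exact kap_le_one _ _ _ _

lemma de1 : c.de ≤ 1 := by have := c.sum1; have := c.ch0; have := c.a0; linarith

lemma al_mono (h1 : ∀ A, G'.alive A → G.alive A) (h3 : G'.h = G.h) (v : V) :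
    c.al G' v ≤ c.al G v := by
  refine sum_le_sum fun A _ => ?_
  rw [h3]
  split_ifs with _ _ h4 h5 h5
  · exact le_rfl
  · exact le_rfl
  · exact absurd (h1 A h4) h5
  · exact wt_nonneg _
  · exact le_rfl
  · exact le_rfl

lemma Tau.mono (t : c.Tau G τ T) (L : c.Le G G') (h3 : G'.h = G.h) (h4 : G'.ls = G.ls)
    (h5 : G'.Y = G.Y) (h6 : G'.lo = G.lo) (h7 : G'.Hs = G.Hs) (h8 : G'.H = G.H) :
    c.Tau G' τ T where
  pos := t.pos
  tA := fun v hv => by
    refine le_trans (Real.exp_le_exp.2 ?_) (t.tA v (L.op v hv))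
    exact mul_le_mul_of_nonneg_left (by linarith [al_mono (c := c) L.al h3 v]) c.la0
  tX := fun x hx => by
    have e1 : c.sx G' x = c.sx G x := by unfold sx; rw [h7]
    have e2 : c.rx G' x = c.rx G x := by unfold rx; rw [h7, h8]
    rw [e1, e2]; exact t.tX x (L.op x hx)
  tS := fun s hs => by
    have e : ∀ p : V × Fin N, G'.ad p = G.ad p := fun p => by unfold Gm.ad; rw [h4]
    simp only [e, h5, h6]
    exact t.tS s (L.good hs)

lemma Tau.weak (t : c.Tau G τ fun _ => False) (T : V → Prop) : c.Tau G τ T :=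
  { t with tX := fun x hx i hi _ => t.tX x hx i hi fun h => h.elim }

lemma Tau.sync (B : c.Base G) (t : c.Tau G τ T) : c.Tau (G.sync T) τ fun _ => False where
  pos := t.pos
  tA := t.tA
  tS := t.tS
  tX := fun x hx i hi _ => by
    by_cases h : T x
    · have e : (G.sync T).Hs x = G.H := if_pos h
      have e1 : c.rx (G.sync T) x = 0 := by
        unfold rx
        rw [e, show (G.sync T).H = G.H from rfl, sdiff_self, bot_eq_empty, empty_inter, card_empty]
      have e2 : c.sx (G.sync T) x = c.sx G x + c.rx G x := by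
        unfold sx rx
        rw [e, ← card_union_of_disjoint, ← union_inter_distrib_right,
          union_sdiff_of_subset (B.hs x)]
        exact disjoint_left.2 fun w h1 h2 =>
          (mem_sdiff.1 (mem_inter.1 h2).1).2 (mem_inter.1 h1).1
      rw [e1, ite_self, pow_zero]
      rw [e2] at hi
      refine le_trans (one_le_pow₀ (by linarith [c.q0])) (t.tX x hx i (by omega) fun _ => by omega)
    · have e : (G.sync T).Hs x = G.Hs x := if_neg h
      have e1 : c.sx (G.sync T) x = c.sx G x := by unfold sx; rw [e]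
      have e2 : c.rx (G.sync T) x = c.rx G x := by unfold rx; rw [e]; rfl
      rw [e1] at hi
      rw [e1, e2]
      exact t.tX x hx i hi fun h' => absurd h' h

lemma al_kill (B : c.Base G) (y v : V) : c.al (G.kill y) v + c.W G v y G.H ≤ c.al G v := by
  unfold al W
  rw [← sum_add_distrib]
  refine sum_le_sum fun A _ => ?_
  rw [show (G.kill y).h = G.h from rfl]
  by_cases h : v ∈ A ∧ y ∈ A ∧ G.alive A ∧ (A ∩ G.H).card < c.h0
  · have e := B.h_eq A h.2.2.1
    have h1 : ¬ c.h0 ≤ G.h A := by omega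
    have h2 : ¬ (G.kill y).alive A := fun h' => h' y h.2.1 (mem_insert_self _ _)
    rw [if_pos h, if_pos h.1, if_pos h.1, if_neg h1, if_neg h1, if_neg h2, if_pos h.2.2.1, e,
      zero_add]
  · rw [if_neg h, add_zero]
    split_ifs with _ _ h4 h5 h5
    · exact le_rfl
    · exact le_rfl
    · exact absurd ((le_kill (c := c) G y).al A h4) h5
    · exact wt_nonneg _
    · exact le_rfl
    · exact le_rfl

lemma Tau.kill (B : c.Base G) (t : c.Tau G τ T) (y : V) (hf : ∀ u, 1 - c.kk G y u ≤ f u) :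
    c.Tau (G.kill y) (fun u => τ u * f u) T := by
  have L := le_kill (c := c) G y
  have up : ∀ u r, c.kk G y u = 0 → r ≤ τ u → r ≤ τ u * f u := by
    intro u r h1 h2
    have h3 := hf u
    rw [h1, sub_zero] at h3
    exact le_trans h2 (le_mul_of_one_le_right (t.pos u) h3)
  refine ⟨fun u => mul_nonneg (t.pos u) (by linarith [hf u, kk_le_one (c := c) G y u]), ?_, ?_, ?_⟩
  · intro v hv
    have hne : v ≠ y := by rintro rfl; exact hv.2.1 (mem_insert_self _ _)
    have h1 := hf (Sum.inl v)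
    unfold kk at h1
    rw [kap_pt, if_pos ⟨hne, L.op v hv⟩, pt_ne (by simpa using hne), add_zero] at h1
    have h2 := c.hA2 _ (W_nonneg G v y G.H) (W_le G hne G.H)
    have h3 : c.la * (c.al (G.kill y) v - 1) ≤
        c.la * (c.al G v - 1) + -(c.la * c.W G v y G.H) := by
      have := mul_le_mul_of_nonneg_left (al_kill B y v) c.la0
      linarith
    refine le_trans (Real.exp_le_exp.2 h3) ?_
    rw [Real.exp_add]
    exact mul_le_mul (t.tA v (L.op v hv)) (le_trans h2 h1) (Real.exp_pos _).le (t.pos _)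
  · intro x hx i hi hT
    refine up _ _ ?_ (t.tX x (L.op x hx) i hi hT)
    unfold kk
    rw [pt_ne (by simp), add_zero]; rfl
  · intro s hs
    refine up _ _ ?_ (t.tS s (L.good hs))
    unfold kk
    rw [pt_ne (by simp), add_zero, kap_st, if_neg]
    rintro ⟨-, p, hp, h1, -, -, h2⟩
    rcases hs.2.2.2 p hp with h3 | h3
    · exact h3 y h1 (mem_insert_self _ _)
    · exact absurd h3 (not_le.2 h2)

lemma al_hit (B : c.Base G) (z : V) (cnt : Finset V → Prop) (v : V) :
    c.al (c.hit G z cnt) v ≤ c.al G v + (c.b - 1) * c.W G v z G.H := by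
  unfold al W
  rw [mul_sum, ← sum_add_distrib]
  refine sum_le_sum fun A _ => ?_
  have eh : (c.hit G z cnt).h A = if z ∈ A ∧ G.alive A then G.h A + 1 else G.h A := rfl
  have ea : (c.hit G z cnt).alive A ↔ G.alive A := Iff.rfl
  by_cases h : v ∈ A ∧ z ∈ A ∧ G.alive A ∧ (A ∩ G.H).card < c.h0
  · have e := B.h_eq A h.2.2.1
    have h1 : ¬ c.h0 ≤ G.h A := by omega
    rw [eh, if_pos h, if_pos h.1, if_pos h.1, if_neg h1, if_pos h.2.2.1,
      if_pos (⟨h.2.1, h.2.2.1⟩ : z ∈ A ∧ G.alive A), if_pos (ea.2 h.2.2.1), ← e, ← wt_succ]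
    split_ifs with h2
    · rw [show G.h A + 1 = c.h0 by omega, wt_h0]
    · exact le_rfl
  · rw [if_neg h, mul_zero, add_zero]
    by_cases hv : v ∈ A
    · rw [if_pos hv, if_pos hv, eh]
      by_cases h1 : z ∈ A ∧ G.alive A
      · have e := B.h_eq A h1.2
        have h2 : c.h0 ≤ G.h A := by
          by_contra h3
          exact h ⟨hv, h1.1, h1.2, by omega⟩
        rw [if_pos h1, if_pos h2, if_pos (by omega)]
      · rw [if_neg h1]; exact le_rfl
    · rw [if_neg hv, if_neg hv]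

lemma Base.light (B : c.Base G) {A : Finset V} (h : G.h A < c.h0) : G.Y A = ∅ ∧ G.lo A = 0 := by
  have := B.Y_card A
  exact ⟨card_eq_zero.1 (by omega), by omega⟩

lemma hit_Y (B : c.Base G) (z : V) (cnt : Finset V → Prop) (p : V × Fin N) :
    (c.hit G z cnt).Y ((c.hit G z cnt).ad p) = (c.hit G z cnt).Y (G.ad p) ∧
      (c.hit G z cnt).lo ((c.hit G z cnt).ad p) = (c.hit G z cnt).lo (G.ad p) := by
  rcases hit_ad B z cnt p with h | h
  · rw [h]; exact ⟨rfl, rfl⟩
  · have key : ∀ A, G.alive A → G.h A < c.h0 →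
        (c.hit G z cnt).Y A = ∅ ∧ (c.hit G z cnt).lo A = 0 := by
      intro A h1 h2
      have h3 : ¬ c.act G A z G.H := fun h' => by
        have := h'.2.2.1
        have := B.h_eq A h1
        omega
      have h4 := B.light h2
      simp only [hit]
      rw [if_neg fun h' => h3 h'.1, if_neg fun h' => h3 h'.1]
      exact h4
    have k1 := key _ h.2.2 h.2.1
    have k2 := key ∅ (fun x hx => absurd hx (notMem_empty x)) (by
      have := B.h_le ∅
      have := c.h0_pos
      rw [empty_inter, card_empty] at *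
      omega)
    rw [h.1, k1.1, k1.2, k2.1, k2.2]
    exact ⟨rfl, rfl⟩

lemma Tau.hit (B : c.Base G) (t : c.Tau G τ fun _ => False) {z : V} (hz : G.opn z)
    (cnt : Finset V → Prop) (T : V → Prop) (f0 : ∀ u, 0 ≤ f u)
    (fA : ∀ v, G.opn v → v ≠ z → 1 + c.ch * c.W G v z G.H ≤ f (Sum.inl v))
    (fX1 : ∀ x (i : Fin R), G.opn x → x ≠ z → adj c.F x z → (i : ℕ) = c.sx G x → ¬ T x →
      1 + c.q ≤ f (Sum.inr (Sum.inl (x, i))))
    (fX2 : ∀ x (i : Fin R), ¬ (adj c.F x z ∧ (i : ℕ) = c.sx G x) →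
      1 ≤ f (Sum.inr (Sum.inl (x, i))))
    (fS1 : ∀ s, c.good G s → (∃ p ∈ s.2, c.act G (G.ad p) z G.H ∧ cnt (G.ad p)) →
      1 + c.ch ≤ f (Sum.inr (Sum.inr s)))
    (fS2 : ∀ s, 1 - c.de ≤ f (Sum.inr (Sum.inr s)))
    (fS3 : ∀ s, (¬ ∃ p ∈ s.2, c.act G (G.ad p) z G.H) → 1 ≤ f (Sum.inr (Sum.inr s))) :
    c.Tau (c.hit G z cnt) (fun u => τ u * f u) T := by
  have L := le_hit B z cnt
  have hne : ∀ v, (c.hit G z cnt).opn v → v ≠ z := by
    rintro v hv rfl; exact hv.1 (mem_insert_self _ _)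
  refine ⟨fun u => mul_nonneg (t.pos u) (f0 u), ?_, ?_, ?_⟩
  · intro v hv
    have h2 := c.hA1 _ (W_nonneg G v z G.H) (W_le G (hne v hv) G.H)
    have h3 : c.la * (c.al (c.hit G z cnt) v - 1) ≤
        c.la * (c.al G v - 1) + c.la * ((c.b - 1) * c.W G v z G.H) := by
      have := mul_le_mul_of_nonneg_left (al_hit B z cnt v) c.la0
      linarith
    refine le_trans (Real.exp_le_exp.2 h3) ?_
    rw [Real.exp_add]
    exact mul_le_mul (t.tA v (L.op v hv)) (le_trans h2 (fA v (L.op v hv) (hne v hv)))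
      (Real.exp_pos _).le (t.pos _)
  · intro x hx i hi hT
    have e1 : c.sx (c.hit G z cnt) x = c.sx G x := rfl
    have e2 : c.rx (c.hit G z cnt) x = if adj c.F x z then c.rx G x + 1 else c.rx G x := by
      have hzs : z ∉ G.Hs x := fun h => opn_not_H hz (B.hs x h)
      unfold rx
      rw [hit_H hz, show (c.hit G z cnt).Hs x = G.Hs x from rfl, insert_sdiff_of_notMem _ hzs,
        inter_comm, card_inter_insert (fun h => opn_not_H hz (mem_sdiff.1 h).1), inter_comm]
      simp only [nb, mem_filter, mem_univ, true_and]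
    rw [e1] at hi
    rw [e1, e2] at hT ⊢
    have old := t.tX x (L.op x hx) i hi fun h => h.elim
    by_cases h1 : adj c.F x z ∧ (i : ℕ) = c.sx G x
    · rw [if_pos h1.1] at hT
      rw [if_pos h1.2] at old
      rw [if_pos h1.2, if_pos h1.1, pow_succ]
      refine mul_le_mul old (fX1 x i (L.op x hx) (hne x hx) h1.1 h1.2 fun h => ?_)
        (by linarith [c.q0]) (t.pos _)
      have := hT h
      omega
    · refine le_trans (le_of_eq ?_) (le_trans old (le_mul_of_one_le_right (t.pos _) (fX2 x i h1)))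
      by_cases h2 : (i : ℕ) = c.sx G x
      · rw [if_pos h2, if_pos h2, if_neg fun h => h1 ⟨h, h2⟩]
      · rw [if_neg h2, if_neg h2]
  · intro s hs
    have old := t.tS s (L.good hs)
    have c1 : (1 : ℝ) ≤ 1 + c.ch := by linarith [c.ch0]
    have d0 : (0 : ℝ) ≤ 1 - c.de := by linarith [de1 (c := c)]
    have d1 : (1 : ℝ) - c.de ≤ 1 := by linarith [c.de0]
    simp only [(hit_Y B z cnt _).1, (hit_Y B z cnt _).2]
    have eY : ∀ A, (c.hit G z cnt).Y A =
        if c.act G A z G.H ∧ cnt A then insert z (G.Y A) else G.Y A := fun _ => rfl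
    have el : ∀ A, (c.hit G z cnt).lo A =
        if c.act G A z G.H ∧ ¬ cnt A then G.lo A + 1 else G.lo A := fun _ => rfl
    have l1 : ∀ p ∈ s.2, G.lo (G.ad p) ≤ (c.hit G z cnt).lo (G.ad p) := fun p _ => by
      rw [el]; split_ifs <;> omega
    have l2 := pow_le_pow_of_le_one d0 d1 (sum_le_sum l1)
    by_cases h1 : ∃ p ∈ s.2, c.act G (G.ad p) z G.H ∧ cnt (G.ad p)
    · have h2 : (s.2.biUnion fun p => (c.hit G z cnt).Y (G.ad p)).card ≤
          (s.2.biUnion fun p => G.Y (G.ad p)).card + 1 := by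
        refine le_trans (card_le_card ?_) (card_insert_le z _)
        intro w hw
        obtain ⟨p, hp, h3⟩ := mem_biUnion.1 hw
        rw [eY] at h3
        split_ifs at h3
        · rcases mem_insert.1 h3 with h4 | h4
          · exact mem_insert.2 (Or.inl h4)
          · exact mem_insert_of_mem (mem_biUnion.2 ⟨p, hp, h4⟩)
        · exact mem_insert_of_mem (mem_biUnion.2 ⟨p, hp, h3⟩)
      refine le_trans (mul_le_mul (pow_le_pow_right₀ c1 h2) l2 (by positivity) (by positivity)) ?_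
      rw [pow_succ, mul_right_comm]
      exact mul_le_mul old (fS1 s (L.good hs) h1) (by linarith) (t.pos _)
    · have h2 : (s.2.biUnion fun p => (c.hit G z cnt).Y (G.ad p)) =
          s.2.biUnion fun p => G.Y (G.ad p) :=
        biUnion_congr rfl fun p hp => by rw [eY, if_neg fun h => h1 ⟨p, hp, h⟩]
      rw [h2]
      by_cases h3 : ∃ p ∈ s.2, c.act G (G.ad p) z G.H
      · obtain ⟨p, hp, h4⟩ := h3
        have h5 : ∑ p ∈ s.2, G.lo (G.ad p) + 1 ≤ ∑ p ∈ s.2, (c.hit G z cnt).lo (G.ad p) := by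
          refine sum_lt_sum l1 ⟨p, hp, ?_⟩
          rw [el, if_pos ⟨h4, fun h => h1 ⟨p, hp, h4, h⟩⟩]; omega
        refine le_trans (mul_le_mul_of_nonneg_left (pow_le_pow_of_le_one d0 d1 h5)
          (by positivity)) ?_
        rw [pow_succ, ← mul_assoc]
        exact mul_le_mul old (fS2 s) d0 (t.pos _)
      · exact le_trans (mul_le_mul_of_nonneg_left l2 (by positivity))
          (le_trans old (le_mul_of_one_le_right (t.pos _) (fS3 s h3)))

lemma Tau.addr (B : c.Base G) (t : c.Tau G τ T) (hτ : ∀ u, τ u ≤ c.P.Th) {x : V} (hx : G.opn x)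
    {A : Finset V} (hA : A ∈ c.F) (hxA : x ∈ A) (hh : c.h0 ≤ G.h A) :
    ∃ σ : Fin N, G.ad (x, σ) = A := by
  have h1 : c.eta * ((c.F.filter fun A => x ∈ A ∧ c.h0 ≤ G.h A).card : ℝ) ≤ c.al G x := by
    rw [mul_comm, ← nsmul_eq_mul, ← sum_const, sum_filter]
    refine sum_le_sum fun A _ => ?_
    by_cases h : x ∈ A ∧ c.h0 ≤ G.h A
    · rw [if_pos h, if_pos h.1, if_pos h.2]
    · rw [if_neg h]
      split_ifs
      exacts [c.eta0.le, wt_nonneg _, le_rfl, le_rfl]
  have h2 := c.hN _ (le_trans (Real.exp_le_exp.2 (mul_le_mul_of_nonneg_left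
    (sub_le_sub_right h1 1) c.la0)) (le_trans (t.tA x hx) (hτ _)))
  obtain ⟨i, hi, e⟩ := List.getElem_of_mem ((B.ls_mem x A).2 ⟨hA, hxA, hh⟩)
  have h3 := B.ls_len x
  exact ⟨⟨i, by omega⟩, (List.getD_eq_getElem _ _ hi).trans e⟩

lemma sx_lt (G : Gm V) (x : V) : c.sx G x < R :=
  lt_of_le_of_lt (card_le_card inter_subset_right) (c.hR x)

lemma Tau.rx_le (t : c.Tau G τ fun _ => False) (hτ : ∀ u, τ u ≤ c.P.Th) {x : V} (hx : G.opn x) :
    c.rx G x ≤ c.R0 := by
  have := t.tX x hx ⟨_, sx_lt G x⟩ le_rfl fun h => h.elim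
  rw [if_pos rfl] at this
  exact c.hR0 _ (le_trans this (hτ _))

lemma card_biUnion_ge {ι : Type} [DecidableEq ι] (Y : ι → Finset V) (L t J : ℕ) (I : Finset ι)
    (h1 : ∀ i ∈ I, L ≤ (Y i).card) (h2 : ∀ i ∈ I, ∀ j ∈ I, i ≠ j → (Y i ∩ Y j).card ≤ t)
    (hJ : I.card ≤ J) : I.card * (L - t * J) ≤ (I.biUnion Y).card := by
  induction I using Finset.induction_on with
  | empty => simp
  | insert a I ha ih =>
    rw [card_insert_of_notMem ha] at hJ ⊢
    have i1 := ih (fun i hi => h1 i (mem_insert_of_mem hi))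
      (fun i hi j hj => h2 i (mem_insert_of_mem hi) j (mem_insert_of_mem hj)) (by omega)
    rw [biUnion_insert]
    have i2 := card_union_add_card_inter (Y a) (I.biUnion Y)
    have i3 : (Y a ∩ I.biUnion Y).card ≤ I.card * t := by
      rw [inter_biUnion]
      refine card_biUnion_le_card_mul _ _ _ fun j hj => ?_
      exact h2 a (mem_insert_self _ _) j (mem_insert_of_mem hj) (by rintro rfl; exact ha hj)
    have i4 := h1 a (mem_insert_self _ _)
    have i5 : I.card * t ≤ t * J := by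
      rw [mul_comm]; exact Nat.mul_le_mul_left _ (by omega)
    have i6 := card_le_card (subset_union_right (s₁ := Y a) (s₂ := I.biUnion Y))
    rw [add_mul, one_mul]
    omega

variable {Bd : Type} {own own' : V → Bd}

lemma Tau.load (B : c.Base G) (t : c.Tau G τ T) (hτ : ∀ u, τ u ≤ c.P.Th) {T' : V → Prop}
    (l : c.Lost G own T') {E : Finset V} (hE : E ∈ c.F) (hpr : ¬ G.prot E) :
    (E ∩ G.Cm).card < c.J := by
  by_contra hJ
  obtain ⟨X, hX, hc⟩ := exists_subset_card_eq (not_lt.1 hJ)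
  have hX1 : ∀ x ∈ X, x ∈ E := fun x hx => (mem_inter.1 (hX hx)).1
  have hX2 : ∀ x ∈ X, x ∈ G.Cm := fun x hx => (mem_inter.1 (hX hx)).2
  choose σ hσ using fun x : X => (B.cm_E x.1 (hX2 x.1 x.2)).2.2.2
  let a : Finset (V × Fin N) := univ.image fun x : X => (x.1, σ x)
  have ha : ∀ p ∈ a, p.1 ∈ X ∧ G.ad p = G.cmE p.1 ∧ ∀ p' ∈ a, p'.1 = p.1 → p' = p := by
    intro p hp
    obtain ⟨x, -, rfl⟩ := mem_image.1 hp
    refine ⟨x.2, hσ x, fun p' hp' e => ?_⟩
    obtain ⟨x', -, rfl⟩ := mem_image.1 hp'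
    rw [show x' = x from Subtype.ext e]
  have hca : a.card = c.J := by
    rw [card_image_of_injective _ fun x y h => Subtype.ext (congrArg Prod.fst h), card_univ,
      Fintype.card_coe, hc]
  have hh : ∀ p ∈ a, c.h1 ≤ G.h (G.ad p) := fun p hp => by
    rw [(ha p hp).2.1]; exact (B.cm_E _ (hX2 _ (ha p hp).1)).2.2.1
  have hF : ∀ p ∈ a, G.ad p ∈ c.F := fun p hp => by
    refine (B.ad_F (x := p.1) ?_).1
    rw [(ha p hp).2.1]; exact (B.cm_E _ (hX2 _ (ha p hp).1)).1
  have hlo : ∀ p ∈ a, G.lo (G.ad p) ≤ 2 * c.P.m := fun p hp =>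
    le_trans (Nat.le_add_right _ _) (l _ (hF p hp) (le_trans c.h01 (hh p hp)))
  have h1 := t.tS (E, a) ⟨hE, fun p hp => hX1 _ (ha p hp).1, hca, fun p hp => Or.inr (hh p hp)⟩
  have h2 := card_biUnion_ge (fun p => G.Y (G.ad p)) (c.h1 - c.h0 - 2 * c.P.m) c.t c.J a
    (fun p hp => by
      have := B.Y_card (G.ad p)
      have := hh p hp
      have := hlo p hp
      omega)
    (fun p hp p' hp' hne => by
      refine le_trans (card_le_card (inter_subset_inter
        ((B.Y_sub _).trans inter_subset_left) ((B.Y_sub _).trans inter_subset_left)))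
        (c.ov _ (hF p hp) _ (hF p' hp') fun e => ?_)
      rw [(ha p hp).2.1, (ha p' hp').2.1] at e
      rcases B.cm_inj _ (hX2 _ (ha p hp).1) _ (hX2 _ (ha p' hp').1) e with h | h
      · exact hne ((ha p hp).2.2 p' hp' h).symm
      · exact hpr ⟨p.1, hX1 _ (ha p hp).1, hX2 _ (ha p hp).1, h ▸ hX1 _ (ha p' hp').1⟩) hca.le
  have h3 := sum_le_card_nsmul a _ _ hlo
  rw [hca] at h2 h3
  have c1 : (1 : ℝ) ≤ 1 + c.ch := by linarith [c.ch0]
  have d0 : (0 : ℝ) ≤ 1 - c.de := by linarith [de1 (c := c)]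
  have d1 : (1 : ℝ) - c.de ≤ 1 := by linarith [c.de0]
  exact absurd (le_trans (mul_le_mul (pow_le_pow_right₀ c1 h2) (pow_le_pow_of_le_one d0 d1 h3)
    (by positivity) (by positivity)) (le_trans h1 (hτ _))) (not_le.2 c.hload)

lemma Lost.mono (l : c.Lost G own T) (h2 : ∀ x, G'.opn x → G.opn x) (h3 : G'.h = G.h)
    (h6 : G'.lo = G.lo) (h7 : G'.Hs = G.Hs) : c.Lost G' own T := by
  intro A hA hh
  rw [h3] at hh
  rw [h6]
  refine le_trans (Nat.add_le_add_left (card_le_card (image_subset_image fun x hx => ?_)) _)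
    (l A hA hh)
  rw [mem_stale] at hx ⊢
  rw [h7] at hx
  exact ⟨hx.1, h2 x hx.2.1, hx.2.2⟩

lemma Lost.change (l : c.Lost G own fun _ => False) (own' : V → Bd) :
    c.Lost G own' fun x => own' x ≠ own x := by
  intro A hA hh
  refine le_trans (Nat.add_le_add_left (card_le_card fun β hβ => ?_) _) (l A hA hh)
  obtain ⟨x, hx, rfl⟩ := mem_image.1 hβ
  rw [mem_stale] at hx
  exact mem_image.2 ⟨x, mem_stale.2 ⟨hx.1, hx.2.1, id, hx.2.2.2⟩, (not_not.1 hx.2.2.1).symm⟩

lemma Lost.sync (B : c.Base G) (l : c.Lost G own T) : c.Lost (G.sync T) own fun _ => False := by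
  intro A hA hh
  refine le_trans (Nat.add_le_add_left (card_le_card (image_subset_image fun x hx => ?_)) _)
    (l A hA hh)
  rw [mem_stale] at hx ⊢
  obtain ⟨h1, h2, -, h3⟩ := hx
  by_cases h : T x
  · rw [show (G.sync T).Hs x = G.H from if_pos h] at h3
    have := B.h_le A
    have : c.h0 ≤ G.h A := hh
    omega
  · rw [show (G.sync T).Hs x = G.Hs x from if_neg h] at h3
    exact ⟨h1, h2, h, h3⟩

lemma Lost.hit (B : c.Base G) (l : c.Lost G own fun _ => False) {z : V} (hz : G.opn z)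
    (cnt : Finset V → Prop) (T : V → Prop) (hK : ∀ A ∈ c.F, (A.image own).card ≤ 2 * c.P.m)
    (hc : ∀ A, c.act G A z G.H → ¬ cnt A →
      (A ∩ G.Hs z).card < c.h0 ∧ ∀ x, own x = own z → T x) : c.Lost (c.hit G z cnt) own T := by
  intro A hA _
  have L := le_hit B z cnt
  have el : (c.hit G z cnt).lo A = if c.act G A z G.H ∧ ¬ cnt A then G.lo A + 1 else G.lo A := rfl
  have sub : (c.stale (c.hit G z cnt) T A).image own ⊆
      (c.stale G (fun _ => False) A).image own := by
    refine image_subset_image fun x hx => ?_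
    rw [mem_stale] at hx ⊢
    exact ⟨hx.1, L.op x hx.2.1, id, hx.2.2.2⟩
  rw [el]
  by_cases h : c.act G A z G.H ∧ ¬ cnt A
  · have h1 := hc A h.1 h.2
    have h2 := l A hA (by rw [B.h_eq A h.1.2.1]; exact h.1.2.2.1)
    have h3 := card_lt_card (ssubset_of_subset_not_subset sub fun h' => by
      obtain ⟨x, hx, e⟩ := mem_image.1
        (h' (mem_image.2 ⟨z, mem_stale.2 ⟨h.1.1, hz, id, h1.1⟩, rfl⟩))
      exact (mem_stale.1 hx).2.2.1 (h1.2 x e))
    rw [if_pos h]; omega
  · rw [if_neg h]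
    by_cases h1 : c.h0 ≤ G.h A
    · exact le_trans (Nat.add_le_add_left (card_le_card sub) _) (l A hA h1)
    · rw [(B.light (not_le.1 h1)).2, zero_add]
      exact le_trans (card_le_card (image_subset_image fun x hx => (mem_stale.1 hx).1)) (hK A hA)

end Cfg

end Pool.Agent.P.MP_d36d9e_co.X
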