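import Pool.Agent.P.MP_d36d9e_co.Y4

/-!
The game layer: a move of the first player on an open point.
-/

namespace Pool.Agent.P.MP_d36d9e_co.X

open Finset
open Classical

set_option linter.unusedSectionVars false

variable {V : Type} [DecidableEq V] [Fintype V] {R N : ℕ}

namespace Cfg

variable (c : Cfg V R N)

/-- the board that owns a point -/
def own (S : St c.P) (x : V) : ℕ × Loc V R N := c.P.A S.cs 1 (Sum.inl x)

/-- the test function of a point with the token placed at a second point -/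
noncomputable def tst (G : Gm V) (x v : V) : Loc V R N → ℝ :=
  fun u => (c.ch + c.de) * c.kap G x (G.Hs x) u + c.a * pt v u

/-- the board can pay for any one move of the first player on its points -/
def E (G : Gm V) (S : St c.P) (β : ℕ × Loc V R N) : Prop :=
  ∀ x v, G.opn x → c.own S x = β → G.opn v → (v = x ∨ adj c.F v x) →
    S.Ph β + S.Lv β (c.tst G x v) ≤ 2 * c.P.S β.1

/-- invariants that hold all the time -/
structure Mid (G : Gm V) (S : St c.P) (τ : Loc V R N → ℝ) : Prop where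
  good : S.Good τ
  base : c.Base G
  tau : c.Tau G τ fun _ => False
  lost : c.Lost G (c.own S) fun _ => False

/-- the active hazard counters near a point -/
noncomputable def zt (G : Gm V) (z : V) (Q : V → Prop) : Loc V R N → ℝ
  | Sum.inl _ => 0
  | Sum.inr (Sum.inl p) => if (adj c.F p.1 z ∧ (p.2 : ℕ) = c.sx G p.1) ∧ Q p.1 then 1 else 0
  | Sum.inr (Sum.inr _) => 0

/-- the positive part of a hit -/
noncomputable def up (G : Gm V) (z : V) : Loc V R N → ℝ :=
  fun u => c.ch * c.kap G z G.H u + c.q * c.zt G z (fun _ => True) u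

variable {c} {G G' : Gm V} {τ τ' : Loc V R N → ℝ} {S S' : St c.P} {β : ℕ × Loc V R N}

lemma own_mem (S : St c.P) {x : V} {u : Loc V R N} (h : c.P.d u (Sum.inl x) ≤ c.P.lam 1) :
    c.own S x ∈ c.P.O S.cs 1 u := c.P.mem_O.2 ⟨_, h, rfl⟩

lemma own_lvl (S : St c.P) (x : V) : 1 ≤ (c.own S x).1 := c.P.A_ge S.cs 1 c.P.h_pos _

lemma own_congr (h : S'.cs = S.cs) : c.own S' = c.own S := by
  funext x; unfold own; rw [h]

lemma own_card (g : S.Good τ) : ∀ A ∈ c.F, (A.image (c.own S)).card ≤ 2 * c.P.m := by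
  intro A hA
  rcases A.eq_empty_or_nonempty with rfl | ⟨x, hx⟩
  · simp
  · refine le_trans (card_le_card fun β hβ => ?_) (g.O_card (Sum.inl x))
    obtain ⟨y, hy, rfl⟩ := mem_image.1 hβ
    exact own_mem S (c.near1 x y ⟨A, hA, hx, hy⟩)

lemma near_add {L : Type} [Fintype L] [DecidableEq L] {P : Par L} {x : L} {g g' : L → ℝ}
    (h : P.Near x g) (h' : P.Near x g') (r s : ℝ) : P.Near x fun u => r * g u + s * g' u := by
  intro u hu
  by_cases h1 : g u = 0
  · refine h' u fun h2 => hu ?_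
    simp only [h1, h2, mul_zero, add_zero]
  · exact h u h1

lemma Lv_comb {L : Type} [Fintype L] [DecidableEq L] {P : Par L} (S : St P) (β : ℕ × L)
    (g g' : L → ℝ) (r s : ℝ) :
    S.Lv β (fun u => r * g u + s * g' u) = r * S.Lv β g + s * S.Lv β g' := by
  rw [St.Lv_add, St.Lv_smul, St.Lv_smul]

lemma pt_near {x v : V} (h : v = x ∨ adj c.F v x) : c.P.Near (Sum.inl x) (pt v) := by
  intro u hu
  have e : u = Sum.inl v := by
    by_contra h'; exact hu (pt_ne h')
  rcases h with rfl | h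
  · rw [e, c.P.d_self]; exact Nat.zero_le _
  · rw [e]; exact c.near1 v x h

lemma tst_near (B : c.Base G) {x v : V} (h : v = x ∨ adj c.F v x) :
    c.P.Near (Sum.inl x) (c.tst G x v) := near_add (B.kap_near x _) (pt_near h) _ _

lemma tst_nonneg (G : Gm V) (x v : V) (u : Loc V R N) : 0 ≤ c.tst G x v u :=
  add_nonneg (mul_nonneg (add_nonneg c.ch0 c.de0) (kap_nonneg _ _ _ _))
    (mul_nonneg c.a0 (pt_nonneg _ _))

lemma tst_le_one (G : Gm V) (x v : V) (u : Loc V R N) : c.tst G x v u ≤ 1 := by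
  have h1 := mul_le_of_le_one_right (add_nonneg c.ch0 c.de0) (kap_le_one (c := c) G x (G.Hs x) u)
  have h2 := mul_le_of_le_one_right c.a0 (pt_le_one v u)
  have := c.sum1
  unfold tst; linarith

lemma tst_mono (B : c.Base G) (L : c.Le G G') {x : V} (h : G'.Hs x = G.Hs x) (v : V)
    (u : Loc V R N) : c.tst G' x v u ≤ c.tst G x v u := by
  unfold tst
  rw [h]
  exact add_le_add_left (mul_le_mul_of_nonneg_left (L.kap x (B.hs x) u) (add_nonneg c.ch0 c.de0)) _

lemma E.mono (e : c.E G S β) (B : c.Base G) (L : c.Le G G') (g : S'.Good τ') (hcs : S'.cs = S.cs)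
    (hs : ∀ x, c.own S x = β → G'.Hs x = G.Hs x)
    (hp : ∀ x f, c.P.Near x f → (∀ u, 0 ≤ f u) → (∀ u, f u ≤ 1) →
      S'.Ph β + S'.Lv β f ≤ S.Ph β + S.Lv β f) : c.E G' S' β := by
  intro x v hx ho hv hvx
  rw [own_congr hcs] at ho
  have h1 := g.Lv_mono β (tst_mono B L (hs x ho) v)
  have h2 := hp _ _ (tst_near B hvx) (tst_nonneg G x v) (tst_le_one G x v)
  have h3 := e x v (L.op x hx) ho (L.op v hv) hvx
  linarith

lemma zt_x (G : Gm V) (z : V) (Q : V → Prop) (x : V) (i : Fin R) :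
    c.zt G z Q (Sum.inr (Sum.inl (x, i))) =
      if (adj c.F x z ∧ (i : ℕ) = c.sx G x) ∧ Q x then 1 else 0 := rfl

lemma zt_nonneg (G : Gm V) (z : V) (Q : V → Prop) : ∀ u, 0 ≤ c.zt G z Q u
  | Sum.inl _ => le_rfl
  | Sum.inr (Sum.inl (x, i)) => by rw [zt_x]; split_ifs <;> norm_num
  | Sum.inr (Sum.inr _) => le_rfl

lemma zt_near (G : Gm V) (z : V) (Q : V → Prop) : c.P.Near (Sum.inl z) (c.zt G z Q) := by
  rintro (v | ⟨x, i⟩ | s) h
  · exact absurd rfl h
  · rw [zt_x] at h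
    split_ifs at h with h1
    · exact c.near2 x i z h1.1.1
    · exact absurd rfl h
  · exact absurd rfl h

lemma zt_sum (S : St c.P) (G : Gm V) (z : V) : ∀ u, c.zt G z (fun _ => True) u ≤
    ∑ β ∈ c.P.O S.cs 1 (Sum.inl z), c.zt G z (fun x => c.own S x = β) u
  | Sum.inl _ => sum_nonneg fun _ _ => zt_nonneg _ _ _ _
  | Sum.inr (Sum.inr _) => sum_nonneg fun _ _ => zt_nonneg _ _ _ _
  | Sum.inr (Sum.inl (x, i)) => by
    rw [zt_x]
    split_ifs with h
    · refine le_trans (le_of_eq ?_) (single_le_sum (fun _ _ => zt_nonneg _ _ _ _)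
        (own_mem S (c.near1 z x (adj_symm h.1.1))))
      rw [zt_x, if_pos ⟨h.1, rfl⟩]
    · exact sum_nonneg fun _ _ => zt_nonneg _ _ _ _

lemma q_le : c.q ≤ 1 := by
  have h1 := c.q1
  have h2 := de1 (c := c)
  have h3 : (1 : ℝ) ≤ (2 * c.P.m : ℕ) := by
    have := c.P.m_pos
    exact_mod_cast (by omega : 1 ≤ 2 * c.P.m)
  nlinarith [c.q0]

lemma ch_le : c.ch + c.de ≤ 1 := by have := c.sum1; have := c.a0; linarith

lemma up_nonneg (G : Gm V) (z : V) (u : Loc V R N) : 0 ≤ c.up G z u :=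
  add_nonneg (mul_nonneg c.ch0 (kap_nonneg _ _ _ _)) (mul_nonneg c.q0 (zt_nonneg _ _ _ _))

lemma up_pt (G : Gm V) (z v : V) : c.up G z (Sum.inl v) = c.ch * c.kap G z G.H (Sum.inl v) := by
  unfold up; rw [show c.zt G z (fun _ => True) (Sum.inl v) = 0 from rfl, mul_zero, add_zero]

lemma up_st (G : Gm V) (z : V) (s : Finset V × Finset (V × Fin N)) :
    c.up G z (Sum.inr (Sum.inr s)) = c.ch * c.kap G z G.H (Sum.inr (Sum.inr s)) := by
  unfold up
  rw [show c.zt G z (fun _ => True) (Sum.inr (Sum.inr s)) = 0 from rfl, mul_zero, add_zero]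

lemma up_x (G : Gm V) (z x : V) (i : Fin R) : c.up G z (Sum.inr (Sum.inl (x, i))) =
    if adj c.F x z ∧ (i : ℕ) = c.sx G x then c.q else 0 := by
  unfold up
  rw [show c.kap G z G.H (Sum.inr (Sum.inl (x, i))) = 0 from rfl, mul_zero, zero_add, zt_x]
  by_cases h : adj c.F x z ∧ (i : ℕ) = c.sx G x
  · rw [if_pos ⟨h, trivial⟩, if_pos h, mul_one]
  · rw [if_neg fun h' => h h'.1, if_neg h, mul_zero]

lemma up_le_one (G : Gm V) (z : V) : ∀ u, c.up G z u ≤ 1 := by
  have h1 : c.ch ≤ 1 := by linarith [ch_le (c := c), c.de0]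
  rintro (v | ⟨x, i⟩ | s)
  · rw [up_pt]; exact le_trans (mul_le_of_le_one_right c.ch0 (kap_le_one _ _ _ _)) h1
  · rw [up_x]; split_ifs
    exacts [q_le, zero_le_one]
  · rw [up_st]; exact le_trans (mul_le_of_le_one_right c.ch0 (kap_le_one _ _ _ _)) h1

/-- a hit with a discount -/
lemma hit_step (M : c.Mid G S τ) (hQ : S.Quiet) (hE : ∀ β, c.E G S β) {z : V} (hz : G.opn z)
    (cnt : Finset V → Prop) (β0 : ℕ × Loc V R N) (ω : Loc V R N → ℝ)
    (wn : c.P.Near (Sum.inl z) ω) (w0 : ∀ u, 0 ≤ ω u) (wA : ∀ v, ω (Sum.inl v) = 0)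
    (wX1 : ∀ x i, ω (Sum.inr (Sum.inl (x, i))) ≤ 1 + c.up G z (Sum.inr (Sum.inl (x, i))))
    (wX2 : ∀ x (i : Fin R), ¬ ((adj c.F x z ∧ (i : ℕ) = c.sx G x) ∧ c.own S x = β0) →
      ω (Sum.inr (Sum.inl (x, i))) = 0)
    (wS1 : ∀ s, c.good G s → (∃ p ∈ s.2, c.act G (G.ad p) z G.H ∧ cnt (G.ad p)) →
      ω (Sum.inr (Sum.inr s)) = 0)
    (wS2 : ∀ s, ω (Sum.inr (Sum.inr s)) ≤ (c.ch + c.de) * c.kap G z G.H (Sum.inr (Sum.inr s)))
    (hc : ∀ A, c.act G A z G.H → ¬ cnt A → (A ∩ G.Hs z).card < c.h0 ∧ c.own S z = β0)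
    (pay : S.Ph (c.own S z) + (S.Lv (c.own S z) (c.up G z) - S.Lv (c.own S z) ω) ≤
      2 * c.P.S (c.own S z).1)
    (keep : c.own S z ≠ β0 → 2 * S.Lv (c.own S z) (c.up G z) ≤ S.Lv (c.own S z) ω) :
    ∃ (S' : St c.P) (τ' : Loc V R N → ℝ),
      c.Mid ((c.hit G z cnt).sync fun x => c.own S x = β0) S' τ' ∧ S'.cs = S.cs ∧
      ∀ β, β ≠ β0 → c.E ((c.hit G z cnt).sync fun x => c.own S x = β0) S' β := by
  have B := M.base
  have un : c.P.Near (Sum.inl z) (c.up G z) := near_add (B.kap_near z _) (zt_near G z _) _ _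
  have en : c.P.Near (Sum.inl z) fun u => 1 * c.up G z u + (-1) * ω u := near_add un wn _ _
  have sS : ∀ s, -c.de ≤ 1 * c.up G z (Sum.inr (Sum.inr s)) + (-1) * ω (Sum.inr (Sum.inr s)) := by
    intro s
    have h1 := wS2 s
    have h2 := mul_le_of_le_one_right c.de0 (kap_le_one (c := c) G z G.H (Sum.inr (Sum.inr s)))
    rw [up_st]; linarith
  have e1 : ∀ u, -1 ≤ 1 * c.up G z u + (-1) * ω u := by
    rintro (v | ⟨x, i⟩ | s)
    · rw [wA]; linarith [up_nonneg (c := c) G z (Sum.inl v)]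
    · linarith [wX1 x i]
    · linarith [sS s, de1 (c := c)]
  obtain ⟨S', g, hcs, hne, hPh, hLv⟩ := M.good.step c.T0 (own_lvl S z) en e1
    (fun u => by linarith [up_le_one (c := c) G z u, w0 u]) (Or.inl hQ)
    (by rw [Lv_comb]; linarith)
  replace g : S'.Good fun u => τ u * (1 + (1 * c.up G z u + (-1) * ω u)) := by
    convert g using 3 with u
    split_ifs with h
    · rfl
    · have : 1 * c.up G z u + (-1) * ω u = 0 := by
        by_contra h'; exact h (own_mem S (en u h'))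
      rw [this, add_zero]
  have B1 := B.hit hz cnt
  have t1 := M.tau.hit B hz cnt (fun x => c.own S x = β0)
    (f := fun u => 1 + (1 * c.up G z u + (-1) * ω u)) (fun u => by linarith [e1 u])
    (fun v hv hne => by
      rw [up_pt, wA, kap_pt, if_pos ⟨hne, hv⟩]; linarith)
    (fun x i _ _ h1 h2 h3 => by
      rw [up_x, wX2 x i fun h => h3 h.2, if_pos ⟨h1, h2⟩]; linarith)
    (fun x i h => by rw [up_x, wX2 x i fun h' => h h'.1, if_neg h]; linarith)
    (fun s h1 h2 => by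
      obtain ⟨p, hp, h3⟩ := h2
      rw [up_st, wS1 s h1 ⟨p, hp, h3⟩, kap_st, if_pos ⟨h1, p, hp, h3.1⟩]; linarith)
    (fun s => by linarith [sS s])
    (fun s h => by
      have h1 := wS2 s
      rw [kap_st, if_neg fun h' => h h'.2] at h1
      linarith [up_nonneg (c := c) G z (Sum.inr (Sum.inr s))])
  have l1 := M.lost.hit B hz cnt (fun x => c.own S x = β0) (own_card M.good)
    fun A h1 h2 => ⟨(hc A h1 h2).1, fun x h => h.trans (hc A h1 h2).2⟩
  refine ⟨S', _, ⟨g, B1.sync _, t1.sync B1, ?_⟩, hcs, fun β hβ => ?_⟩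
  · rw [own_congr hcs]; exact l1.sync B1
  · have e2 : c.E (c.hit G z cnt) S' β := by
      refine (hE β).mono B (le_hit B z cnt) g hcs (fun _ _ => rfl) fun x f h1 h2 h3 => ?_
      by_cases h : β = c.own S z
      · subst h
        have h4 := hLv x (c.up G z) f un (fun u => by linarith [w0 u]) (up_nonneg G z) h1 h2 h3
        have h5 := keep hβ
        rw [Lv_comb] at hPh
        linarith
      · rw [(hne β h).1, (hne β h).2]
    refine e2.mono B1 (le_sync _ _) g rfl (fun x hx => if_neg fun h => hβ ?_)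
      fun _ _ _ _ _ => le_rfl
    rw [own_congr hcs] at hx
    exact hx.symm.trans h

/-- the part of the marginal on the stars that the snapshot does not see -/
noncomputable def gap (c : Cfg V R N) (G : Gm V) (z : V) : Loc V R N → ℝ
  | Sum.inl _ => 0
  | Sum.inr (Sum.inl _) => 0
  | Sum.inr (Sum.inr s) =>
      c.kap G z G.H (Sum.inr (Sum.inr s)) - c.kap G z (G.Hs z) (Sum.inr (Sum.inr s))

lemma kap_st_le (B : c.Base G) (z : V) (s : Finset V × Finset (V × Fin N)) :
    c.kap G z (G.Hs z) (Sum.inr (Sum.inr s)) ≤ c.kap G z G.H (Sum.inr (Sum.inr s)) := by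
  by_cases h : c.good G s ∧ ∃ p ∈ s.2, c.act G (G.ad p) z (G.Hs z)
  · obtain ⟨p, hp, h1, h2, h3, h4⟩ := h.2
    rw [kap_st, kap_st, if_pos h, if_pos ⟨h.1, p, hp, h1, h2,
      le_trans h3 (card_le_card (inter_subset_inter subset_rfl (B.hs z))), h4⟩]
  · rw [kap_st G z (G.Hs z), if_neg h]; exact kap_nonneg _ _ _ _

/-- edges through a point that were hit after its snapshot -/
noncomputable def fresh (c : Cfg V R N) (G : Gm V) (z : V) : Finset (Finset V) :=
  c.F.filter fun A => z ∈ A ∧ ¬ A ∩ G.H ⊆ G.Hs z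

lemma fresh_card {z : V} (hz : G.opn z) : (c.fresh G z).card ≤ c.rx G z * c.mu := by
  refine le_trans (card_le_card (t := ((G.H \ G.Hs z) ∩ c.nb z).biUnion
    fun w => c.F.filter fun A => z ∈ A ∧ w ∈ A) fun A hA => ?_)
    (card_biUnion_le_card_mul _ _ _ fun w hw => c.pd z w ?_)
  · obtain ⟨h1, h2, h3⟩ := mem_filter.1 hA
    obtain ⟨w, h4, h5⟩ := not_subset.1 h3
    rw [mem_inter] at h4
    exact mem_biUnion.2 ⟨w, mem_inter.2 ⟨mem_sdiff.2 ⟨h4.2, h5⟩,
      mem_filter.2 ⟨mem_univ _, A, h1, h2, h4.1⟩⟩, mem_filter.2 ⟨h1, h2, h4.1⟩⟩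
  · rintro rfl
    exact opn_not_H hz (mem_sdiff.1 (mem_inter.1 hw).1).1

lemma W_fresh (B : c.Base G) (z v : V) : c.W G v z G.H ≤
    c.W G v z (G.Hs z) + ∑ A ∈ c.fresh G z, if v ∈ A then c.eta else 0 := by
  unfold W fresh
  rw [sum_filter, ← sum_add_distrib]
  refine sum_le_sum fun A _ => ?_
  have n1 : 0 ≤ if v ∈ A ∧ z ∈ A ∧ G.alive A ∧ (A ∩ G.Hs z).card < c.h0 then
      c.wt (A ∩ G.Hs z).card else 0 := by
    split_ifs
    exacts [wt_nonneg _, le_rfl]
  have n2 : 0 ≤ if z ∈ A ∧ ¬ A ∩ G.H ⊆ G.Hs z then (if v ∈ A then c.eta else 0) else 0 := by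
    split_ifs
    exacts [c.eta0.le, le_rfl, le_rfl]
  by_cases h : v ∈ A ∧ z ∈ A ∧ G.alive A ∧ (A ∩ G.H).card < c.h0
  · by_cases h1 : A ∩ G.H ⊆ G.Hs z
    · have e : A ∩ G.Hs z = A ∩ G.H :=
        Subset.antisymm (inter_subset_inter subset_rfl (B.hs z))
          (subset_inter inter_subset_left h1)
      rw [e]; linarith
    · rw [if_pos h, if_pos (⟨h.2.1, h1⟩ : z ∈ A ∧ ¬ A ∩ G.H ⊆ G.Hs z), if_pos h.1]
      linarith [wt_le (c := c) h.2.2.2.le]
  · rw [if_neg h]; linarith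

/-- the excess of the true marginal over the marginal of the snapshot -/
noncomputable def exc (c : Cfg V R N) (G : Gm V) (z : V) : Loc V R N → ℝ :=
  fun u => ∑ A ∈ c.fresh G z, ∑ v ∈ A.filter G.opn, c.eta * pt v u

lemma exc_nonneg (G : Gm V) (z : V) (u : Loc V R N) : 0 ≤ c.exc G z u :=
  sum_nonneg fun _ _ => sum_nonneg fun _ _ => mul_nonneg c.eta0.le (pt_nonneg _ _)

lemma split_le (B : c.Base G) (z : V) : ∀ u, (c.ch + c.de) * c.kap G z G.H u ≤
    (c.ch + c.de) * c.kap G z (G.Hs z) u + ((c.ch + c.de) * c.gap G z u + 1 * c.exc G z u)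
  | Sum.inr (Sum.inr s) => by
    have := exc_nonneg (c := c) G z (Sum.inr (Sum.inr s))
    rw [gap]; linarith
  | Sum.inr (Sum.inl p) => by
    have := exc_nonneg (c := c) G z (Sum.inr (Sum.inl p))
    rw [gap, kap, kap]; linarith
  | Sum.inl v => by
    have h0 := exc_nonneg (c := c) G z (Sum.inl v)
    rw [gap, kap_pt, kap_pt]
    split_ifs with h
    · have h1 := W_fresh B z v
      have h2 : (∑ A ∈ c.fresh G z, if v ∈ A then c.eta else 0) ≤ c.exc G z (Sum.inl v) := by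
        refine sum_le_sum fun A _ => ?_
        have h3 : ∀ w ∈ A.filter G.opn, 0 ≤ c.eta * pt (R := R) (N := N) w (Sum.inl v) :=
          fun _ _ => mul_nonneg c.eta0.le (pt_nonneg _ _)
        split_ifs with h4
        · refine le_trans (le_of_eq ?_) (single_le_sum h3 (mem_filter.2 ⟨h4, h.2⟩))
          rw [pt_self, mul_one]
        · exact sum_nonneg h3
      have h3 := mul_le_mul_of_nonneg_left (le_trans h1 (add_le_add_right h2 _))
        (add_nonneg c.ch0 c.de0)
      have h4 := mul_le_of_le_one_left h0 (ch_le (c := c))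
      linarith
    · linarith

lemma Lv_exc (M : c.Mid G S τ) {z : V} (hz : G.opn z) (β : ℕ × Loc V R N) {top : ℝ} (h0 : 0 ≤ top)
    (h : ∀ v, G.opn v → adj c.F v z → S.Lv β (pt v) ≤ top) : S.Lv β (c.exc G z) ≤ c.a * top := by
  unfold exc
  rw [St.Lv_sum]
  refine le_trans (sum_le_card_nsmul _ _ (c.n * (c.eta * top)) fun A hA => ?_) ?_
  · obtain ⟨h1, h2, -⟩ := mem_filter.1 hA
    rw [St.Lv_sum]
    refine le_trans (sum_le_card_nsmul _ _ (c.eta * top) fun v hv => ?_) ?_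
    · rw [St.Lv_smul]
      exact mul_le_mul_of_nonneg_left
        (h v (mem_filter.1 hv).2 ⟨A, h1, (mem_filter.1 hv).1, h2⟩) c.eta0.le
    · rw [nsmul_eq_mul]
      refine mul_le_mul_of_nonneg_right ?_ (mul_nonneg c.eta0.le h0)
      exact_mod_cast le_trans (card_filter_le _ _) (c.card A h1).le
  · have h1 : (c.fresh G z).card ≤ c.mu * c.R0 := by
      rw [mul_comm]
      exact le_trans (fresh_card hz) (Nat.mul_le_mul_right _ (M.tau.rx_le M.good.bound hz))
    have h2 : ((c.fresh G z).card : ℝ) ≤ c.mu * c.R0 := by exact_mod_cast h1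
    have h3 := c.eta0
    rw [nsmul_eq_mul]
    refine le_trans (mul_le_mul_of_nonneg_right h2 (by positivity)) ?_
    refine le_trans (le_of_eq ?_) (mul_le_mul_of_nonneg_right c.hex h0)
    ring

/-- the first player takes an open point -/
theorem hit_round (M : c.Mid G S τ) (hQ : S.Quiet) (hE : ∀ β, c.E G S β) {z : V} (hz : G.opn z) :
    ∃ (cnt : Finset V → Prop) (β0 : ℕ × Loc V R N) (S' : St c.P) (τ' : Loc V R N → ℝ),
      1 ≤ β0.1 ∧ c.Mid ((c.hit G z cnt).sync fun x => c.own S x = β0) S' τ' ∧ S'.cs = S.cs ∧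
      ∀ β, β ≠ β0 → c.E ((c.hit G z cnt).sync fun x => c.own S x = β0) S' β := by
  have B := M.base
  have g := M.good
  obtain ⟨β1, hβ1, hmax⟩ := exists_max_image (c.P.O S.cs 1 (Sum.inl z))
    (fun β => S.Lv (c.own S z) (c.zt G z fun x => c.own S x = β))
    ⟨c.own S z, own_mem S (by rw [c.P.d_self]; exact Nat.zero_le _)⟩
  set Pz := S.Lv (c.own S z) (c.kap G z G.H) with hPz
  set Xs := S.Lv (c.own S z) (c.zt G z fun x => c.own S x = β1) with hXs
  have p0 : 0 ≤ Pz := g.Lv_nonneg _ (kap_nonneg _ _ _)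
  have x0 : 0 ≤ Xs := g.Lv_nonneg _ (zt_nonneg _ _ _)
  have hall : c.q * S.Lv (c.own S z) (c.zt G z fun _ => True) ≤ c.de / 4 * Xs := by
    have h1 := g.Lv_mono (c.own S z) (zt_sum S G z)
    rw [St.Lv_sum] at h1
    have h2 := le_trans h1 (sum_le_card_nsmul _ _ Xs hmax)
    have h3 : ((c.P.O S.cs 1 (Sum.inl z)).card : ℝ) ≤ (2 * c.P.m : ℕ) := by
      exact_mod_cast g.O_card _
    rw [nsmul_eq_mul] at h2
    have h4 := mul_le_mul_of_nonneg_left (le_trans h2 (mul_le_mul_of_nonneg_right h3 x0)) c.q0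
    have h5 := mul_le_mul_of_nonneg_right c.q1 x0
    linarith
  have hup : S.Lv (c.own S z) (c.up G z) =
      c.ch * Pz + c.q * S.Lv (c.own S z) (c.zt G z fun _ => True) := Lv_comb _ _ _ _ _ _
  have d1 := de1 (c := c)
  have d0 := c.de0
  have c1 : c.ch ≤ 1 := by linarith [ch_le (c := c)]
  by_cases hJ : 4 * Pz ≤ Xs
  · have hl : 1 ≤ β1.1 := by
      obtain ⟨x, -, rfl⟩ := c.P.mem_O.1 hβ1
      exact c.P.A_ge S.cs 1 c.P.h_pos x
    have key : 2 * S.Lv (c.own S z) (c.up G z) ≤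
        S.Lv (c.own S z) fun u => (1 + c.q) * c.zt G z (fun x => c.own S x = β1) u := by
      rw [St.Lv_smul, hup, ← hXs]
      have := mul_le_of_le_one_left p0 c1
      have := mul_le_of_le_one_left x0 d1
      have := mul_nonneg c.q0 x0
      linarith
    obtain ⟨S', τ', h⟩ := hit_step M hQ hE hz (fun _ => True) β1
      (fun u => (1 + c.q) * c.zt G z (fun x => c.own S x = β1) u)
      (fun u hu => zt_near G z _ u (right_ne_zero_of_mul hu))
      (fun u => mul_nonneg (by linarith [c.q0]) (zt_nonneg _ _ _ _))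
      (fun v => mul_zero _)
      (fun x i => by
        rw [zt_x, up_x]
        split_ifs with h1 h2 h2
        · linarith
        · exact absurd h1.1 h2
        · linarith [c.q0]
        · linarith)
      (fun x i h => by rw [zt_x, if_neg h, mul_zero])
      (fun s _ _ => mul_zero _)
      (fun s => le_trans (le_of_eq (mul_zero _))
        (mul_nonneg (add_nonneg c.ch0 c.de0) (kap_nonneg _ _ _ _)))
      (fun A _ h => absurd trivial h)
      (by linarith [g.Ph_le (c.own S z), g.Lv_nonneg (c.own S z) (up_nonneg (c := c) G z)])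
      (fun _ => key)
    exact ⟨_, β1, S', τ', hl, h⟩
  · obtain ⟨v, hv, hvm⟩ := exists_max_image (univ.filter fun v => G.opn v ∧ (v = z ∨ adj c.F v z))
      (fun v => S.Lv (c.own S z) (pt v)) ⟨z, mem_filter.2 ⟨mem_univ _, hz, Or.inl rfl⟩⟩
    have hv' := (mem_filter.1 hv).2
    have tok := hE _ z v hz rfl hv'.1 hv'.2
    have e1 : S.Lv (c.own S z) (c.tst G z v) = (c.ch + c.de) *
        S.Lv (c.own S z) (c.kap G z (G.Hs z)) + c.a * S.Lv (c.own S z) (pt v) := Lv_comb _ _ _ _ _ _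
    have e2 := Lv_exc M hz (c.own S z) (g.Lv_nonneg _ (pt_nonneg v))
      fun w h1 h2 => hvm w (mem_filter.2 ⟨mem_univ _, h1, Or.inr h2⟩)
    have e3 := g.Lv_mono (c.own S z) (split_le B z)
    rw [St.Lv_add, Lv_comb, St.Lv_smul, St.Lv_smul, ← hPz] at e3
    have g0 : ∀ u, 0 ≤ c.gap G z u := by
      rintro (v | p | s)
      exacts [le_rfl, le_rfl, sub_nonneg.2 (kap_st_le B z s)]
    obtain ⟨S', τ', h⟩ := hit_step M hQ hE hz (fun A => c.h0 ≤ (A ∩ G.Hs z).card) (c.own S z)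
      (fun u => (c.ch + c.de) * c.gap G z u)
      (by
        rintro (v | p | s) hu
        · exact absurd (mul_zero _) hu
        · exact absurd (mul_zero _) hu
        · refine B.kap_near z G.H _ fun h => right_ne_zero_of_mul hu ?_
          have h1 := g0 (Sum.inr (Sum.inr s))
          have h2 := kap_nonneg (c := c) G z (G.Hs z) (Sum.inr (Sum.inr s))
          rw [gap] at h1 ⊢
          linarith)
      (fun u => mul_nonneg (add_nonneg c.ch0 c.de0) (g0 u))
      (fun v => mul_zero _)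
      (fun x i => le_trans (le_of_eq (mul_zero _))
        (by linarith [up_nonneg (c := c) G z (Sum.inr (Sum.inl (x, i)))]))
      (fun x i _ => mul_zero _)
      (fun s h1 ⟨p, hp, h2, h3⟩ => by
        rw [gap, kap_st, kap_st, if_pos ⟨h1, p, hp, h2⟩,
          if_pos ⟨h1, p, hp, h2.1, h2.2.1, h3, h2.2.2.2⟩, sub_self, mul_zero])
      (fun s => mul_le_mul_of_nonneg_left (by
        rw [gap]; linarith [kap_nonneg (c := c) G z (G.Hs z) (Sum.inr (Sum.inr s))])
        (add_nonneg c.ch0 c.de0))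
      (fun A _ h => ⟨not_le.1 h, rfl⟩)
      (by
        rw [hup, St.Lv_smul]
        have := mul_le_mul_of_nonneg_left (not_le.1 hJ).le d0
        linarith)
      (fun h => absurd rfl h)
    exact ⟨_, _, S', τ', own_lvl S z, h⟩

end Cfg

end Pool.Agent.P.MP_d36d9e_co.X
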