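import Pool.Agent.P.MP_d36d9e_co.Y5

/-!
The game layer: commitments, the reply of the second player and the invariant of the play.
-/

namespace Pool.Agent.P.MP_d36d9e_co.X

open Finset
open Classical

set_option linter.unusedSectionVars false

variable {V : Type} [DecidableEq V] [Fintype V] {R N : ℕ}

namespace Cfg

variable (c : Cfg V R N)

/-- the partner of a taken committed point belongs to the second player -/
def Rep (G : Gm V) : Prop := ∀ x ∈ G.Cm, x ∈ G.Mk → G.pr x ∈ G.Br

/-- every heavy edge that is not blocked contains a committed pair -/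
def Prot (G : Gm V) : Prop := ∀ A ∈ c.F, G.alive A → c.h1 ≤ G.h A → G.prot A

/-- the state between the move of the first player and the reply -/
structure Pre (G : Gm V) (S : St c.P) (τ : Loc V R N → ℝ) (β0 : ℕ × Loc V R N) : Prop where
  mid : c.Mid G S τ
  rep : Rep G
  ee : ∀ β, β ≠ β0 → c.E G S β
  syn : ∀ x, c.own S x = β0 → G.Hs x = G.H

/-- the state after the reply -/
structure Inv (G : Gm V) (S : St c.P) (τ : Loc V R N → ℝ) : Prop where
  mid : c.Mid G S τ
  rep : Rep G
  ee : ∀ β, c.E G S β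
  prot : c.Prot G

variable {c} {G G' : Gm V} {τ τ' : Loc V R N → ℝ} {S S' : St c.P} {β β0 : ℕ × Loc V R N}

lemma Mid.load (M : c.Mid G S τ) {A : Finset V} (hA : A ∈ c.F) (hp : ¬ G.prot A) :
    (A ∩ G.Cm).card < c.J := M.tau.load M.base M.good.bound M.lost hA hp

lemma Mid.mono (M : c.Mid G S τ) (B : c.Base G') (L : c.Le G G') (h3 : G'.h = G.h)
    (h4 : G'.ls = G.ls) (h5 : G'.Y = G.Y) (h6 : G'.lo = G.lo) (h7 : G'.Hs = G.Hs)
    (h8 : G'.H = G.H) : c.Mid G' S τ :=
  ⟨M.good, B, M.tau.mono L h3 h4 h5 h6 h7 h8, M.lost.mono L.op h3 h6 h7⟩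

lemma E.later (e : c.E G S β) (M : c.Mid G S τ) (L : c.Le G G') (h7 : G'.Hs = G.Hs) :
    c.E G' S β := e.mono M.base L M.good rfl (fun _ _ => by rw [h7]) fun _ _ _ _ _ => le_rfl

lemma commit_prot {A E : Finset V} {x y : V} (hx : G.opn x) (hy : G.opn y) (h : G.prot E) :
    (G.commit A x y).prot E := by
  obtain ⟨w, h1, h2, h3⟩ := h
  exact ⟨w, h1, mem_insert_of_mem (mem_insert_of_mem h2), by rw [(commit_pr hx hy h2).1]; exact h3⟩

lemma Pre.commit_all : ∀ (k : ℕ) (G : Gm V), (c.F.filter fun A => ¬ G.prot A).card < k →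
    c.Pre G S τ β0 → (∀ A ∈ c.F, G.alive A → G.prot A ∨ G.h A ≤ c.h1) →
    ∃ G' : Gm V, G'.Mk = G.Mk ∧ G'.Br = G.Br ∧ c.Pre G' S τ β0 ∧ c.Prot G' := by
  intro k
  induction k with
  | zero => intro G h; omega
  | succ k ih =>
    intro G hk p hh
    by_cases hP : c.Prot G
    · exact ⟨G, rfl, rfl, p, hP⟩
    · simp only [Prot, not_forall] at hP
      obtain ⟨A, hA, ha, h1, hp⟩ := hP
      have M := p.mid
      have B := M.base
      have h2 := (hh A hA ha).resolve_left hp
      have h3 := M.load hA hp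
      have h4 : A.card ≤ (A ∩ G.H).card + (A ∩ G.Cm).card + (A.filter G.opn).card := by
        refine le_trans (card_le_card (t := A ∩ G.H ∪ A ∩ G.Cm ∪ A.filter G.opn) fun w hw => ?_)
          (le_trans (card_union_le _ _) (Nat.add_le_add_right (card_union_le _ _) _))
        simp only [mem_union, mem_inter, mem_filter, Gm.H, mem_sdiff, Gm.opn]
        have := ha w hw
        tauto
      have h5 := B.h_eq A ha
      have h6 := c.card A hA
      have h7 := c.hn
      obtain ⟨x, hx, y, hy, hxy⟩ := one_lt_card.1 (show 1 < (A.filter G.opn).card by omega)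
      rw [mem_filter] at hx hy
      have h8 := le_trans c.h01 h1
      have B' := B.commit hx.2 hy.2 hxy hx.1 hy.1 h1 hp
        (M.tau.addr B M.good.bound hx.2 hA hx.1 h8) (M.tau.addr B M.good.bound hy.2 hA hy.1 h8)
      have L := le_commit (c := c) G A x y
      have hH := commit_H (A := A) hx.2 hy.2
      refine ih (G.commit A x y) ?_
        ⟨M.mono B' L rfl rfl rfl rfl rfl hH, ?_, fun β hβ => (p.ee β hβ).later M L rfl,
          fun w hw => by rw [hH]; exact p.syn w hw⟩
        fun E hE hal => (hh E hE hal).imp_left (commit_prot hx.2 hy.2)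
      · refine lt_of_lt_of_le (card_lt_card ⟨fun E hE => ?_, fun h => ?_⟩) (Nat.lt_succ_iff.1 hk)
        · rw [mem_filter] at hE ⊢
          exact ⟨hE.1, fun h => hE.2 (commit_prot hx.2 hy.2 h)⟩
        · refine (mem_filter.1 (h (mem_filter.2 ⟨hA, hp⟩))).2 ⟨x, hx.1, mem_insert_self _ _, ?_⟩
          rw [show (G.commit A x y).pr x = y from if_pos rfl]; exact hy.1
      · intro w hw hm
        have h9 : w ∈ G.Cm := by
          rcases mem_insert.1 hw with rfl | h
          · exact absurd hm hx.2.1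
          · rcases mem_insert.1 h with rfl | h
            · exact absurd hm hy.2.1
            · exact h
        rw [(commit_pr hx.2 hy.2 h9).1]
        exact p.rep w h9 hm

lemma Rep.kill (r : Rep G) (y : V) : Rep (G.kill y) :=
  fun x h1 h2 => mem_insert_of_mem (r x h1 h2)

lemma Prot.kill (r : c.Prot G) (y : V) : c.Prot (G.kill y) :=
  fun A hA h1 h2 => r A hA ((le_kill (c := c) G y).al A h1) h2

lemma Mid.kill (M : c.Mid G S τ) {y : V} (hy : y ∉ G.Mk) : c.Mid (G.kill y) S τ :=
  M.mono (M.base.kill hy) (le_kill G y) rfl rfl rfl rfl rfl rfl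

/-- the reply that refreshes a board -/
theorem Pre.reply (p : c.Pre G S τ β0) (hβ : 1 ≤ β0.1) (hP : c.Prot G)
    (hf : ∃ y, y ∉ G.Mk ∧ y ∉ G.Br) :
    ∃ (y : V) (S' : St c.P) (τ' : Loc V R N → ℝ), y ∉ G.Mk ∧ y ∉ G.Br ∧ c.Inv (G.kill y) S' τ' := by
  have M := p.mid
  have B := M.base
  by_cases ho : ∃ y, G.opn y
  · obtain ⟨y, hy, hmax⟩ := exists_max_image (univ.filter G.opn) (fun y => S.Lv β0 (c.kk G y))
      (by obtain ⟨y, hy⟩ := ho; exact ⟨y, mem_filter.2 ⟨mem_univ _, hy⟩⟩)
    have hy' := (mem_filter.1 hy).2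
    have hm : ∀ w, G.opn w → S.Lv β0 (c.kk G w) ≤ S.Lv β0 (c.kk G y) :=
      fun w hw => hmax w (mem_filter.2 ⟨mem_univ _, hw⟩)
    have t0 : 0 ≤ S.Lv β0 (c.kk G y) := M.good.Lv_nonneg _ (kk_nonneg G y)
    have en : c.P.Near (Sum.inl y) fun u => (-1) * c.kk G y u := by
      intro u hu
      have := near_add (B.kap_near y G.H) (pt_near (c := c) (Or.inl rfl)) 1 1 u
      simp only [one_mul] at this
      exact this (right_ne_zero_of_mul hu)
    obtain ⟨S', g, hcs, hne, hPh, hLv⟩ := M.good.step c.T0 hβ en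
      (fun u => by linarith [kk_le_one (c := c) G y u])
      (fun u => by linarith [kk_nonneg (c := c) G y u])
      (Or.inr fun u => by linarith [kk_nonneg (c := c) G y u])
      (by rw [St.Lv_smul]; linarith [M.good.Ph_le β0])
    have L := le_kill (c := c) G y
    refine ⟨y, S', _, hy'.1, hy'.2.1, ⟨g, B.kill hy'.1, M.tau.kill B y fun u => ?_, ?_⟩,
      p.rep.kill y, fun β => ?_, hP.kill y⟩
    · split_ifs
      · linarith
      · linarith [kk_nonneg (c := c) G y u]
    · rw [own_congr hcs]; exact M.lost.mono L.op rfl rfl rfl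
    · by_cases h : β = β0
      · subst h
        intro x v hx hox hv hvx
        rw [own_congr hcs] at hox
        have h1 := g.Lv_mono β (tst_mono B L (x := x) rfl v)
        have h2 := hLv _ (fun _ => 0) _ (fun u hu => absurd rfl hu)
          (fun u => by linarith [kk_nonneg (c := c) G y u]) (fun _ => le_rfl) (tst_near B hvx)
          (tst_nonneg G x v) (tst_le_one G x v)
        have h3 : S.Lv β (c.tst G x v) ≤
            S.Lv β fun u => (c.ch + c.de) * c.kk G x u + c.a * c.kk G v u := by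
          refine M.good.Lv_mono β fun u => ?_
          unfold tst kk
          rw [p.syn x hox]
          exact add_le_add
            (mul_le_mul_of_nonneg_left (le_add_of_nonneg_right (pt_nonneg _ _))
              (add_nonneg c.ch0 c.de0))
            (mul_le_mul_of_nonneg_left (le_add_of_nonneg_left (kap_nonneg _ _ _ _)) c.a0)
        rw [Lv_comb] at h3
        rw [St.Lv_zero] at h2
        rw [St.Lv_smul] at hPh
        have h4 := mul_le_mul_of_nonneg_left (hm x (L.op x hx)) (add_nonneg c.ch0 c.de0)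
        have h5 := mul_le_mul_of_nonneg_left (hm v (L.op v hv)) c.a0
        have h6 := mul_le_of_le_one_left t0 c.sum1
        have h7 := M.good.Ph_le β
        linarith
      · exact (p.ee β h).mono B L g hcs (fun _ _ => rfl) fun x f _ _ _ => by
          rw [(hne β h).1, (hne β h).2]
  · obtain ⟨y, h1, h2⟩ := hf
    exact ⟨y, S, τ, h1, h2, M.kill h1, p.rep.kill y,
      fun β x v hx => absurd ⟨x, (le_kill (c := c) G y).op x hx⟩ ho, hP.kill y⟩

/-- the events after the reply -/
theorem Inv.settle (I : c.Inv G S τ) :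
    ∃ (G' : Gm V) (S' : St c.P), G'.Mk = G.Mk ∧ G'.Br = G.Br ∧ c.Inv G' S' τ ∧ S'.Quiet := by
  refine (I.mid.good.settle c.T0
    (fun S => ∃ G' : Gm V, G'.Mk = G.Mk ∧ G'.Br = G.Br ∧ c.Inv G' S τ) ?_ ⟨G, rfl, rfl, I⟩).elim ?_
  swap
  · rintro S' ⟨-, ⟨G', h1, h2, h3⟩, h4⟩
    exact ⟨G', S', h1, h2, h3, h4⟩
  · rintro S1 S2 - g ev ⟨G1, h1, h2, I1⟩
    have B := I1.mid.base
    refine ⟨G1.sync fun x => c.own S2 x ≠ c.own S1 x, h1, h2,
      ⟨g, B.sync _, (I1.mid.tau.weak _).sync B, (I1.mid.lost.change _).sync B⟩, I1.rep, ?_,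
      I1.prot⟩
    intro β x v hx hox hv hvx
    refine ev β _ _ (hox ▸ own_lvl S2 x) (tst_near (B.sync _) hvx) (tst_nonneg _ x v)
      (tst_le_one _ x v) (fun h => ?_) hox
    have h3 : c.own S2 x = c.own S1 x := h
    have h4 := I1.mid.good.Lv_mono β (tst_mono B
      (le_sync G1 fun x => c.own S2 x ≠ c.own S1 x) (x := x) (if_neg (not_not.2 h3)) v)
    have h5 := I1.ee β x v hx (h3.symm.trans hox) hv hvx
    linarith

theorem Inv.safe (I : c.Inv G S τ) {z : V} (hz : z ∉ G.Br) {A : Finset V} (hA : A ∈ c.F) :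
    ¬ A ⊆ insert z G.Mk := by
  intro hs
  have B := I.mid.base
  have ha : G.alive A := by
    intro w hw
    rcases mem_insert.1 (hs hw) with rfl | h
    · exact hz
    · exact B.dj w h
  by_cases hp : G.prot A
  · obtain ⟨x, h1, h2, h3⟩ := hp
    have h4 := B.pr_mem x h2
    rcases mem_insert.1 (hs h1) with h5 | h5
    · rcases mem_insert.1 (hs h3) with h6 | h6
      · exact h4.2.1 (h6.trans h5.symm)
      · have := I.rep _ h4.1 h6
        rw [h4.2.2] at this
        exact ha x h1 this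
    · exact ha _ h3 (I.rep x h2 h5)
  · have h1 := I.mid.load hA hp
    have h2 : G.h A < c.h1 := not_le.1 fun h => hp (I.prot A hA ha h)
    have h3 : A.card ≤ (A ∩ G.H).card + (A ∩ G.Cm).card + 1 := by
      refine le_trans (card_le_card (t := insert z (A ∩ G.H ∪ A ∩ G.Cm)) fun w hw => ?_)
        (le_trans (card_insert_le _ _) (Nat.add_le_add_right (card_union_le _ _) _))
      have := mem_insert.1 (hs hw)
      simp only [mem_insert, mem_union, mem_inter, Gm.H, mem_sdiff]
      tauto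
    have h5 := B.h_eq A ha
    have h6 := c.card A hA
    have h7 := c.hn
    omega

theorem Inv.round (I : c.Inv G S τ) (hQ : S.Quiet) {z : V} (hz : z ∉ G.Mk) (hz' : z ∉ G.Br)
    (hf : ∃ y, y ∉ insert z G.Mk ∧ y ∉ G.Br) :
    ∃ (y : V) (G' : Gm V) (S' : St c.P) (τ' : Loc V R N → ℝ), y ∉ insert z G.Mk ∧ y ∉ G.Br ∧
      G'.Mk = insert z G.Mk ∧ G'.Br = insert y G.Br ∧ c.Inv G' S' τ' ∧ S'.Quiet := by
  have M := I.mid
  have B := M.base
  by_cases hc : z ∈ G.Cm
  · have h1 := B.pr_mem z hc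
    obtain ⟨y, h2, h3, h4⟩ : ∃ y, y ∉ insert z G.Mk ∧ y ∉ G.Br ∧ G.pr z ∈ insert y G.Br := by
      by_cases h : G.pr z ∈ G.Br
      · obtain ⟨y, h2, h3⟩ := hf
        exact ⟨y, h2, h3, mem_insert_of_mem h⟩
      · refine ⟨G.pr z, fun h' => ?_, h, mem_insert_self _ _⟩
        rcases mem_insert.1 h' with h5 | h5
        · exact h1.2.1 h5
        · have := I.rep _ h1.1 h5
          rw [h1.2.2] at this
          exact hz' this
    have L := le_take (c := c) G z
    have M1 : c.Mid (G.take z) S τ :=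
      M.mono (B.take hc hz') L rfl rfl rfl rfl rfl (take_H hc)
    refine ⟨y, (G.take z).kill y, S, τ, h2, h3, rfl, rfl, ⟨M1.kill h2, fun x hx hm => ?_,
      fun β => ((I.ee β).later M L rfl).later M1 (le_kill _ y) rfl,
      Prot.kill (G := G.take z) I.prot y⟩, hQ⟩
    rcases mem_insert.1 hm with rfl | h
    · exact h4
    · exact mem_insert_of_mem (I.rep x hx h)
  · have ho : G.opn z := ⟨hz, hz', hc⟩
    obtain ⟨cnt, β0, S1, τ1, hβ, M1, hcs, e1⟩ := hit_round M hQ I.ee ho
    obtain ⟨G2, m2, b2, p2, q2⟩ := Pre.commit_all _ _ (Nat.lt_succ_self _)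
      (⟨M1, fun x hx hm => by
          rcases mem_insert.1 hm with rfl | h
          · exact absurd hx hc
          · exact I.rep x hx h, e1, fun x hx => if_pos (by rw [own_congr hcs] at hx; exact hx)⟩ :
        c.Pre _ S1 τ1 β0)
      (fun A hA ha => by
        by_cases hp : G.prot A
        · exact Or.inl hp
        · have h2 : G.h A < c.h1 := not_le.1 fun h => hp (I.prot A hA ha h)
          refine Or.inr ?_
          show (if z ∈ A ∧ G.alive A then G.h A + 1 else G.h A) ≤ c.h1
          split_ifs <;> omega)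
    have m3 : G2.Mk = insert z G.Mk := m2
    have b3 : G2.Br = G.Br := b2
    obtain ⟨y, S3, τ3, h1, h2, I3⟩ := p2.reply hβ q2 (by rw [m3, b3]; exact hf)
    obtain ⟨G4, S4, m4, b4, I4, q4⟩ := I3.settle
    rw [m3] at h1
    rw [b3] at h2
    exact ⟨y, G4, S4, τ3, h1, h2, m4.trans m3, by rw [b4, ← b3]; rfl, I4, q4⟩

/-- the starting position -/
def start : Gm V :=
  ⟨∅, ∅, ∅, id, fun _ => ∅, fun _ => 0, fun _ => [], fun _ => ∅, fun _ => 0, fun _ => ∅⟩

lemma start_inv : c.Inv start (St.init c.P) fun _ => 1 := by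
  have h0 := c.h0_pos
  have h1 := c.h01
  have B : c.Base start :=
    { dj := fun x hx => absurd hx (notMem_empty x)
      h_le := fun _ => Nat.zero_le _
      h_eq := fun A _ => by simp [start, Gm.H]
      hs := fun _ => empty_subset _
      ls_mem := fun x A => by simp only [start, List.not_mem_nil, false_iff]; omega
      ls_len := fun _ => Nat.zero_le _
      Y_sub := fun _ => empty_subset _
      Y_card := fun A => by simp [start]
      pr_mem := fun x hx => absurd hx (notMem_empty x)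
      cm_E := fun x hx => absurd hx (notMem_empty x)
      cm_inj := fun x hx => absurd hx (notMem_empty x) }
  refine ⟨⟨St.init_good _, B, ⟨fun _ => zero_le_one, fun v _ => ?_, fun x _ i _ _ => ?_,
    fun s _ => ?_⟩, fun A _ h => ?_⟩, fun x hx => absurd hx (notMem_empty x),
    fun β x v _ _ _ h => St.init_test _ β (tst_near B h) (tst_le_one _ x v), fun A _ _ h => ?_⟩
  · refine Real.exp_le_one_iff.2 (mul_nonpos_of_nonneg_of_nonpos c.la0 (sub_nonpos.2 ?_))
    refine le_trans ?_ (c.ini v)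
    rw [← nsmul_eq_mul, ← sum_const, sum_filter]
    refine sum_le_sum fun A _ => ?_
    have e : (start : Gm V).h A = 0 := rfl
    have e1 : c.wt 0 = c.eta / c.b ^ c.h0 := by unfold wt; rw [pow_zero, mul_one]
    rw [e, if_neg (by omega : ¬ c.h0 ≤ 0), ← e1]
    split_ifs
    exacts [le_rfl, wt_nonneg _, le_rfl]
  · have e : c.rx start x = 0 := by simp [rx, start, Gm.H]
    rw [e, ite_self, pow_zero]
  · have e : (s.2.biUnion fun p => (start : Gm V).Y ((start : Gm V).ad p)) = ∅ := by
      ext w; simp [start]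
    have e1 : ∑ p ∈ s.2, (start : Gm V).lo ((start : Gm V).ad p) = 0 := by simp [start]
    rw [e, e1, card_empty, pow_zero, pow_zero, mul_one]
  · have : c.h0 ≤ 0 := h
    omega
  · have : c.h1 ≤ 0 := h
    omega

theorem play (c : Cfg V R N) : ∃ Q : Finset V → Finset V → Prop, Q ∅ ∅ ∧
    ∀ Mk Br x, Q Mk Br → x ∉ Mk → x ∉ Br → (∀ A ∈ c.F, ¬ A ⊆ insert x Mk) ∧
      ((∃ y, y ∉ insert x Mk ∧ y ∉ Br) →
        ∃ y, y ∉ insert x Mk ∧ y ∉ Br ∧ Q (insert x Mk) (insert y Br)) := by
  refine ⟨fun Mk Br => ∃ (G : Gm V) (S : St c.P) (τ : Loc V R N → ℝ),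
    G.Mk = Mk ∧ G.Br = Br ∧ c.Inv G S τ ∧ S.Quiet, ?_, ?_⟩
  · obtain ⟨G, S, h⟩ := (start_inv (c := c)).settle
    exact ⟨G, S, _, h⟩
  · rintro Mk Br x ⟨G, S, τ, rfl, rfl, I, hQ⟩ h1 h2
    refine ⟨fun A hA => I.safe h2 hA, fun hf => ?_⟩
    obtain ⟨y, G', S', τ', h3, h4, h5⟩ := I.round hQ h1 h2 hf
    exact ⟨y, h3, h4, G', S', τ', h5⟩

end Cfg

end Pool.Agent.P.MP_d36d9e_co.X
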