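import Pool.Agent.P.MP_d36d9e_co.Y6
import Pool.Agent.P.MP_d36d9e_co.X5

/-!
The geometry of the locations.
-/

namespace Pool.Agent.P.MP_d36d9e_co.X

open Finset
open Classical

theorem exists_par {α : Type} [Fintype α] [DecidableEq α] [Nonempty α] (nb : α → α → Prop)
    (hs : ∀ x y, nb x y → nb y x) (Dg l : ℕ)
    (hdeg : ∀ x, (univ.filter fun y => nb x y).card ≤ Dg) (hL : (Dg + 1) ^ 2 ≤ 2 ^ l)
    (hl : 91 ≤ l) : ∃ P : Par α, (∀ u, P.T 0 u = ∅) ∧ P.m = 23 ∧
      (∀ x y, nb x y → P.d x y ≤ P.lam 1) ∧ P.Th = 2 ^ (369 * l + 1082) := by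
  have c3 : ∀ a, (univ.filter fun b => Rel nb 2 a b).card ≤ 2 ^ l := by
    intro a
    have h1 : (univ.filter fun b => Rel nb 2 a b) ⊆
        insert a ((univ.filter fun b => nb a b) ∪
          (univ.filter fun b => nb a b).biUnion fun z => univ.filter fun b => nb z b) := by
      intro b hb
      obtain ⟨w, ⟨z, h1, h3⟩, h4⟩ := (mem_filter.1 hb).2
      cases (h1 : a = z)
      simp only [mem_insert, mem_union, mem_biUnion, mem_filter, mem_univ, true_and]
      rcases h3 with rfl | h3 <;> rcases h4 with rfl | h4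
      · exact Or.inl rfl
      · exact Or.inr (Or.inl h4)
      · exact Or.inr (Or.inl h3)
      · exact Or.inr (Or.inr ⟨w, h3, h4⟩)
    have h2 := le_trans (card_le_card h1)
      (le_trans (card_insert_le _ _) (Nat.succ_le_succ (card_union_le _ _)))
    have h5 := card_biUnion_le_card_mul (univ.filter fun b => nb a b)
      (fun z => univ.filter fun b => nb z b) Dg fun z _ => hdeg z
    have h6 := hdeg a
    have h7 := Nat.mul_le_mul_right Dg h6
    nlinarith
  obtain ⟨d, C, d_self, d_eq, d_comm, d_tri, diam, d6, hball⟩ := exists_metric nb hs (2 ^ l)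
    (le_trans (by norm_num) (Nat.pow_le_pow_right (by norm_num) hl : 2 ^ 91 ≤ 2 ^ l))
    (by convert c3)
  let T : ℕ → α → Finset (Finset α) := fun j u => match j with
    | 0 => ∅
    | j + 1 => (powersetCard 24 (univ.filter fun v => d u v ≤ 6 * 12 ^ j)).filter
        fun ω => ∀ v ∈ ω, ∀ w ∈ ω, v ≠ w → 2 * 12 ^ j < d v w
  refine ⟨
    { d := d
      lam := lam
      h := C + 1
      v0 := Classical.arbitrary α
      m := 23
      T := T
      N := fun j => 2 ^ (72 * (lam j * l))
      S := fun j => 2 ^ (2 * (lam j * l))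
      th := fun j => 2 ^ (323 * (lam j * l))
      d_self := d_self
      d_eq := d_eq
      d_comm := d_comm
      d_tri := d_tri
      diam := fun x y => le_trans (diam x y) (Nat.lt_pow_self (by norm_num)).le
      lam0 := rfl
      lam_succ := by
        intro j
        cases j with
        | zero => simp [lam]
        | succ j => simp only [lam, pow_succ]; omega
      T_near := by
        intro j u ω hω v hv
        cases j with
        | zero => exact absurd hω (notMem_empty ω)
        | succ j =>
          have := (mem_filter.1 ((mem_powersetCard.1 (mem_filter.1 hω).1).1 hv)).2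
          simp only [lam, pow_succ]; omega
      T_sep := by
        intro j u ω hω v hv w hw hne
        cases j with
        | zero => exact absurd hω (notMem_empty ω)
        | succ j => exact (mem_filter.1 hω).2 v hv w hw hne
      T_card := by
        intro j u
        cases j with
        | zero => simp [T, lam]
        | succ j =>
          have h1 : (T (j + 1) u).card ≤ 2 ^ (72 * (lam (j + 1) * l)) := by
            refine le_trans (card_filter_le _ _) ?_
            rw [card_powersetCard]
            refine le_trans (Nat.choose_le_pow _ _) ?_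
            have h2 := hball u (3 * 12 ^ j)
            rw [show 2 * (3 * 12 ^ j) = 6 * 12 ^ j by ring] at h2
            refine le_trans (Nat.pow_le_pow_left h2 24) (le_of_eq ?_)
            rw [← pow_mul, ← pow_mul, lam]; congr 1; ring
          exact_mod_cast h1
      T_full := by
        intro j hj u ω h1 h2 h3
        cases j with
        | zero => omega
        | succ j =>
          exact mem_filter.2 ⟨mem_powersetCard.2
            ⟨fun v hv => mem_filter.2 ⟨mem_univ _, h2 v hv⟩, h1⟩, h3⟩
      S_ball := by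
        intro j c
        have h2 := hball c (2 * lam j)
        rw [show 2 * (2 * lam j) = 4 * lam j by ring, ← pow_mul,
          show l * (2 * lam j) = 2 * (lam j * l) by ring] at h2
        exact_mod_cast h2
      th_one := fun j => one_le_pow₀ (by norm_num)
      m_pos := by norm_num
      h_pos := by omega
      cond := by
        intro j hj
        cases j with
        | zero => omega
        | succ j =>
          have h1 : lam (j + 1 + 1) * l = 12 * (lam (j + 1) * l) := by simp only [lam]; ring
          have h2 : 91 ≤ lam (j + 1) * l :=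
            le_trans hl (Nat.le_mul_of_pos_left _ (pow_pos (by norm_num) j))
          rw [h1]
          generalize lam (j + 1) * l = t at h2
          simp only [← pow_succ', ← pow_mul, ← pow_add]
          exact pow_lt_pow_right₀ (by norm_num) (by omega) }, fun _ => rfl, rfl, d6, ?_⟩
  simp only [Par.Th, lam, ← pow_succ', ← pow_mul, ← pow_add]
  congr 1
  omega

variable {V : Type} [Fintype V] [DecidableEq V]

lemma adj_card (F : Finset (Finset V)) {n D : ℕ} (hn : ∀ A ∈ F, A.card = n)
    (hD : ∀ x, (F.filter fun A => x ∈ A).card ≤ D) (x : V) :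
    (univ.filter fun y => adj F x y).card ≤ n * D := by
  refine le_trans (card_le_card (t := (F.filter fun A => x ∈ A).biUnion id) fun y hy => ?_)
    (le_trans (card_biUnion_le_card_mul _ _ n fun A hA => (hn A (mem_filter.1 hA).1).le) ?_)
  · obtain ⟨A, h1, h2, h3⟩ := (mem_filter.1 hy).2
    exact mem_biUnion.2 ⟨A, mem_filter.2 ⟨h1, h2⟩, h3⟩
  · rw [mul_comm]; exact Nat.mul_le_mul_left _ (hD x)

/-- adjacency of locations -/
def lnb (F : Finset (Finset V)) (J R N : ℕ) : Loc V R N → Loc V R N → Prop
  | Sum.inl x, Sum.inl y => adj F x y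
  | Sum.inl z, Sum.inr (Sum.inl p) => adj F z p.1
  | Sum.inr (Sum.inl p), Sum.inl z => adj F z p.1
  | Sum.inl y, Sum.inr (Sum.inr s) =>
      (s.1 ∈ F ∧ (∀ p ∈ s.2, p.1 ∈ s.1) ∧ s.2.card = J) ∧ ∃ x ∈ s.1, adj F x y
  | Sum.inr (Sum.inr s), Sum.inl y =>
      (s.1 ∈ F ∧ (∀ p ∈ s.2, p.1 ∈ s.1) ∧ s.2.card = J) ∧ ∃ x ∈ s.1, adj F x y
  | Sum.inr _, Sum.inr _ => False

lemma lnb_symm (F : Finset (Finset V)) (J R N : ℕ) : ∀ a b, lnb F J R N a b → lnb F J R N b a := by
  rintro (a | a | a) (b | b | b) h
  · exact adj_symm h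
  all_goals exact h

lemma lnb_card (F : Finset (Finset V)) {n D : ℕ} (J R N : ℕ) (hn : ∀ A ∈ F, A.card = n)
    (hD : ∀ x, (F.filter fun A => x ∈ A).card ≤ D) (u : Loc V R N) :
    (univ.filter fun w => lnb F J R N u w).card ≤
      n * D + n * D * R + n * D * (D * (n * N) ^ J) + n * (n * D) := by
  have h1 := adj_card F hn hD
  rcases u with y | p | s
  · let St : V → Finset (Finset V × Finset (V × Fin N)) := fun x =>
      (F.filter fun A => x ∈ A).biUnion fun B => (powersetCard J (B ×ˢ univ)).image fun a => (B, a)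
    have hSt : ∀ x, (St x).card ≤ D * (n * N) ^ J := by
      intro x
      refine le_trans (card_biUnion_le_card_mul _ _ ((n * N) ^ J) fun B hB => ?_)
        (Nat.mul_le_mul_right _ (hD x))
      refine le_trans card_image_le ?_
      rw [card_powersetCard, card_product, hn B (mem_filter.1 hB).1, card_univ, Fintype.card_fin]
      exact Nat.choose_le_pow _ _
    refine le_trans (card_le_card (t := (univ.filter fun x => adj F y x).disjSum
      (((univ.filter fun x => adj F y x) ×ˢ (univ : Finset (Fin R))).disjSum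
        ((univ.filter fun x => adj F y x).biUnion St))) ?_) ?_
    · rintro (w | w | w) hw
      · exact inl_mem_disjSum.2 (mem_filter.2 ⟨mem_univ _, (mem_filter.1 hw).2⟩)
      · exact inr_mem_disjSum.2 (inl_mem_disjSum.2 (mem_product.2
          ⟨mem_filter.2 ⟨mem_univ _, (mem_filter.1 hw).2⟩, mem_univ _⟩))
      · obtain ⟨⟨h2, h3, h4⟩, x, h5, h6⟩ := (mem_filter.1 hw).2
        refine inr_mem_disjSum.2 (inr_mem_disjSum.2 (mem_biUnion.2
          ⟨x, mem_filter.2 ⟨mem_univ _, adj_symm h6⟩, mem_biUnion.2
            ⟨w.1, mem_filter.2 ⟨h2, h5⟩, mem_image.2 ⟨w.2, mem_powersetCard.2 ⟨?_, h4⟩, rfl⟩⟩⟩))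
        exact fun p hp => mem_product.2 ⟨h3 p hp, mem_univ _⟩
    · rw [card_disjSum, card_disjSum, card_product, card_univ, Fintype.card_fin]
      have h2 := card_biUnion_le_card_mul (univ.filter fun x => adj F y x) St _ fun x _ => hSt x
      have h3 := Nat.mul_le_mul_right R (h1 y)
      have h4 := Nat.mul_le_mul_right (D * (n * N) ^ J) (h1 y)
      have h5 := h1 y
      omega
  · refine le_trans (card_le_card (t := (univ.filter fun x => adj F p.1 x).image Sum.inl) ?_)
      (le_trans card_image_le (le_trans (h1 p.1) (by omega)))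
    rintro (w | w) hw
    · exact mem_image_of_mem _ (mem_filter.2 ⟨mem_univ _, adj_symm (mem_filter.1 hw).2⟩)
    · exact absurd (mem_filter.1 hw).2 (by simp [lnb])
  · by_cases hs : s.1 ∈ F
    · refine le_trans (card_le_card (t := (s.1.biUnion fun x =>
        univ.filter fun y => adj F x y).image Sum.inl) ?_) (le_trans card_image_le
          (le_trans (card_biUnion_le_card_mul _ _ _ fun x _ => h1 x) ?_))
      · rintro (w | w) hw
        · obtain ⟨-, x, h2, h3⟩ := (mem_filter.1 hw).2
          exact mem_image_of_mem _ (mem_biUnion.2 ⟨x, h2, mem_filter.2 ⟨mem_univ _, h3⟩⟩)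
        · exact absurd (mem_filter.1 hw).2 (by simp [lnb])
      · rw [hn _ hs]; omega
    · rw [filter_eq_empty_iff.2, card_empty]
      · exact Nat.zero_le _
      · rintro (w | w) - hw
        · exact hs hw.1.1
        · exact absurd hw (by simp [lnb])

theorem loc_par [Nonempty V] (F : Finset (Finset V)) {n D : ℕ} (J N l : ℕ)
    (hn : ∀ A ∈ F, A.card = n) (hD : ∀ x, (F.filter fun A => x ∈ A).card ≤ D) (n1 : 1 ≤ n)
    (D1 : 1 ≤ D) (N1 : 1 ≤ N) (hL : (6 * (n * D) ^ 2 * (n * N) ^ J) ^ 2 ≤ 2 ^ l) (hl : 91 ≤ l) :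
    ∃ P : Par (Loc V (n * D + 1) N), (∀ u, P.T 0 u = ∅) ∧ P.m = 23 ∧
      (∀ x y, lnb F J (n * D + 1) N x y → P.d x y ≤ P.lam 1) ∧ P.Th = 2 ^ (369 * l + 1082) := by
  refine exists_par _ (lnb_symm F J _ N) _ l (lnb_card F J _ N hn hD)
    (le_trans (Nat.pow_le_pow_left ?_ 2) hL) hl
  have h1 : 1 ≤ (n * N) ^ J := Nat.one_le_pow _ _ (Nat.mul_pos n1 N1)
  have h3 : n ≤ n * D := Nat.le_mul_of_pos_right _ D1
  have h4 : D ≤ n * D := Nat.le_mul_of_pos_left _ n1
  generalize (n * N) ^ J = Z at h1
  generalize n * D = M at h3 h4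
  have h5 : M * (D * Z) ≤ M * (M * Z) := Nat.mul_le_mul_left _ (Nat.mul_le_mul_right _ h4)
  have h6 : n * M ≤ M * M := Nat.mul_le_mul_right _ h3
  have h7 : M ≤ M * M := Nat.le_mul_self M
  have h8 : M * M ≤ M * M * Z := Nat.le_mul_of_pos_right _ h1
  nlinarith

end Pool.Agent.P.MP_d36d9e_co.X
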