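import Pool.Agent.P.MP_d36d9e_co.Y7

/-!
The numerical data and the strategy.
-/

namespace Pool.Agent.P.MP_d36d9e_co.X

open Finset
open Classical

lemma num_A1 {e θ W : ℝ} (e1 : e ≤ 1) (t0 : 0 ≤ θ) (t1 : 8 * θ ≤ e) (w0 : 0 ≤ W) (w1 : W ≤ θ) :
    Real.exp ((1 + 2 * θ) * ((2 - e - 1) * W)) ≤ 1 + (1 - e / 2) * W := by
  have e0 : 0 ≤ e := by linarith
  have h1 : (1 + 2 * θ) * (1 + θ) ≤ 1 + 4 * θ := by nlinarith
  have h2 : (1 + 2 * θ) * (1 - e) * (1 + (1 - e / 2) * W) ≤ 1 - e / 2 := by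
    have h3 : (1 - e / 2) * W ≤ θ := by nlinarith
    have h4 : (1 + 2 * θ) * (1 + (1 - e / 2) * W) ≤ 1 + 4 * θ := by nlinarith
    nlinarith
  have x0 : 0 ≤ (1 + 2 * θ) * ((2 - e - 1) * W) :=
    mul_nonneg (by linarith) (mul_nonneg (by linarith) w0)
  have x1 : (1 + 2 * θ) * ((2 - e - 1) * W) < 1 := by
    have : (2 - e - 1) * W ≤ θ := by nlinarith
    nlinarith
  refine le_trans (Real.exp_bound_div_one_sub_of_interval x0 x1) ?_
  rw [div_le_iff₀ (by linarith)]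
  nlinarith [mul_le_mul_of_nonneg_right h2 w0]

lemma num_A2 {θ W : ℝ} (t1 : 2 * θ ≤ 1) (w0 : 0 ≤ W) (w1 : W ≤ θ) :
    Real.exp (-((1 + 2 * θ) * W)) ≤ 1 - W := by
  have t0 : 0 ≤ θ := le_trans w0 w1
  have h1 := Real.add_one_le_exp ((1 + 2 * θ) * W)
  have h2 : 1 ≤ (1 + 2 * θ) * (1 - W) := by nlinarith
  rw [Real.exp_neg, inv_le_iff_one_le_mul₀ (Real.exp_pos _)]
  have h3 := mul_le_mul_of_nonneg_left h1 (by linarith : 0 ≤ 1 - W)
  nlinarith [mul_le_mul_of_nonneg_right h2 w0]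

lemma num_N {la x : ℝ} {T : ℕ} (h1 : 1 ≤ la) (h : Real.exp (la * (x - 1)) ≤ 2 ^ T) :
    x ≤ T + 1 := by
  by_contra h2
  have h3 : (T : ℝ) < x - 1 := by linarith
  have h4 : (0 : ℝ) ≤ T := Nat.cast_nonneg T
  have h5 : x - 1 ≤ la * (x - 1) := by nlinarith
  have h6 : (2 : ℝ) ^ T ≤ Real.exp T := by
    rw [← mul_one (T : ℝ), Real.exp_nat_mul]
    exact pow_le_pow_left₀ (by norm_num) (by linarith [Real.add_one_le_exp 1]) T
  have h7 := Real.exp_lt_exp.2 (lt_of_lt_of_le h3 h5)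
  linarith

lemma num_R {q : ℝ} {M T k : ℕ} (q0 : 0 ≤ q) (hq : 1 ≤ M * q) (h : (1 + q) ^ k ≤ 2 ^ T) :
    k ≤ M * (T + 1) := by
  by_contra h1
  have h2 : (2 : ℝ) ≤ (1 + q) ^ M := by
    have := one_add_mul_le_pow (by linarith : -2 ≤ q) M
    linarith
  have h3 : (1 + q) ^ (M * (T + 1)) ≤ (1 + q) ^ k := pow_le_pow_right₀ (by linarith) (by omega)
  rw [pow_mul] at h3
  have h4 := pow_le_pow_left₀ (by norm_num) h2 (T + 1)
  have h5 : (2 : ℝ) ^ T < 2 ^ (T + 1) := pow_lt_pow_right₀ (by norm_num) (by omega)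
  linarith

lemma num_load {ch de : ℝ} {T a k s : ℕ} (h1 : 1 / 2 ≤ ch) (h2 : de ≤ 1 / 2) (h3 : T + k < a)
    (h4 : 2 * a ≤ s) : (2 : ℝ) ^ T < (1 + ch) ^ s * (1 - de) ^ k := by
  have e1 : (2 : ℝ) ^ a ≤ (1 + ch) ^ s := by
    refine le_trans (pow_le_pow_left₀ (by norm_num) (by nlinarith : (2 : ℝ) ≤ (1 + ch) ^ 2) a) ?_
    rw [← pow_mul]
    exact pow_le_pow_right₀ (by linarith) h4
  have e2 : (1 / 2 : ℝ) ^ k ≤ (1 - de) ^ k := pow_le_pow_left₀ (by norm_num) (by linarith) k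
  refine lt_of_lt_of_le ?_ (mul_le_mul e1 e2 (by positivity) (by positivity))
  rw [one_div, inv_pow, ← div_eq_mul_inv, lt_div_iff₀ (by positivity), ← pow_add]
  exact pow_lt_pow_right₀ (by norm_num) h3

lemma num_ini {n h D : ℕ} {eta : ℝ} (n1 : 1 ≤ n) (hh : h ≤ n) (hD : D ≤ 2 ^ h) (e0 : 0 ≤ eta)
    (e1 : eta ≤ 1 / 2) : (D : ℝ) * (eta / (2 - 1 / (n : ℝ)) ^ h) ≤ 1 := by
  have n1' : (1 : ℝ) ≤ n := by exact_mod_cast n1
  have hh' : (h : ℝ) ≤ n := by exact_mod_cast hh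
  have hD' : (D : ℝ) ≤ 2 ^ h := by exact_mod_cast hD
  have h1 : 1 / (n : ℝ) ≤ 1 := by rw [div_le_one (by linarith)]; exact n1'
  have h2 : (h : ℝ) * (1 / n) ≤ 1 := by
    rw [mul_one_div, div_le_one (by linarith)]; exact hh'
  have h3 := one_add_mul_le_pow (by linarith : -2 ≤ -(1 / (n : ℝ) / 2)) h
  have h4 : (2 - 1 / (n : ℝ)) ^ h = 2 ^ h * (1 + -(1 / (n : ℝ) / 2)) ^ h := by
    rw [← mul_pow]; congr 1; ring
  have h5 : (2 : ℝ) ^ h * (1 / 2) ≤ (2 - 1 / (n : ℝ)) ^ h := by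
    rw [h4]
    exact mul_le_mul_of_nonneg_left (by linarith) (by positivity)
  rw [← mul_div_assoc, div_le_one (lt_of_lt_of_le (by positivity) h5)]
  exact le_trans (mul_le_mul hD' e1 e0 (by positivity)) h5

/-- arithmetic facts about the parameters -/
lemma num_nat {n t r m : ℕ} (t1 : 1 ≤ t) (n1 : 1 ≤ n) (r1 : r * r ≤ t * n)
    (r2 : t * n < (r + 1) * (r + 1)) (hn : 32000 * r + 1476 * m ≤ n) :
    31000 ≤ r ∧ t * (r / t + 1) ≤ 2 * r ∧ n ≤ 2 * ((r / t + 1) * r) ∧ r / t + 1 ≤ r + 1 ∧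
      n ≤ 2 ^ r := by
  have h1 : n ≤ t * n := Nat.le_mul_of_pos_left _ t1
  have h2 : 31000 ≤ r := by
    by_contra h
    rcases Nat.eq_zero_or_pos r with rfl | h3
    · omega
    · nlinarith
  have h3 : t ≤ r := by
    by_contra h
    have : (r + 1) * (r + 1) ≤ t * n := Nat.mul_le_mul (by omega) (by omega)
    omega
  have h4 := Nat.mul_div_le r t
  have h5 := Nat.lt_mul_div_succ r t1
  refine ⟨h2, by rw [mul_add]; omega, ?_, Nat.succ_le_succ (Nat.div_le_self _ _), ?_⟩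
  · refine Nat.le_of_mul_le_mul_left ?_ t1
    have h6 := Nat.mul_le_mul_right r h5.le
    nlinarith
  · have h6 : ∀ k, (k + 7) * (k + 7) ≤ 2 ^ (k + 6) := by
      intro k
      induction k with
      | zero => norm_num
      | succ k ih => rw [show k + 1 + 6 = k + 6 + 1 by ring, pow_succ]; nlinarith
    have h7 := h6 (r - 6)
    rw [show r - 6 + 7 = r + 1 by omega, show r - 6 + 6 = r by omega] at h7
    omega

theorem exists_cfg {V : Type} [Fintype V] [DecidableEq V] [Nonempty V] (F : Finset (Finset V))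
    {n t mu D r m : ℕ} (hc : ∀ A ∈ F, A.card = n)
    (ho : ∀ A ∈ F, ∀ B ∈ F, A ≠ B → (A ∩ B).card ≤ t)
    (hp : ∀ x y, x ≠ y → (F.filter fun A => x ∈ A ∧ y ∈ A).card ≤ mu)
    (hD : ∀ x, (F.filter fun A => x ∈ A).card ≤ D) (t1 : 1 ≤ t) (n1 : 1 ≤ n) (m1 : 1 ≤ mu)
    (D1 : 1 ≤ D) (r1 : r * r ≤ t * n) (r2 : t * n < (r + 1) * (r + 1)) (hm : mu ≤ 2 ^ m)
    (hb : D * 2 ^ (32000 * r + 1476 * m) ≤ 2 ^ n) :
    ∃ (R N : ℕ) (c : Cfg V R N), c.F = F := by
  have hn : 32000 * r + 1476 * m ≤ n :=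
    (Nat.pow_le_pow_iff_right (by norm_num : 1 < 2)).1
      (le_trans (Nat.le_mul_of_pos_left _ D1) hb)
  obtain ⟨a1, a2, a3, a4, a5⟩ := num_nat t1 n1 r1 r2 hn
  generalize r / t + 1 = J at a2 a3 a4
  obtain ⟨h0, hh⟩ : ∃ h0, n = h0 + (46 + 31602 * r + 1476 * m) + J + 1 :=
    ⟨n - (46 + 31602 * r + 1476 * m) - J - 1, by omega⟩
  have hD0 : D ≤ 2 ^ h0 := by
    have h1 : 2 ^ n ≤ 2 ^ h0 * 2 ^ (32000 * r + 1476 * m) := by
      rw [← pow_add]; exact Nat.pow_le_pow_right (by norm_num) (by omega)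
    exact Nat.le_of_mul_le_mul_right (le_trans hb h1) (by positivity)
  obtain ⟨l, hl⟩ : ∃ l, l = 9 * n + 2 * (J * (12 * r + m)) := ⟨_, rfl⟩
  obtain ⟨T, hT⟩ : ∃ T, T = 369 * l + 1082 := ⟨_, rfl⟩
  have nbig : 100000 ≤ n := by omega
  have hT3 : T + 1 ≤ n ^ 3 := by
    have h1 : J * (12 * r + m) ≤ n * n := Nat.mul_le_mul (by omega) (by omega)
    have h2 : 100000 * (n * n) ≤ n * (n * n) := Nat.mul_le_mul_right _ nbig
    have h3 : 100000 * n ≤ n * n := Nat.mul_le_mul_right _ nbig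
    rw [show n ^ 3 = n * (n * n) by ring]
    omega
  obtain ⟨P, p1, p2, p3, p4⟩ := loc_par F J (2 ^ (11 * r + m)) l hc hD n1 D1 Nat.one_le_two_pow
    (by
      have h1 : n * 2 ^ (11 * r + m) ≤ 2 ^ (12 * r + m) := by
        rw [show 12 * r + m = r + (11 * r + m) by ring, pow_add 2 r]
        exact Nat.mul_le_mul_right _ a5
      have h2 : n * D ≤ 2 ^ n * 2 ^ n := Nat.mul_le_mul Nat.lt_two_pow_self.le
        (le_trans hD0 (Nat.pow_le_pow_right (by norm_num) (by omega)))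
      have h3 : 6 ≤ 2 ^ 3 := by norm_num
      refine le_trans (Nat.pow_le_pow_left (Nat.mul_le_mul (Nat.mul_le_mul h3
        (Nat.pow_le_pow_left h2 2)) (Nat.pow_le_pow_left h1 J)) 2) ?_
      simp only [← pow_mul, ← pow_add]
      refine Nat.pow_le_pow_right (by norm_num) ?_
      rw [hl, mul_comm (12 * r + m) J]
      omega) (by omega)
  rw [← hT] at p4
  have nr : (100000 : ℝ) ≤ n := by exact_mod_cast nbig
  have mr : (1 : ℝ) ≤ mu := by exact_mod_cast m1
  have np : (0 : ℝ) < n := by linarith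
  have e0 : (0 : ℝ) < 1 / n := by positivity
  have e1 : 1 / (n : ℝ) ≤ 1 / 100000 := one_div_le_one_div_of_le (by norm_num) nr
  have th : (mu : ℝ) * (1 / (mu * n ^ 7)) = 1 / n ^ 7 := by field_simp
  have th0 : (0 : ℝ) ≤ 1 / n ^ 7 := by positivity
  have th1 : 8 * (1 / (n : ℝ) ^ 7) ≤ 1 / n := by
    rw [mul_one_div, div_le_div_iff₀ (by positivity) np, one_mul, pow_succ]
    refine mul_le_mul_of_nonneg_right (le_trans (by linarith) (le_self_pow₀ (by linarith)
      (by norm_num))) np.le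
  refine ⟨n * D + 1, 2 ^ (11 * r + m),
    { F := F, n := n, t := t, mu := mu, J := J, h0 := h0
      h1 := h0 + (46 + 31602 * r + 1476 * m)
      R0 := 1472 * n * (T + 1)
      b := 2 - 1 / n, eta := 1 / (mu * n ^ 7), ch := 1 - 1 / n / 2, de := 1 / n / 8
      a := 3 * (1 / n) / 8, q := 1 / n / 1472, la := 1 + 2 * (1 / n ^ 7)
      P := P
      card := hc
      ov := ho
      pd := fun x y h => by convert hp x y h
      hR := fun x => Nat.lt_succ_of_le (by convert adj_card F hc hD x)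
      T0 := p1
      near1 := fun x y h => p3 _ _ h
      near2 := fun x i z h => p3 _ _ (adj_symm h)
      near3 := fun s x y h1 h2 h3 h4 h5 => p3 _ _ ⟨⟨h1, h2, h3⟩, x, h4, h5⟩
      b1 := by linarith
      eta0 := by positivity
      ch0 := by linarith
      de0 := by linarith
      a0 := by linarith
      q0 := by linarith
      la0 := by linarith
      sum1 := by linarith
      q1 := by rw [p2]; push_cast; linarith
      th1 := by rw [th]; linarith
      hA1 := fun W h1 h2 => num_A1 (by linarith) th0 th1 h1 (by rwa [th] at h2)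
      hA2 := fun W h1 h2 => num_A2 (by linarith) h1 (by rwa [th] at h2)
      ini := fun v => num_ini n1 (by omega) (le_trans (by convert hD v) hD0) (by positivity) (by
        have : 1 / ((mu : ℝ) * n ^ 7) ≤ 1 / n ^ 7 :=
          one_div_le_one_div_of_le (by positivity) (le_mul_of_one_le_left (by positivity) mr)
        linarith)
      h0_pos := by omega
      h01 := by omega
      hn := by omega
      hN := fun k h => by
        rw [p4] at h
        have h1 := num_N (by linarith) h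
        rw [one_div, inv_mul_le_iff₀ (by positivity)] at h1
        have h2 : k ≤ mu * n ^ 7 * (T + 1) := by exact_mod_cast h1
        refine le_trans h2 (le_trans (Nat.mul_le_mul (Nat.mul_le_mul hm
          (Nat.pow_le_pow_left a5 7)) (le_trans hT3 (Nat.pow_le_pow_left a5 3))) ?_)
        simp only [← pow_mul, ← pow_add]
        exact Nat.pow_le_pow_right (by norm_num) (by omega)
      hR0 := fun k h => by
        rw [p4] at h
        refine num_R (by positivity) (le_of_eq ?_) h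
        push_cast; field_simp
      hex := by
        have h1 : ((T : ℝ) + 1) ≤ n ^ 3 := by exact_mod_cast hT3
        have h2 : 1 / ((mu : ℝ) * n ^ 7) * (n * (mu * (1472 * n * (T + 1) : ℕ))) =
            1472 * (T + 1) / n ^ 5 := by push_cast; field_simp
        have h3 : 3 * (1 / (n : ℝ)) / 8 = 3 / 8 * n * n ^ 3 / n ^ 5 := by field_simp
        rw [h2, h3]
        exact div_le_div_of_nonneg_right
          (mul_le_mul (by linarith) h1 (by positivity) (by positivity)) (by positivity)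
      hload := by
        rw [p4, p2]
        refine num_load (a := J * (15800 * r + 738 * m)) (by linarith) (by linarith) ?_ ?_
        · have h1 : J * 31000 ≤ J * r := Nat.mul_le_mul_left _ a1
          have h2 : 1 ≤ J := by
            rcases Nat.eq_zero_or_pos J with rfl | h
            · omega
            · exact h
          rw [hT, hl]
          simp only [mul_add, mul_left_comm J]
          omega
        · rw [mul_left_comm]
          exact Nat.mul_le_mul_left _ (by omega) }, rfl⟩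

theorem second_player_ad {V : Type} [DecidableEq V] [Nonempty V] (F : Finset (Finset V))
    {n t mu D r m : ℕ} (hc : ∀ A ∈ F, A.card = n)
    (ho : ∀ A ∈ F, ∀ B ∈ F, A ≠ B → (A ∩ B).card ≤ t)
    (hp : ∀ x y, x ≠ y → (F.filter fun A => x ∈ A ∧ y ∈ A).card ≤ mu)
    (hD : ∀ x, (F.filter fun A => x ∈ A).card ≤ D) (t1 : 1 ≤ t) (n1 : 1 ≤ n) (m1 : 1 ≤ mu)
    (D1 : 1 ≤ D) (r1 : r * r ≤ t * n) (r2 : t * n < (r + 1) * (r + 1)) (hm : mu ≤ 2 ^ m)
    (hb : D * 2 ^ (32000 * r + 1476 * m) ≤ 2 ^ n) :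
    ∃ σ : List V → V, ∀ m : ℕ → V,
      (∀ k < (F.biUnion id).card, Odd k → m k = σ (List.ofFn fun i : Fin k => m i.val)) →
      (∀ k < (F.biUnion id).card, Even k → m k ∈ F.biUnion id ∧ ∀ i < k, m i ≠ m k) →
      (∀ k < (F.biUnion id).card, Odd k → m k ∈ F.biUnion id ∧ ∀ i < k, m i ≠ m k) ∧
      ∀ A ∈ F, ∃ k < (F.biUnion id).card, Odd k ∧ m k ∈ A := by
  rcases F.eq_empty_or_nonempty with rfl | ⟨A0, hA0⟩
  · exact ⟨fun _ => Classical.arbitrary V, fun m _ _ => by simp⟩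
  set W := F.biUnion id with hW
  have hne : ∀ A ∈ F, A.Nonempty := fun A hA => card_pos.1 (by rw [hc A hA]; omega)
  have hsub : ∀ A ∈ F, ∀ x ∈ A, x ∈ W := fun A hA x hx => mem_biUnion.2 ⟨A, hA, hx⟩
  obtain ⟨x0, hx0⟩ := hne A0 hA0
  have : Nonempty ↥W := ⟨⟨x0, hsub A0 hA0 x0 hx0⟩⟩
  let f : Finset V → Finset ↥W := fun A => A.subtype (· ∈ W)
  have f_mem : ∀ A (x : ↥W), x ∈ f A ↔ x.1 ∈ A := fun A x => mem_subtype
  have f_card : ∀ A, (f A).card ≤ A.card := fun A => by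
    simp only [f, card_subtype]; exact card_filter_le _ _
  have f_cnt : ∀ (p : Finset ↥W → Prop) [DecidablePred p] (p' : Finset V → Prop)
      [DecidablePred p'], (∀ A, p (f A) → p' A) →
      ((F.image f).filter p).card ≤ (F.filter p').card := by
    intro p _ p' _ h
    refine le_trans (card_le_card (t := (F.filter p').image f) fun B hB => ?_) card_image_le
    obtain ⟨h1, h2⟩ := mem_filter.1 hB
    obtain ⟨A, h3, rfl⟩ := mem_image.1 h1
    exact mem_image_of_mem _ (mem_filter.2 ⟨h3, h A h2⟩)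
  obtain ⟨R, N, c, hF⟩ := exists_cfg (F.image f) (n := n) (t := t) (mu := mu) (D := D)
    (by
      intro B hB
      obtain ⟨A, hA, rfl⟩ := mem_image.1 hB
      simp only [f, card_subtype]
      rw [filter_true_of_mem (hsub A hA), hc A hA])
    (by
      intro B hB B' hB' h
      obtain ⟨A, hA, rfl⟩ := mem_image.1 hB
      obtain ⟨A', hA', rfl⟩ := mem_image.1 hB'
      refine le_trans (le_trans (card_le_card fun x hx => ?_) (f_card (A ∩ A')))
        (ho A hA A' hA' fun e => h (by rw [e]))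
      rw [mem_inter, f_mem, f_mem] at hx
      exact (f_mem _ _).2 (mem_inter.2 hx))
    (fun x y h => le_trans (f_cnt _ _ fun A h' => ⟨(f_mem _ _).1 h'.1, (f_mem _ _).1 h'.2⟩)
      (hp x.1 y.1 fun e => h (Subtype.ext e)))
    (fun x => le_trans (f_cnt _ _ fun A h' => (f_mem _ _).1 h') (hD x.1))
    t1 n1 m1 D1 r1 r2 hm hb
  obtain ⟨Q, hQ0, hQ⟩ := c.play
  have f_ins : ∀ M (x : ↥W), f (insert x.1 M) = insert x (f M) := by
    intro M x
    ext a
    rw [mem_insert, f_mem, f_mem, mem_insert]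
    exact or_congr_left Subtype.ext_iff.symm
  refine strategy_of_invariant F hne (fun M B => Q (f M) (f B)) ?_ ?_
  · have : f ∅ = ∅ := by ext a; rw [f_mem]; simp
    simp only [this]; exact hQ0
  · intro M B x hq hxW hxM hxB
    obtain ⟨h1, h2⟩ := hQ _ _ ⟨x, hxW⟩ hq (by rwa [f_mem]) (by rwa [f_mem])
    rw [← f_ins] at h1 h2
    constructor
    · intro A hA hs
      refine h1 (f A) (by rw [hF]; exact mem_image_of_mem _ hA) fun a ha => ?_
      rw [f_mem] at ha ⊢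
      exact hs ha
    · rintro ⟨y, hyW, hy1, hy2⟩
      obtain ⟨a, ha1, ha2, ha3⟩ := h2 ⟨⟨y, hyW⟩, by rwa [f_mem], by rwa [f_mem]⟩
      rw [← f_ins] at ha3
      exact ⟨a.1, a.2, by rwa [f_mem] at ha1, by rwa [f_mem] at ha2, ha3⟩

end Pool.Agent.P.MP_d36d9e_co.X
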